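import Pool.Agent.Lib.MP_843c79_co.Bochner

/-!
The circular average of a plane wave and the linear programming inequality.
-/

namespace Pool.Agent.Lib.MP_843c79_co

set_option maxHeartbeats 400000

open Filter Topology MeasureTheory
open scoped RealInnerProductSpace FourierTransform Real

/-- the circular average of a plane wave -/
noncomputable def J (s : ℝ) : ℝ := (∫ θ in (0 : ℝ)..π, Real.cos (2 * π * s * Real.cos θ)) / π

theorem J_zero : J 0 = 1 := by simp [J, Real.pi_ne_zero]

theorem J_cont : Continuous J := by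
  refine Continuous.div_const ?_ _
  exact intervalIntegral.continuous_parametric_intervalIntegral_of_continuous' (by fun_prop) _ _

theorem J_shift (s c : ℝ) :
    ∫ θ in (0 : ℝ)..π, Real.cos (2 * π * s * Real.cos (θ + c)) = π * J s := by
  have hp : Function.Periodic (fun θ => Real.cos (2 * π * s * Real.cos θ)) π := fun θ => by
    simp [Real.cos_add_pi]
  rw [intervalIntegral.integral_comp_add_right (fun θ => Real.cos (2 * π * s * Real.cos θ)),
    zero_add, add_comm π c, hp.intervalIntegral_add_eq c 0, zero_add, J,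
    mul_div_cancel₀ _ Real.pi_ne_zero]

theorem cos_three (a b : ℝ) : -(3 / 2) ≤ Real.cos a + Real.cos b + Real.cos (a + b) := by
  rw [Real.cos_add]
  nlinarith [sq_nonneg (1 + Real.cos a + Real.cos b), sq_nonneg (Real.sin a - Real.sin b),
    Real.sin_sq_add_cos_sq a, Real.sin_sq_add_cos_sq b]

theorem J_ge (s : ℝ) : -(1 / 2) ≤ J s := by
  have h1 : ∀ c : ℝ, IntervalIntegrable (fun θ => Real.cos (2 * π * s * Real.cos (θ + c)))
      volume 0 π := fun c => Continuous.intervalIntegrable (by fun_prop) _ _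
  have h2 : ∫ θ in (0 : ℝ)..π, (-(3 / 2) : ℝ) ≤ ∫ θ in (0 : ℝ)..π,
      (Real.cos (2 * π * s * Real.cos (θ + π / 3)) + Real.cos (2 * π * s * Real.cos (θ + -(π / 3)))
        + Real.cos (2 * π * s * Real.cos (θ + 0))) := by
    refine intervalIntegral.integral_mono_on Real.pi_pos.le (by simp)
      (((h1 _).add (h1 _)).add (h1 _)) fun θ _ => ?_
    have h3 : 2 * π * s * Real.cos (θ + 0) =
        2 * π * s * Real.cos (θ + π / 3) + 2 * π * s * Real.cos (θ + -(π / 3)) := by
      rw [add_zero, Real.cos_add, Real.cos_add, Real.cos_neg, Real.sin_neg, Real.cos_pi_div_three]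
      ring
    rw [h3]
    exact cos_three _ _
  rw [intervalIntegral.integral_add ((h1 _).add (h1 _)) (h1 _),
    intervalIntegral.integral_add (h1 _) (h1 _), J_shift, J_shift, J_shift] at h2
  simp only [intervalIntegral.integral_const, sub_zero, smul_eq_mul] at h2
  nlinarith [Real.pi_pos]

theorem J_tendsto : Tendsto J atTop (𝓝 0) := by
  let k : ℝ → ℂ := (Real.cos '' Set.Ioo 0 π).indicator fun x => ((√(1 - x ^ 2))⁻¹ : ℝ)
  have hinj : Set.InjOn Real.cos (Set.Ioo 0 π) := Real.injOn_cos.mono Set.Ioo_subset_Icc_self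
  have hm : MeasurableSet (Real.cos '' Set.Ioo 0 π) :=
    measurableSet_Ioo.image_of_continuousOn_injOn Real.continuous_cos.continuousOn hinj
  have h1 := ((Complex.continuous_re.tendsto _).comp
    ((Real.tendsto_integral_exp_smul_cocompact k).mono_left atTop_le_cocompact)).div_const π
  simp only [Complex.zero_re, zero_div] at h1
  refine h1.congr fun s => ?_
  simp only [Function.comp, J]
  congr 1
  have h2 : ∀ x : ℝ, 𝐞 (-(x * s)) • k x = (Real.cos '' Set.Ioo 0 π).indicator
      (fun x => 𝐞 (-(x * s)) • (((√(1 - x ^ 2))⁻¹ : ℝ) : ℂ)) x := fun x => by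
    simp only [k, Set.indicator]
    split_ifs <;> simp
  simp only [h2]
  rw [integral_indicator hm, integral_image_eq_integral_abs_deriv_smul measurableSet_Ioo
    (fun x _ => (Real.hasDerivAt_cos x).hasDerivWithinAt) hinj,
    intervalIntegral.integral_of_le Real.pi_pos.le, integral_Ioc_eq_integral_Ioo]
  have h3 : ∫ x in Set.Ioo 0 π, |-Real.sin x| • 𝐞 (-(Real.cos x * s)) •
      (((√(1 - Real.cos x ^ 2))⁻¹ : ℝ) : ℂ) =
      ∫ x in Set.Ioo 0 π, Complex.exp ((-(2 * π * s * Real.cos x) : ℝ) * Complex.I) := by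
    refine setIntegral_congr_fun measurableSet_Ioo fun x hx => ?_
    have h4 : 0 < Real.sin x := Real.sin_pos_of_pos_of_lt_pi hx.1 hx.2
    rw [← Real.sin_sq, Real.sqrt_sq h4.le, abs_neg, abs_of_pos h4, Circle.smul_def,
      Real.fourierChar_apply, smul_eq_mul, Complex.real_smul, mul_left_comm,
      ← Complex.ofReal_mul, mul_inv_cancel₀ h4.ne', Complex.ofReal_one, mul_one]
    congr 3
    ring
  rw [h3]
  have h5 : Integrable (fun x => Complex.exp ((-(2 * π * s * Real.cos x) : ℝ) * Complex.I))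
      (volume.restrict (Set.Ioo 0 π)) :=
    (Continuous.integrableOn_Icc (by fun_prop)).mono_set Set.Ioo_subset_Icc_self
  have h6 := integral_re h5
  simp only [RCLike.re_to_complex, Complex.exp_ofReal_mul_I_re, Real.cos_neg] at h6
  exact h6.symm

theorem J_avg (w : ℂ) (d : ℝ) :
    ∫ θ in (0 : ℝ)..π, Real.cos (2 * π * ⟪w, eu θ * d⟫) = π * J (‖w‖ * d) := by
  rw [← J_shift _ (-w.arg)]
  congr 1
  ext θ
  congr 1
  have h1 : w.re = ‖w‖ * Real.cos w.arg := by
    conv_lhs => rw [← eu_arg w]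
    simp [eu_re, mul_comm]
  have h2 : w.im = ‖w‖ * Real.sin w.arg := by
    conv_lhs => rw [← eu_arg w]
    simp [eu_im, mul_comm]
  rw [Real.cos_add, Real.cos_neg, Real.sin_neg]
  simp only [Complex.inner, Complex.mul_re, Complex.conj_re, Complex.conj_im, Complex.mul_im,
    Complex.ofReal_re, Complex.ofReal_im, eu_re, eu_im]
  rw [h1, h2]
  ring

theorem radial_density {f F : ℂ → ℝ} (hr : ∀ θ x, f (eu θ * x) = f x) (hF : Integrable F)
    (h : ∀ x, f x = ∫ w, Real.cos (2 * π * ⟪w, x⟫) * F w) (d : ℝ) :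
    f d = ∫ w, J (‖w‖ * d) * F w := by
  have h1 : ∫ θ in (0 : ℝ)..π, f (eu θ * d) = π * f d := by simp [hr]
  have h2 : Integrable (Function.uncurry fun (θ : ℝ) (w : ℂ) =>
      Real.cos (2 * π * ⟪w, eu θ * d⟫) * F w) ((volume.restrict (Set.uIoc 0 π)).prod volume) := by
    have h3 : Integrable (fun _ : ℝ => (1 : ℝ)) (volume.restrict (Set.uIoc 0 π)) :=
      (intervalIntegrable_const (μ := volume) (a := 0) (b := π) (c := (1 : ℝ))).def'
    have h4 := (h3.mul_prod hF).bdd_mul (c := 1)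
      (f := fun p : ℝ × ℂ => Real.cos (2 * π * ⟪p.2, eu p.1 * d⟫))
      (Continuous.aestronglyMeasurable (by unfold eu; fun_prop))
      (ae_of_all _ fun p => Real.abs_cos_le_one _)
    simp only [one_mul] at h4
    exact h4
  simp only [h (eu _ * d)] at h1
  rw [intervalIntegral_integral_swap h2] at h1
  simp only [intervalIntegral.integral_mul_const, J_avg] at h1
  simp only [mul_assoc, integral_const_mul] at h1
  exact (mul_left_cancel₀ Real.pi_ne_zero h1).symm

/-- the linear programming inequality for continuous radial vectors -/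
theorem lp_ineq {H : Type} [NormedAddCommGroup H] [InnerProductSpace ℝ H] [CompleteSpace H]
    {ρ : MRep H} {v : H} (hv : ρ.Cont v) (hr : ∀ θ, ρ.R θ v = v) (hn : ‖v‖ ≤ 1)
    (S : Finset ℝ) (c : ℝ → ℝ) (l : ℝ) (h : ∀ s, 0 ≤ s → 0 ≤ l + ∑ d ∈ S, c d * J (s * d)) :
    0 ≤ l * ρ.G v 0 + ∑ d ∈ S, c d * ρ.G v d := by
  have hG : Continuous (ρ.G v) := hv.continuous.inner continuous_const
  have h1 : ∀ b : ℝ, 0 < b → 0 ≤ l * ρ.G v 0 +
      ∑ d ∈ S, c d * (ρ.G v d * Real.exp (-b * ‖(d : ℂ)‖ ^ 2)) := fun b hb => by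
    obtain ⟨F, hF, hF0, hF1⟩ := exists_density (f := fun z => ρ.G v z * Real.exp (-b * ‖z‖ ^ 2))
      ((integrable_gauss hb).bdd_mul (c := 1) hG.aestronglyMeasurable
        (ae_of_all _ fun z => abs_G_le hn z)) (by fun_prop)
      (fun z => by rw [norm_neg, G_congr hr (norm_neg z)]) (fun w => cos_pos hv hn w hb)
    have h2 := radial_density (f := fun z => ρ.G v z * Real.exp (-b * ‖z‖ ^ 2))
      (fun θ x => by simp only [G_rad hr, norm_mul, norm_eu, one_mul]) hF hF1
    have h3 := hF1 0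
    simp only [norm_zero, ne_eq, OfNat.ofNat_ne_zero, not_false_eq_true, zero_pow, mul_zero,
      Real.exp_zero, mul_one, inner_zero_right, Real.cos_zero, one_mul] at h3
    have h4 : ∀ d : ℝ, Integrable fun w : ℂ => c d * (J (‖w‖ * d) * F w) := fun d => by
      refine Integrable.const_mul (hF.bdd_mul (c := 1)
        (J_cont.comp (by fun_prop)).aestronglyMeasurable (ae_of_all _ fun w => ?_)) _
      change ‖J (‖w‖ * d)‖ ≤ 1
      rw [J, norm_div, Real.norm_of_nonneg Real.pi_pos.le, div_le_one Real.pi_pos]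
      simpa [abs_of_pos Real.pi_pos] using intervalIntegral.norm_integral_le_of_norm_le_const
        (a := 0) (b := π) (C := 1) (f := fun θ => Real.cos (2 * π * (‖w‖ * d) * Real.cos θ))
        fun θ _ => Real.abs_cos_le_one _
    simp only [h2, h3, ← integral_const_mul]
    rw [← integral_finsetSum _ fun d _ => h4 d,
      ← integral_add (hF.const_mul _) (integrable_finsetSum _ fun d _ => h4 d)]
    refine integral_nonneg fun w => ?_
    have h5 := mul_nonneg (h _ (norm_nonneg w)) (hF0 w)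
    simp only [add_mul, Finset.sum_mul, mul_assoc] at h5
    exact h5
  have h6 : Continuous fun b : ℝ => l * ρ.G v 0 +
      ∑ d ∈ S, c d * (ρ.G v d * Real.exp (-b * ‖(d : ℂ)‖ ^ 2)) := by fun_prop
  have h7 := ge_of_tendsto ((h6.tendsto 0).mono_left (nhdsWithin_le_nhds (s := Set.Ioi 0)))
    (eventually_mem_nhdsWithin.mono h1)
  simpa using h7

/-- rapidly growing distances with geometric weights -/
theorem exists_weights (k : ℕ) : ∀ η : ℝ, 0 < η → ∃ (S : Finset ℝ) (c : ℝ → ℝ), S.card = k ∧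
    (∀ d ∈ S, 0 < d) ∧ ∑ d ∈ S, c d = 3 ^ k - 1 ∧
    ∀ s, 0 ≤ s → 0 ≤ (1 + η) + ∑ d ∈ S, c d * J (s * d) := by
  classical
  induction k with
  | zero => exact fun η hη => ⟨∅, 0, rfl, by simp, by simp, fun s _ => by simp; linarith⟩
  | succ k ih =>
    intro η hη
    obtain ⟨S, c, h1, h2, h3, h4⟩ := ih (η / 2) (by positivity)
    have h5 : Continuous fun s : ℝ => ∑ d ∈ S, c d * J (s * d) :=
      continuous_finsetSum _ fun d _ => continuous_const.mul (J_cont.comp (by fun_prop))
    obtain ⟨δ, hδ, h6⟩ := Metric.continuous_iff.1 h5 0 η hη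
    simp only [zero_mul, J_zero, mul_one, h3, Real.dist_eq, sub_zero] at h6
    have hW : (0 : ℝ) < 3 ^ k := by positivity
    obtain ⟨M, hM⟩ := Metric.tendsto_atTop.1 J_tendsto (η / (4 * 3 ^ k)) (by positivity)
    simp only [Real.dist_eq, sub_zero] at hM
    obtain ⟨B, hB⟩ := S.bddAbove
    set D := max (max B 0) (M / δ) + 1 with hD
    have hD1 : B < D := by linarith [le_max_left B 0, le_max_left (max B 0) (M / δ)]
    have hD2 : 0 < D := by linarith [le_max_right B 0, le_max_left (max B 0) (M / δ)]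
    have hD3 : M / δ ≤ D := by linarith [le_max_right (max B 0) (M / δ)]
    have hDS : D ∉ S := fun h => absurd (hB h) (not_le.2 hD1)
    have h7 : ∀ d ∈ S, Function.update c D (2 * 3 ^ k) d = c d := fun d hd =>
      Function.update_of_ne (fun (h : d = D) => hDS (h ▸ hd)) _ _
    refine ⟨insert D S, Function.update c D (2 * 3 ^ k), by rw [Finset.card_insert_of_notMem hDS, h1],
      fun d hd => ?_, ?_, fun s hs => ?_⟩
    · rcases Finset.mem_insert.1 hd with rfl | hd
      exacts [hD2, h2 d hd]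
    · rw [Finset.sum_insert hDS, Finset.sum_congr rfl h7, h3, Function.update_self]; ring
    · rw [Finset.sum_insert hDS, Function.update_self,
        Finset.sum_congr rfl fun d hd => by rw [h7 d hd]]
      rcases lt_or_ge s δ with h | h
      · have h8 := abs_lt.1 (h6 s (by rwa [abs_of_nonneg hs]))
        nlinarith [J_ge (s * D)]
      · have h8 := abs_lt.1 (hM (s * D) (by
          rw [div_le_iff₀ hδ] at hD3
          nlinarith))
        have h9 : 3 ^ k * (η / (4 * 3 ^ k)) = η / 4 := by field_simp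
        nlinarith [h4 s hs]

/-- every colouring of the complex plane avoiding suitable `k` distances needs `3 ^ k` colours -/
theorem exists_distances (k : ℕ) : ∃ S : Finset ℝ, S.card = k ∧ (∀ d ∈ S, 0 < d) ∧
    ∀ (N : ℕ) (col : ℂ → Fin N), (∀ x y, ‖x - y‖ ∈ S → col x ≠ col y) → 3 ^ k ≤ N := by
  have hW : (0 : ℝ) < 3 ^ k := by positivity
  obtain ⟨S, c, h1, h2, h3, h4⟩ := exists_weights k (1 / 3 ^ k) (by positivity)
  refine ⟨S, h1, h2, fun N col hcol => ?_⟩
  have hN : 0 < N := Fin.pos (col 0)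
  have hN' : (0 : ℝ) < N := by exact_mod_cast hN
  obtain ⟨g, hg, hg0, hg1⟩ := exists_rpd hN col
  obtain ⟨H, _, _, _, ρ, ξ, hrad, hξ⟩ := exists_rep hg
  have h5 : ‖ξ‖ ^ 2 = 1 - 1 / N := by
    rw [← hg0, ← hξ, ρ.T_zero, real_inner_self_eq_norm_sq]
  have h6 : ‖ξ‖ ≤ 1 := by
    have : (0 : ℝ) < 1 / N := by positivity
    nlinarith [norm_nonneg ξ]
  obtain ⟨v, hv, hr, hn, hG⟩ := exists_cont hrad h6
  have h7 := lp_ineq hv hr (hn.trans h6) S c _ h4
  have h8 : ρ.G v 0 ≤ 1 - 1 / N := by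
    rw [MRep.G, ρ.T_zero, real_inner_self_eq_norm_sq, ← h5]
    exact pow_le_pow_left₀ (norm_nonneg _) hn 2
  have h9 : ∀ d ∈ S, c d * ρ.G v d = c d * -(1 / N) := fun d hd => by
    rw [hG d (h2 d hd), MRep.G, hξ, hg1 d (fun x y h => hcol x y (h ▸ hd)) (h2 d hd).le]
  rw [Finset.sum_congr rfl h9, ← Finset.sum_mul, h3] at h7
  by_contra hc
  have h10 : (N : ℝ) + 1 ≤ 3 ^ k := by exact_mod_cast not_le.1 hc
  have h11 : (1 + 1 / 3 ^ k) * ρ.G v 0 ≤ (1 + 1 / 3 ^ k) * (1 - 1 / N) :=
    mul_le_mul_of_nonneg_left h8 (by positivity)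
  have h12 : 0 ≤ ((1 + 1 / 3 ^ k) * (1 - 1 / N) + (3 ^ k - 1) * -(1 / N) : ℝ) * (N * 3 ^ k) :=
    mul_nonneg (by linarith) (by positivity)
  have h13 : ((1 + 1 / 3 ^ k) * (1 - 1 / N) + (3 ^ k - 1) * -(1 / N) : ℝ) * (N * 3 ^ k) =
      (3 ^ k + 1) * (N - 1) - (3 ^ k - 1) * 3 ^ k := by field_simp; ring
  nlinarith

end Pool.Agent.Lib.MP_843c79_co
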