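import Pool.Agent.Lib.MP_843c79_co.Singular

/-!
Bochner representation of damped continuous positive definite functions on the plane.
-/

namespace Pool.Agent.Lib.MP_843c79_co

set_option maxHeartbeats 400000

open Filter Topology MeasureTheory
open scoped RealInnerProductSpace FourierTransform Real

theorem integrable_gauss {b : ℝ} (hb : 0 < b) :
    Integrable (fun x : ℂ => Real.exp (-b * ‖x‖ ^ 2)) := by
  have h := (GaussianFourier.integrable_cexp_neg_mul_sq_norm_add (V := ℂ) (b := (b : ℂ))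
    (by simpa using hb) 0 0).norm
  refine h.congr (ae_of_all _ fun x => ?_)
  simp only [zero_mul, add_zero, Complex.norm_exp]
  congr 1
  have : (-(b : ℂ) * ((‖x‖ : ℝ) : ℂ) ^ 2) = ((-b * ‖x‖ ^ 2 : ℝ) : ℂ) := by push_cast; ring
  rw [this, Complex.ofReal_re]

theorem norm_sq_mid (x z : ℂ) :
    ‖x‖ ^ 2 + ‖x + z‖ ^ 2 = 2 * ‖x + z / 2‖ ^ 2 + ‖z‖ ^ 2 / 2 := by
  simp only [Complex.sq_norm, Complex.normSq_apply, Complex.add_re, Complex.add_im,
    Complex.div_ofNat_re, Complex.div_ofNat_im]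
  ring

theorem gauss_pos {E : Type} [NormedAddCommGroup E] [InnerProductSpace ℝ E] [CompleteSpace E]
    {u : ℂ → E} (hu : Continuous u) (hb : ∀ x, ‖u x‖ ≤ 1) {K : ℂ → ℝ}
    (hK : ∀ x z, ⟪u (x + z), u x⟫ = K z) {b : ℝ} (hb0 : 0 < b) :
    0 ≤ ∫ z, K z * Real.exp (-b * ‖z‖ ^ 2) := by
  set h : ℂ → ℝ := fun x => Real.exp (-(2 * b) * ‖x‖ ^ 2) with hh
  have hi : Integrable h := integrable_gauss (by positivity)
  have hKc : Continuous K := by
    have : K = fun z => ⟪u (0 + z), u 0⟫ := funext fun z => (hK 0 z).symm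
    rw [this]; fun_prop
  have hKb : ∀ z, ‖K z‖ ≤ 1 := fun z => by
    rw [← hK 0 z]
    exact (norm_inner_le_norm _ _).trans (mul_le_one₀ (hb _) (norm_nonneg _) (hb _))
  have hV : Integrable (fun x => h x • u x) :=
    hi.smul_bdd 1 hu.aestronglyMeasurable (ae_of_all _ hb)
  set V := ∫ x, h x • u x with hVd
  have h1 : ⟪V, V⟫ = ∫ x, ∫ z, h x * h (x + z) * K z := by
    conv_lhs => rw [hVd, ← integral_inner hV, ← hVd]
    refine integral_congr_ae (ae_of_all _ fun x => ?_)
    simp only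
    rw [real_inner_comm, hVd, ← integral_inner hV,
      ← integral_add_left_eq_self (μ := volume) _ x]
    refine integral_congr_ae (ae_of_all _ fun z => ?_)
    simp only [real_inner_smul_left, real_inner_smul_right]
    rw [real_inner_comm, hK]; ring
  have h2 : Integrable (Function.uncurry fun x z => h x * h (x + z) * K z)
      ((volume : Measure ℂ).prod volume) := by
    have h3 := (measurePreserving_prod_add (volume : Measure ℂ) volume).integrable_comp_of_integrable
      (hi.mul_prod hi)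
    exact h3.mul_bdd (c := 1) (hKc.comp continuous_snd).aestronglyMeasurable
      (ae_of_all _ fun p => hKb p.2)
  rw [integral_integral_swap h2] at h1
  set C := ∫ x : ℂ, Real.exp (-(4 * b) * ‖x‖ ^ 2) with hC
  have hC0 : 0 < C := by
    rw [hC, GaussianFourier.integral_rexp_neg_mul_sq_norm (by positivity)]; positivity
  have h4 : ∀ z, ∫ x, h x * h (x + z) * K z = C * (K z * Real.exp (-b * ‖z‖ ^ 2)) := fun z => by
    rw [hC, ← integral_add_right_eq_self (μ := volume)
      (fun x : ℂ => Real.exp (-(4 * b) * ‖x‖ ^ 2)) (z / 2), ← integral_mul_const]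
    refine integral_congr_ae (ae_of_all _ fun x => ?_)
    simp only [hh]
    rw [← Real.exp_add, mul_comm (K z), ← mul_assoc, ← Real.exp_add]
    congr 2
    have := norm_sq_mid x z
    linear_combination (-(2 * b)) * this
  simp only [h4, integral_const_mul] at h1
  have h5 : 0 ≤ ⟪V, V⟫ := real_inner_self_nonneg
  rw [h1] at h5
  by_contra hc
  nlinarith [mul_pos hC0 (neg_pos.2 (not_le.1 hc))]

theorem MRep.Cont.continuous {H : Type} [NormedAddCommGroup H] [InnerProductSpace ℝ H]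
    {ρ : MRep H} {v : H} (hv : ρ.Cont v) : Continuous fun x => ρ.T x v := by
  refine continuous_iff_continuousAt.2 fun y => ?_
  have h1 : Tendsto (fun x : ℂ => x - y) (𝓝 y) (𝓝 0) := by
    have : Continuous fun x : ℂ => x - y := by fun_prop
    simpa using this.tendsto y
  have h2 := ((ρ.T y).continuous.tendsto v).comp (Tendsto.comp hv h1)
  refine h2.congr fun x => ?_
  simp only [Function.comp]
  rw [← ρ.T_add, add_sub_cancel]

theorem cos_pos {H : Type} [NormedAddCommGroup H] [InnerProductSpace ℝ H] [CompleteSpace H]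
    {ρ : MRep H} {v : H} (hv : ρ.Cont v) (hn : ‖v‖ ≤ 1) (w : ℂ) {b : ℝ} (hb : 0 < b) :
    0 ≤ ∫ z, Real.cos (2 * π * ⟪z, w⟫) * (ρ.G v z * Real.exp (-b * ‖z‖ ^ 2)) := by
  have hc := hv.continuous
  let u : ℂ → WithLp 2 (H × H) := fun x =>
    WithLp.toLp 2 (Real.cos (2 * π * ⟪x, w⟫) • ρ.T x v, Real.sin (2 * π * ⟪x, w⟫) • ρ.T x v)
  have hK : ∀ x z, ⟪u (x + z), u x⟫ = Real.cos (2 * π * ⟪z, w⟫) * ρ.G v z := fun x z => by
    simp only [u, WithLp.prod_inner_apply, real_inner_smul_left, real_inner_smul_right,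
      ρ.inner_TT, add_sub_cancel_left, MRep.G]
    have : 2 * π * ⟪z, w⟫ = 2 * π * ⟪x + z, w⟫ - 2 * π * ⟪x, w⟫ := by
      rw [inner_add_left]; ring
    rw [this, Real.cos_sub]; ring
  have hu : Continuous u := by
    refine (WithLp.prod_continuous_toLp 2 H H).comp ?_
    fun_prop
  have hb1 : ∀ x, ‖u x‖ ≤ 1 := fun x => by
    have h1 := hK x 0
    rw [add_zero, real_inner_self_eq_norm_sq, inner_zero_left, mul_zero, Real.cos_zero,
      one_mul] at h1
    have h2 := (le_abs_self _).trans (abs_G_le (ρ := ρ) hn 0)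
    nlinarith [norm_nonneg (u x)]
  simpa only [mul_assoc] using gauss_pos hu hb1 hK hb

theorem fourier_even {f : ℂ → ℝ} (hf : Integrable f) (he : ∀ z, f (-z) = f z) (w : ℂ) :
    𝓕 (fun z => (f z : ℂ)) w = ((∫ z, Real.cos (2 * π * ⟪z, w⟫) * f z : ℝ) : ℂ) := by
  have hc : Integrable (fun z : ℂ => Real.cos (2 * π * ⟪z, w⟫) * f z) :=
    hf.bdd_mul (c := 1) (by fun_prop) (ae_of_all _ fun z => Real.abs_cos_le_one _)
  have hs : Integrable (fun z : ℂ => Real.sin (2 * π * ⟪z, w⟫) * f z) :=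
    hf.bdd_mul (c := 1) (by fun_prop) (ae_of_all _ fun z => Real.abs_sin_le_one _)
  have h0 : ∫ z : ℂ, Real.sin (2 * π * ⟪z, w⟫) * f z = 0 := by
    have := integral_neg_eq_self (fun z : ℂ => Real.sin (2 * π * ⟪z, w⟫) * f z) volume
    simp only [inner_neg_left, mul_neg, Real.sin_neg, he, neg_mul, integral_neg] at this
    linarith
  rw [Real.fourier_eq']
  have h1 : ∀ z : ℂ, Complex.exp (((-2 * π * ⟪z, w⟫ : ℝ) : ℂ) * Complex.I) • (f z : ℂ) =
      ((Real.cos (2 * π * ⟪z, w⟫) * f z : ℝ) : ℂ) -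
        Complex.I * ((Real.sin (2 * π * ⟪z, w⟫) * f z : ℝ) : ℂ) := fun z => by
    rw [Complex.exp_mul_I, smul_eq_mul, ← Complex.ofReal_cos, ← Complex.ofReal_sin,
      show -2 * π * ⟪z, w⟫ = -(2 * π * ⟪z, w⟫) by ring, Real.cos_neg, Real.sin_neg]
    push_cast; ring
  simp only [h1]
  rw [integral_sub hc.ofReal (hs.ofReal.const_mul _), integral_const_mul,
    integral_complex_ofReal, integral_complex_ofReal, h0]
  simp

/-- Bochner representation of an integrable continuous even function with nonnegative Fourier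
transform. -/
theorem exists_density {f : ℂ → ℝ} (hf : Integrable f) (hc : Continuous f)
    (he : ∀ z, f (-z) = f z) (hp : ∀ w, 0 ≤ ∫ z, Real.cos (2 * π * ⟪z, w⟫) * f z) :
    ∃ F : ℂ → ℝ, Integrable F ∧ (∀ w, 0 ≤ F w) ∧
      ∀ x, f x = ∫ w, Real.cos (2 * π * ⟪w, x⟫) * F w := by
  set F : ℂ → ℝ := fun w => ∫ z, Real.cos (2 * π * ⟪z, w⟫) * f z with hF
  have hf' : Integrable (fun z => (f z : ℂ)) := hf.ofReal
  have hc' : Continuous (fun z => (f z : ℂ)) := by fun_prop
  have h1 : 𝓕 (fun z => (f z : ℂ)) = fun w => (F w : ℂ) := funext (fourier_even hf he)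
  have hFc' : Continuous (𝓕 (fun z => (f z : ℂ))) :=
    VectorFourier.fourierIntegral_continuous Real.continuous_fourierChar
      (by exact continuous_inner) hf'
  have hFc : Continuous F := by
    rw [h1] at hFc'
    exact Complex.continuous_re.comp hFc'
  have hFb : ∀ w, ‖F w‖ ≤ ∫ z, ‖f z‖ := fun w => by
    refine norm_integral_le_of_norm_le hf.norm (ae_of_all _ fun z => ?_)
    rw [norm_mul]
    exact mul_le_of_le_one_left (norm_nonneg _) (Real.abs_cos_le_one _)
  have hA : Tendsto (fun c : ℝ => ∫ w, Real.exp (-c⁻¹ * ‖w‖ ^ 2) * F w) atTop (𝓝 (f 0)) := by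
    have h2 := (Complex.continuous_re.tendsto _).comp
      (Real.tendsto_integral_gaussian_smul' hf' (v := 0) hc'.continuousAt)
    refine h2.congr' ?_
    filter_upwards [Ioi_mem_atTop 0] with c (hc0 : 0 < c)
    have J : Integrable (fun w : ℂ => Complex.exp (- (c : ℂ)⁻¹ * ‖w‖ ^ 2 +
        2 * π * Complex.I * ⟪(0 : ℂ), w⟫)) :=
      GaussianFourier.integrable_cexp_neg_mul_sq_norm_add (by simpa) _ _
    have h3 := (VectorFourier.integral_fourierIntegral_smul_eq_flip (L := innerₗ ℂ)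
      Real.continuous_fourierChar continuous_inner J hf')
    have h4 : ∫ w : ℂ, 𝓕 (fun w : ℂ => Complex.exp (- (c : ℂ)⁻¹ * ‖w‖ ^ 2 +
        2 * π * Complex.I * ⟪(0 : ℂ), w⟫)) w • (f w : ℂ) =
        ∫ w : ℂ, Complex.exp (- (c : ℂ)⁻¹ * ‖w‖ ^ 2 + 2 * π * Complex.I * ⟪(0 : ℂ), w⟫) •
          𝓕 (fun z => (f z : ℂ)) w := by
      simpa using! h3
    have h5 : ∀ w : ℂ, Complex.exp (- (c : ℂ)⁻¹ * ‖w‖ ^ 2 + 2 * π * Complex.I * ⟪(0 : ℂ), w⟫) •
          𝓕 (fun z => (f z : ℂ)) w = ((Real.exp (-c⁻¹ * ‖w‖ ^ 2) * F w : ℝ) : ℂ) := fun w => by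
      rw [h1]; simp
    simp only [h5] at h4
    rw [integral_complex_ofReal] at h4
    simp only [Function.comp]
    rw [← Complex.ofReal_re (∫ w, Real.exp (-c⁻¹ * ‖w‖ ^ 2) * F w)]
    congr 1
    refine Eq.trans ?_ h4
    refine integral_congr_ae (ae_of_all _ fun w => ?_)
    simp only
    rw [fourier_gaussian_innerProductSpace' (by simpa), div_inv_eq_mul, div_inv_eq_mul,
      mul_right_comm (-(π : ℂ) ^ 2)]
  have hFi : Integrable F := by
    refine ⟨hFc.aestronglyMeasurable, ?_⟩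
    have h6 : ∀ w, ‖F w‖ₑ = liminf (fun n : ℕ =>
        ENNReal.ofReal (Real.exp (-((n : ℝ) + 1)⁻¹ * ‖w‖ ^ 2) * F w)) atTop := fun w => by
      rw [Real.enorm_eq_ofReal (show 0 ≤ F w from hp w)]
      refine (Tendsto.liminf_eq ?_).symm
      refine ENNReal.tendsto_ofReal ?_
      have h7 : Tendsto (fun n : ℕ => ((n : ℝ) + 1)⁻¹) atTop (𝓝 0) := by
        simpa only [one_div] using tendsto_one_div_add_atTop_nhds_zero_nat (𝕜 := ℝ)
      have h8 : Continuous fun t : ℝ => Real.exp (-t * ‖w‖ ^ 2) * F w := by fun_prop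
      simpa [Function.comp_def] using (h8.tendsto 0).comp h7
    have h9 : Tendsto (fun n : ℕ => ∫⁻ w, ENNReal.ofReal
        (Real.exp (-((n : ℝ) + 1)⁻¹ * ‖w‖ ^ 2) * F w)) atTop (𝓝 (ENNReal.ofReal (f 0))) := by
      have h10 : Tendsto (fun n : ℕ => (n : ℝ) + 1) atTop atTop :=
        tendsto_atTop_add_const_right _ _ tendsto_natCast_atTop_atTop
      refine (ENNReal.tendsto_ofReal (hA.comp h10)).congr fun n => ?_
      refine ofReal_integral_eq_lintegral_ofReal ?_ (ae_of_all _ fun w => ?_)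
      · exact (integrable_gauss (by positivity)).mul_bdd hFc.aestronglyMeasurable
          (ae_of_all _ hFb)
      · exact mul_nonneg (Real.exp_pos _).le (hp w)
    unfold HasFiniteIntegral
    simp only [h6]
    refine (lintegral_liminf_le fun n => ?_).trans_lt ?_
    · exact (Continuous.measurable (by fun_prop)).ennreal_ofReal
    · rw [h9.liminf_eq]; exact ENNReal.ofReal_lt_top
  refine ⟨F, hFi, hp, fun x => ?_⟩
  have hFe : ∀ w, F (-w) = F w := fun w => by
    simp only [hF, inner_neg_right, mul_neg, Real.cos_neg]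
  have h11 := congrFun (hc'.fourierInv_fourier_eq hf' (by rw [h1]; exact hFi.ofReal)) x
  rw [Real.fourierInv_eq_fourier_neg, h1, fourier_even hFi hFe] at h11
  simp only [inner_neg_right, mul_neg, Real.cos_neg] at h11
  exact_mod_cast h11.symm

end Pool.Agent.Lib.MP_843c79_co
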