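import Pool.Agent.Lib.MP_843c79_co.Mean

/-!
Radial positive definite functions on the discrete plane and their GNS representation.
-/

namespace Pool.Agent.Lib.MP_843c79_co

set_option maxHeartbeats 400000

open Finset
open scoped RealInnerProductSpace

/-- the unit complex number of argument `θ` -/
noncomputable def eu (θ : ℝ) : ℂ := Complex.exp (θ * Complex.I)

theorem eu_zero : eu 0 = 1 := by simp [eu]

theorem eu_add (a b : ℝ) : eu (a + b) = eu a * eu b := by
  simp [eu, add_mul, Complex.exp_add]

theorem norm_eu (a : ℝ) : ‖eu a‖ = 1 := Complex.norm_exp_ofReal_mul_I a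

theorem eu_pi : eu Real.pi = -1 := by simp [eu]

theorem eu_re (a : ℝ) : (eu a).re = Real.cos a := Complex.exp_ofReal_mul_I_re a

theorem eu_im (a : ℝ) : (eu a).im = Real.sin a := Complex.exp_ofReal_mul_I_im a

theorem eu_arg (x : ℂ) : eu x.arg * (‖x‖ : ℝ) = x := by
  rw [mul_comm]; exact Complex.norm_mul_exp_arg_mul_I x

/-- radial positive definite functions -/
structure RPD (g : ℂ → ℝ) : Prop where
  rad : ∀ θ x, g (eu θ * x) = g x
  psd : ∀ (ι : Type) [Fintype ι] (a : ι → ℝ) (x : ι → ℂ), 0 ≤ ∑ i, ∑ j, a i * a j * g (x i - x j)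

theorem RPD.neg {g : ℂ → ℝ} (hg : RPD g) (x : ℂ) : g (-x) = g x := by
  simpa [eu_pi] using hg.rad Real.pi x

/-- an orthogonal representation of the group of motions of the discrete plane -/
structure MRep (H : Type) [NormedAddCommGroup H] [InnerProductSpace ℝ H] where
  T : ℂ → H →L[ℝ] H
  R : ℝ → H →L[ℝ] H
  T_zero : ∀ v, T 0 v = v
  T_add : ∀ x y v, T (x + y) v = T x (T y v)
  inner_T : ∀ x v w, ⟪T x v, T x w⟫ = ⟪v, w⟫
  R_zero : ∀ v, R 0 v = v
  R_add : ∀ x y v, R (x + y) v = R x (R y v)
  inner_R : ∀ x v w, ⟪R x v, R x w⟫ = ⟪v, w⟫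
  R_T : ∀ θ x v, R θ (T x v) = T (eu θ * x) (R θ v)

section gns

/-- the pre-Hilbert space -/
def Pre (g : {g : ℂ → ℝ // RPD g}) : Type := (fun _ => ℂ →₀ ℝ) g

variable (g : {g : ℂ → ℝ // RPD g})

noncomputable instance : AddCommGroup (Pre g) := inferInstanceAs (AddCommGroup (ℂ →₀ ℝ))

noncomputable instance : Module ℝ (Pre g) := inferInstanceAs (Module ℝ (ℂ →₀ ℝ))

/-- the bilinear form -/
noncomputable def form (f h : ℂ →₀ ℝ) : ℝ :=
  f.sum fun x a => h.sum fun y b => a * b * g.1 (x - y)

theorem form_add (f f' h : ℂ →₀ ℝ) : form g (f + f') h = form g f h + form g f' h := by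
  unfold form
  rw [Finsupp.sum_add_index'] <;> simp [← Finsupp.sum_add, add_mul]

theorem form_smul (c : ℝ) (f h : ℂ →₀ ℝ) : form g (c • f) h = c * form g f h := by
  unfold form
  rw [Finsupp.sum_smul_index] <;> simp [Finsupp.mul_sum, ← mul_assoc]

theorem form_symm (f h : ℂ →₀ ℝ) : form g f h = form g h f := by
  unfold form
  rw [Finsupp.sum_comm]
  refine Finsupp.sum_congr fun x _ => Finsupp.sum_congr fun y _ => ?_
  rw [← g.2.neg (x - y), neg_sub, mul_comm (f y)]

theorem form_nonneg (f : ℂ →₀ ℝ) : 0 ≤ form g f f := by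
  have := g.2.psd f.support (fun i => f i) (fun i => i)
  unfold form Finsupp.sum
  rw [← Finset.sum_coe_sort]
  refine this.trans_eq (Finset.sum_congr rfl fun i _ => ?_)
  exact Finset.sum_coe_sort f.support (fun j => f i * f j * g.1 (i - j))

theorem form_map (φ : ℂ → ℂ) (hφ : ∀ x y, g.1 (φ x - φ y) = g.1 (x - y)) (f h : ℂ →₀ ℝ) :
    form g (f.mapDomain φ) (h.mapDomain φ) = form g f h := by
  unfold form
  rw [Finsupp.sum_mapDomain_index]
  · refine Finsupp.sum_congr fun x _ => ?_
    rw [Finsupp.sum_mapDomain_index]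
    · simp [hφ]
    · simp
    · intros; ring
  · simp
  · intros; simp [← Finsupp.sum_add, add_mul]

noncomputable instance preCore : PreInnerProductSpace.Core ℝ (Pre g) where
  inner f h := form g f h
  conj_inner_symm f h := by simpa using form_symm g h f
  add_left f f' h := form_add g f f' h
  smul_left f h c := form_smul g c f h
  re_inner_nonneg f := form_nonneg g f

noncomputable instance : SeminormedAddCommGroup (Pre g) :=
  InnerProductSpace.Core.toSeminormedAddCommGroup (𝕜 := ℝ)

noncomputable instance : InnerProductSpace ℝ (Pre g) := .ofCore _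

theorem inner_pre (f h : Pre g) : ⟪f, h⟫ = form g f h := rfl

/-- the operator on the pre-Hilbert space -/
noncomputable def preOp (φ : ℂ → ℂ) (hφ : ∀ x y, g.1 (φ x - φ y) = g.1 (x - y)) :
    Pre g →L[ℝ] Pre g :=
  (LinearMap.isometryOfInner (𝕜 := ℝ) (E := Pre g) (E' := Pre g) (Finsupp.lmapDomain ℝ ℝ φ)
    (form_map g φ hφ)).toContinuousLinearMap

theorem preOp_apply (φ : ℂ → ℂ) (hφ : ∀ x y, g.1 (φ x - φ y) = g.1 (x - y)) (f : Pre g) :
    preOp g φ hφ f = Finsupp.mapDomain φ f := rfl

open UniformSpace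

theorem op_inner (φ : ℂ → ℂ) (hφ : ∀ x y, g.1 (φ x - φ y) = g.1 (x - y))
    (v w : Completion (Pre g)) :
    ⟪(preOp g φ hφ).completion v, (preOp g φ hφ).completion w⟫ = ⟪v, w⟫ := by
  induction v, w using Completion.induction_on₂ with
  | hp => exact isClosed_eq (by fun_prop) (by fun_prop)
  | ih a b =>
    rw [ContinuousLinearMap.completion_apply_coe, ContinuousLinearMap.completion_apply_coe,
      Completion.inner_coe, Completion.inner_coe]
    exact form_map g φ hφ a b

theorem op_comp (φ ψ χ ω : ℂ → ℂ) (hφ hψ hχ hω) (h : ∀ x, φ (ψ x) = χ (ω x))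
    (v : Completion (Pre g)) :
    (preOp g φ hφ).completion ((preOp g ψ hψ).completion v) =
      (preOp g χ hχ).completion ((preOp g ω hω).completion v) := by
  induction v using Completion.induction_on with
  | hp => exact isClosed_eq (by fun_prop) (by fun_prop)
  | ih a =>
    simp only [ContinuousLinearMap.completion_apply_coe, preOp_apply]
    congr 1
    have e : φ ∘ ψ = χ ∘ ω := funext h
    exact (Finsupp.mapDomain_comp (f := ψ) (g := φ)).symm.trans
      (e ▸ Finsupp.mapDomain_comp (f := ω) (g := χ))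

theorem op_id (φ : ℂ → ℂ) (hφ) (h : ∀ x, φ x = x) (v : Completion (Pre g)) :
    (preOp g φ hφ).completion v = v := by
  induction v using Completion.induction_on with
  | hp => exact isClosed_eq (by fun_prop) (by fun_prop)
  | ih a =>
    simp only [ContinuousLinearMap.completion_apply_coe, preOp_apply]
    congr 1
    have e : φ = id := funext h
    rw [e]
    exact Finsupp.mapDomain_id

theorem op_comp' (φ ψ χ : ℂ → ℂ) (hφ hψ hχ) (h : ∀ x, χ x = φ (ψ x))
    (v : Completion (Pre g)) :
    (preOp g χ hχ).completion v = (preOp g φ hφ).completion ((preOp g ψ hψ).completion v) := by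
  have := op_comp g φ ψ χ id hφ hψ hχ (fun _ _ => rfl) (fun x => (h x).symm) v
  rw [op_id g id _ (fun _ => rfl)] at this
  exact this.symm

end gns

open UniformSpace in
theorem exists_rep {g : ℂ → ℝ} (hg : RPD g) : ∃ (H : Type) (_ : NormedAddCommGroup H)
    (_ : InnerProductSpace ℝ H) (_ : CompleteSpace H) (ρ : MRep H) (ξ : H),
    (∀ θ, ρ.R θ ξ = ξ) ∧ ∀ x, ⟪ρ.T x ξ, ξ⟫ = g x := by
  let G : {g : ℂ → ℝ // RPD g} := ⟨g, hg⟩
  have hT : ∀ z x y : ℂ, G.1 ((z + x) - (z + y)) = G.1 (x - y) := fun z x y => by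
    rw [add_sub_add_left_eq_sub]
  have hR : ∀ (θ : ℝ) (x y : ℂ), G.1 (eu θ * x - eu θ * y) = G.1 (x - y) := fun θ x y => by
    rw [← mul_sub]; exact hg.rad _ _
  let ρ : MRep (Completion (Pre G)) :=
    { T := fun z => (preOp G (fun x => z + x) (hT z)).completion
      R := fun θ => (preOp G (fun x => eu θ * x) (hR θ)).completion
      T_zero := fun v => op_id G _ (hT 0) (fun x => zero_add x) v
      T_add := fun x y v => op_comp' G (fun z => x + z) (fun z => y + z) (fun z => x + y + z)
        (hT x) (hT y) (hT (x + y)) (fun z => add_assoc _ _ _) v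
      inner_T := fun x v w => op_inner G _ (hT x) v w
      R_zero := fun v => op_id G _ (hR 0) (fun x => by rw [eu_zero, one_mul]) v
      R_add := fun x y v => op_comp' G (fun z => eu x * z) (fun z => eu y * z)
        (fun z => eu (x + y) * z) (hR x) (hR y) (hR (x + y))
        (fun z => by rw [eu_add, mul_assoc]) v
      inner_R := fun x v w => op_inner G _ (hR x) v w
      R_T := fun θ x v => op_comp G (fun z => eu θ * z) (fun z => x + z) (fun z => eu θ * x + z)
        (fun z => eu θ * z) (hR θ) (hT x) (hT _) (hR θ) (fun z => mul_add _ _ _) v }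
  let δ : Pre G := Finsupp.single 0 1
  refine ⟨Completion (Pre G), inferInstance, inferInstance, inferInstance, ρ, (δ : Completion (Pre G)),
    fun θ => ?_, fun x => ?_⟩
  · simp only [ρ, ContinuousLinearMap.completion_apply_coe, preOp_apply]
    congr 1
    exact Finsupp.mapDomain_single.trans (by rw [mul_zero])
  · simp only [ρ, ContinuousLinearMap.completion_apply_coe, preOp_apply]
    rw [Completion.inner_coe, inner_pre]
    have : Finsupp.mapDomain (fun z => x + z) δ = Finsupp.single x (1 : ℝ) :=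
      Finsupp.mapDomain_single.trans (by rw [add_zero])
    rw [this]
    simp [form, δ, G]

/-- the radial positive definite function attached to a colouring -/
theorem exists_rpd {N : ℕ} (hN : 0 < N) (col : ℂ → Fin N) : ∃ g, RPD g ∧ g 0 = 1 - 1 / N ∧
    ∀ d : ℝ, (∀ x y, ‖x - y‖ = d → col x ≠ col y) → 0 ≤ d → g d = -(1 / N) := by
  classical
  obtain ⟨M, hM, hinv⟩ := exists_invariant_mean ℂ
  obtain ⟨M', hM', hinv'⟩ := exists_invariant_mean ℝ
  let ind : ℂ → ℂ → ℝ := fun x y => if col x = col y then 1 else 0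
  have hind : ∀ x y, |ind x y| ≤ 1 := fun x y => by
    simp only [ind]; split_ifs <;> simp
  let g0 : ℂ → ℝ := fun x => M fun z => ind (z + x) z
  have hg0 : ∀ x, |g0 x| ≤ 1 := fun x => hM.abs_le fun z => hind _ _
  have hpsd : ∀ (ι : Type) [Fintype ι] (a : ι → ℝ) (x : ι → ℂ),
      (∑ i, a i) ^ 2 / N ≤ ∑ i, ∑ j, a i * a j * g0 (x i - x j) := by
    intro ι _ a x
    have h1 : ∀ i j, g0 (x i - x j) = M fun z => ind (z + x i) (z + x j) := by
      intro i j
      have := hinv (fun z => ind (z + (x i - x j)) z) ⟨1, fun z => hind _ _⟩ (x j)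
      simp only [g0]
      rw [← this]
      congr 1
      funext z
      congr 1
      ring
    simp only [h1, ← map_mul', ← map_sum']
    refine hM.ge (Bdd.sum _ fun i _ => Bdd.sum _ fun j _ =>
      (Bdd.const _).mul ⟨1, fun z => hind _ _⟩) fun z => ?_
    have h2 : ∑ i, ∑ j, a i * a j * ind (z + x i) (z + x j) =
        ∑ c : Fin N, (∑ i, if col (z + x i) = c then a i else 0) ^ 2 := by
      simp only [sq, Finset.sum_mul_sum]
      symm
      rw [Finset.sum_comm]
      refine Finset.sum_congr rfl fun i _ => ?_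
      rw [Finset.sum_comm]
      refine Finset.sum_congr rfl fun j _ => ?_
      rw [Finset.sum_eq_single (col (z + x j))]
      · simp only [ind, if_true]
        by_cases h : col (z + x i) = col (z + x j)
        · simp [h]
        · simp [h]
      · intro c _ hc
        simp [Ne.symm hc]
      · simp
    have h3 : ∑ i, a i = ∑ c : Fin N, ∑ i, if col (z + x i) = c then a i else 0 := by
      rw [Finset.sum_comm]; simp
    rw [h2, h3, div_le_iff₀ (by exact_mod_cast hN)]
    have := sq_sum_le_card_mul_sum_sq (s := (univ : Finset (Fin N)))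
      (f := fun c => ∑ i, if col (z + x i) = c then a i else 0)
    simpa [mul_comm] using this
  refine ⟨fun x => M' (fun θ => g0 (eu θ * x)) - 1 / N, ⟨fun θ x => ?_, fun ι _ a x => ?_⟩, ?_,
    fun d hd hd0 => ?_⟩
  · have := hinv' (fun θ => g0 (eu θ * x)) ⟨1, fun _ => hg0 _⟩ θ
    simp only [eu_add, mul_assoc] at this
    simp only [this]
  · simp only [mul_sub, Finset.sum_sub_distrib, ← map_mul', ← map_sum']
    have h1 := hM'.ge (f := fun θ => ∑ i, ∑ j, a i * a j * g0 (eu θ * x i - eu θ * x j))
      (Bdd.sum _ fun i _ => Bdd.sum _ fun j _ => (Bdd.const _).mul ⟨1, fun z => hg0 _⟩)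
      fun θ => hpsd ι a fun i => eu θ * x i
    have h2 : ∑ i, ∑ j, a i * a j * (1 / (N : ℝ)) = (∑ i, a i) ^ 2 / N := by
      rw [sq, Finset.sum_mul_sum, Finset.sum_div]
      refine Finset.sum_congr rfl fun i _ => ?_
      rw [Finset.sum_div]
      exact Finset.sum_congr rfl fun j _ => by ring
    rw [h2]
    linarith
  · have : (fun θ => g0 (eu θ * 0)) = fun _ => 1 := by
      funext θ
      simp only [g0, mul_zero, add_zero, ind, if_true, hM.one]
    simp only [this, hM'.one]
  · have : (fun θ => g0 (eu θ * d)) = fun _ => 0 := by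
      funext θ
      have : (fun z => ind (z + eu θ * d) z) = fun _ => 0 := by
        funext z
        exact if_neg (hd _ _ (by simp [norm_eu, abs_of_nonneg hd0]))
      simp only [g0, this, hM.const]
    simp only [this, hM'.const, zero_sub]

end Pool.Agent.Lib.MP_843c79_co
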