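import Pool.Agent.Lib.MP_843c79_co.LimLow

/-!
The two-scale argument: robust subfamilies avoiding a neighbourhood of the unit distance.
-/

namespace Pool.Agent.Lib.MP_843c79_co

set_option maxHeartbeats 400000

open Filter Topology Finset

/-- a square box of integer points -/
noncomputable def box (n : ℕ) : Finset (ℤ × ℤ) := Icc (-n : ℤ) n ×ˢ Icc (-n : ℤ) n

theorem card_box (n : ℕ) : ((box n).card : ℝ) = (2 * n + 1) ^ 2 := by
  have : (Icc (-n : ℤ) n).card = 2 * n + 1 := by rw [Int.card_Icc]; omega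
  rw [box, card_product, this]
  push_cast
  ring

theorem mem_box {n : ℕ} {w : ℤ × ℤ} :
    w ∈ box n ↔ (-n ≤ w.1 ∧ w.1 ≤ n) ∧ (-n ≤ w.2 ∧ w.2 ≤ n) := by
  simp [box]

/-- the grid vector -/
def gv (h : ℝ) (w : ℤ × ℤ) : ℂ := ⟨h * w.1, h * w.2⟩

theorem gv_add (h : ℝ) (w w' : ℤ × ℤ) : gv h (w + w') = gv h w + gv h w' := by
  apply Complex.ext <;> simp [gv, mul_add]

theorem norm_gv {h : ℝ} (hh : 0 < h) {n : ℕ} {w : ℤ × ℤ} (hw : w ∈ box n) :
    ‖gv h w‖ ≤ 2 * (h * n) := by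
  obtain ⟨⟨h1, h2⟩, h3, h4⟩ := mem_box.1 hw
  have h5 : |(w.1 : ℝ)| ≤ n := abs_le.2 ⟨by exact_mod_cast h1, by exact_mod_cast h2⟩
  have h6 : |(w.2 : ℝ)| ≤ n := abs_le.2 ⟨by exact_mod_cast h3, by exact_mod_cast h4⟩
  refine (Complex.norm_le_abs_re_add_abs_im _).trans ?_
  simp only [gv, abs_mul, abs_of_pos hh]
  nlinarith

theorem exists_gv {h : ℝ} (hh : 0 < h) {n : ℕ} {z : ℂ} (hz : ‖z‖ ≤ h * n) :
    ∃ w ∈ box n, ‖z - gv h w‖ ≤ 2 * h := by
  have key : ∀ a : ℝ, |a| ≤ h * n → ((-n : ℤ) ≤ ⌊a / h⌋ ∧ ⌊a / h⌋ ≤ n) ∧ |a - h * ⌊a / h⌋| ≤ h := by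
    intro a ha
    obtain ⟨h1, h2⟩ := abs_le.1 ha
    have h3 := Int.floor_le (a / h)
    have h4 := Int.lt_floor_add_one (a / h)
    rw [le_div_iff₀ hh] at h3
    rw [div_lt_iff₀ hh] at h4
    refine ⟨⟨Int.le_floor.2 ?_, ?_⟩, abs_le.2 ⟨by linarith, by linarith⟩⟩
    · rw [le_div_iff₀ hh]; push_cast; linarith
    · have : (⌊a / h⌋ : ℝ) ≤ n := by nlinarith
      exact_mod_cast this
  have h1 := key z.re ((Complex.abs_re_le_norm z).trans hz)
  have h2 := key z.im ((Complex.abs_im_le_norm z).trans hz)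
  refine ⟨(⌊z.re / h⌋, ⌊z.im / h⌋), mem_box.2 ⟨h1.1, h2.1⟩, ?_⟩
  refine (Complex.norm_le_abs_re_add_abs_im _).trans ?_
  simp only [gv, Complex.sub_re, Complex.sub_im]
  linarith [h1.2, h2.2]

theorem mul_ge_of_near {θ A B a b : ℝ} (hθ : 0 < θ) (hA : θ ≤ A) (hB : θ ≤ B) (ha : 0 ≤ a)
    (hb : 0 ≤ b) : θ ^ 2 / 4 - (A - a) ^ 2 - (B - b) ^ 2 ≤ a * b := by
  have h0 := mul_nonneg ha hb
  rcases le_total (θ / 2) a with h1 | h1
  · rcases le_total (θ / 2) b with h2 | h2
    · nlinarith [sq_nonneg (A - a), sq_nonneg (B - b), mul_le_mul h1 h2 (by linarith) ha]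
    · nlinarith [sq_nonneg (A - a)]
  · nlinarith [sq_nonneg (B - b)]

/-- the pointwise inequality for two good points -/
theorem pair_le {θ : ℝ} (hθ : 0 < θ) {n : ℕ} {A B : ℝ} {a b : ℤ × ℤ → ℝ} (hA : θ ≤ A) (hB : θ ≤ B)
    (ha : ∀ w, 0 ≤ a w) (hb : ∀ w, 0 ≤ b w)
    (hDa : ∑ w ∈ box (2 * n), (A - a w) ^ 2 ≤ θ ^ 2 / 16 * (box n).card)
    (hDb : ∑ w ∈ box (2 * n), (B - b w) ^ 2 ≤ θ ^ 2 / 16 * (box n).card) {c : ℤ × ℤ}
    (hc : c ∈ box n) : θ ^ 2 / 8 * (box n).card ≤ ∑ w ∈ box n, a w * b (c + w) := by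
  have h1 : ∑ w ∈ box n, (A - a w) ^ 2 ≤ ∑ w ∈ box (2 * n), (A - a w) ^ 2 :=
    sum_le_sum_of_subset_of_nonneg (fun w hw => by
      rw [mem_box] at hw ⊢; push_cast; omega) fun _ _ _ => sq_nonneg _
  have h2 : ∑ w ∈ box n, (B - b (c + w)) ^ 2 ≤ ∑ w ∈ box (2 * n), (B - b w) ^ 2 := by
    rw [← sum_image (s := box n) (g := fun w => c + w) (f := fun w => (B - b w) ^ 2)
      fun x _ y _ h => add_left_cancel h]
    refine sum_le_sum_of_subset_of_nonneg (fun w hw => ?_) fun _ _ _ => sq_nonneg _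
    obtain ⟨w', hw', rfl⟩ := mem_image.1 hw
    rw [mem_box] at hw' hc ⊢
    simp only [Prod.fst_add, Prod.snd_add]
    push_cast
    omega
  have h3 := sum_le_sum fun w (_ : w ∈ box n) => mul_ge_of_near hθ hA hB (ha w) (hb (c + w))
  simp only [sum_sub_distrib, sum_const, nsmul_eq_mul] at h3
  linarith

/-- robust subfamilies -/
theorem robust {δ ε : ℝ} (hδ : 0 < δ) (h : ∀ a, RB {1} a → δ ≤ a) (hε : 0 < ε) :
    ∃ s : ℝ, 0 < s ∧ ∀ (ι : Type) [Fintype ι] (c : ι → ℂ), ∃ Z : Finset ι,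
      (δ - ε) * Fintype.card ι ≤ Z.card ∧
      ∀ g ∈ Z, ∀ g' ∈ Z, ∀ z : ℂ, ‖z‖ ≤ s → ‖c g - c g' - z‖ ≠ 1 := by
  classical
  obtain ⟨S, hτ, hr, hδ'⟩ := exists_state hδ h
  obtain ⟨G, hGc, hrad, -, hGr, -, -, happ⟩ := approx S (u := ind 0) (ind_nonneg 0) (ind_le 0)
    fun θ A => by rw [hr, ind_turn]
  have hG1 : G 1 = 0 := by
    have := hGr 1 one_pos
    rw [Complex.ofReal_one] at this
    rw [this, ← S.mean.const 0]
    congr 1
    funext A
    simp only [hτ, ind_shift]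
    exact ind_mul (by simp) A
  set θ := ε / 4 with hθ
  have hθ0 : 0 < θ := by positivity
  obtain ⟨r, hr0, hr1⟩ := Metric.continuous_iff.1 hGc 0 (θ ^ 3 / 256) (by positivity)
  refine ⟨r / 5, by positivity, fun ι _ c => ?_⟩
  rcases isEmpty_or_nonempty ι with hι | hι
  · exact ⟨∅, by simp, by simp⟩
  have hN : (1 : ℝ) ≤ Fintype.card ι := by exact_mod_cast Fintype.card_pos
  set N : ℝ := (Fintype.card ι : ℝ) with hNdef
  set η := min (θ / 2) (θ ^ 3 / (512 * N)) with hη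
  have hη0 : 0 < η := by positivity
  have hη1 : η ≤ θ / 2 := min_le_left _ _
  have hη2 : η * N ≤ θ ^ 3 / 512 := by
    have := min_le_right (θ / 2) (θ ^ 3 / (512 * N))
    rw [le_div_iff₀ (by positivity)] at this
    linarith
  have hη3 : η ≤ θ ^ 3 / 512 := by nlinarith
  obtain ⟨r2, hr2, hr3⟩ := Metric.continuous_iff.1 hGc 1 η hη0
  obtain ⟨n, hn⟩ := exists_nat_gt (r / r2)
  have hn0 : (0 : ℝ) < n := lt_trans (by positivity) hn
  set hh := r / 5 / n with hhh
  have hh0 : 0 < hh := by positivity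
  have hh1 : hh * n = r / 5 := by rw [hhh]; field_simp
  have hh2 : 2 * hh < r2 := by
    rw [div_lt_iff₀ hr2] at hn
    have : hh * n < r2 / 2 * n := by nlinarith
    have := lt_of_mul_lt_mul_right this hn0.le
    linarith
  obtain ⟨f, f0, f1, hf, hff⟩ := happ η hη0
  let F : ℂ → Av {1} → ℝ := fun x A => f (S.τ x A)
  have hfb : Bdd f := ⟨1, fun A => abs_le.2 ⟨by linarith [f0 A], f1 A⟩⟩
  have hFb : ∀ x, Bdd (F x) := fun x => hfb.comp _
  have hK : (0 : ℝ) < (box n).card := by rw [card_box]; positivity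
  have hK4 : ((box (2 * n)).card : ℝ) ≤ 4 * (box n).card := by
    rw [card_box, card_box]; push_cast; nlinarith
  set K : ℝ := ((box n).card : ℝ) with hKdef
  let D : ℂ → Av {1} → ℝ := fun x A => ∑ w ∈ box (2 * n), (F x A - F (x + gv hh w) A) ^ 2
  have hsq : ∀ x y, Bdd fun A => (F x A - F y A) ^ 2 := fun x y => by
    simpa only [sq] using ((hFb x).sub (hFb y)).mul ((hFb x).sub (hFb y))
  have hDb : ∀ x, Bdd (D x) := fun x => Bdd.sum _ fun w _ => hsq _ _
  have hDE : ∀ x, S.E (fun A => D x A) ≤ θ ^ 3 / 16 * K := fun x => by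
    have h1 : ∀ w ∈ box (2 * n), S.E (fun A => (F x A - F (x + gv hh w) A) ^ 2) ≤ θ ^ 3 / 64 := by
      intro w hw
      have h2 : (fun A => (F x A - F (x + gv hh w) A) ^ 2) = fun A => (F x A * F x A +
          F (x + gv hh w) A * F (x + gv hh w) A) - 2 * (F (x + gv hh w) A * F x A) := by
        funext A; ring
      have h3 := (abs_le.1 (hff x x)).2
      have h4 := (abs_le.1 (hff (x + gv hh w) (x + gv hh w))).2
      have h5 := (abs_le.1 (hff (x + gv hh w) x)).1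
      have h6 := norm_gv hh0 hw
      have h7 := (abs_lt.1 (hr1 (gv hh w) (by
        rw [dist_zero_right]; push_cast at h6; nlinarith))).1
      rw [sub_self] at h3 h4
      rw [add_sub_cancel_left] at h5
      rw [h2, map_sub', map_add', map_mul']
      simp only [F]
      linarith
    simp only [D, map_sum']
    have h2 := sum_le_card_nsmul _ _ _ h1
    rw [nsmul_eq_mul] at h2
    nlinarith [pow_pos hθ0 3]
  let g : ℂ → Av {1} → ℝ := fun x A => if θ ≤ F x A ∧ D x A ≤ θ ^ 2 / 16 * K then 1 else 0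
  have hg0 : ∀ x A, 0 ≤ g x A := fun x A => by simp only [g]; split_ifs <;> simp
  have hg1 : ∀ x A, g x A ≤ 1 := fun x A => by simp only [g]; split_ifs <;> simp
  have hgb : ∀ x, Bdd (g x) := fun x => ⟨1, fun A => abs_le.2 ⟨by linarith [hg0 x A], hg1 x A⟩⟩
  have hgE : ∀ x, δ - 5 / 2 * θ ≤ S.E (fun A => g x A) := fun x => by
    have h1 : ∀ A, F x A ≤ (θ + g x A) + (θ ^ 2 / 16 * K)⁻¹ * D x A := fun A => by
      have h2 : 0 ≤ D x A := sum_nonneg fun w _ => sq_nonneg _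
      have h3 : 0 ≤ (θ ^ 2 / 16 * K)⁻¹ * D x A := by positivity
      have h4 : F x A ≤ 1 := f1 _
      by_cases h5 : θ ≤ F x A
      · by_cases h6 : D x A ≤ θ ^ 2 / 16 * K
        · have : g x A = 1 := if_pos ⟨h5, h6⟩
          linarith
        · have : 1 ≤ (θ ^ 2 / 16 * K)⁻¹ * D x A := by
            rw [le_inv_mul_iff₀ (by positivity)]
            linarith [not_le.1 h6]
          linarith [hg0 x A]
      · linarith [hg0 x A, not_le.1 h5]
    have h2 := S.mean.mono (hFb x) (((Bdd.const _).add (hgb x)).add ((Bdd.const _).mul (hDb x))) h1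
    rw [map_add', map_add', map_mul', S.mean.const] at h2
    have h3 : S.E (F x) = S.E f := S.inv_τ f hfb x
    have h4 := mul_le_mul_of_nonneg_left (hDE x) (by positivity : 0 ≤ (θ ^ 2 / 16 * K)⁻¹)
    have h5 : (θ ^ 2 / 16 * K)⁻¹ * (θ ^ 3 / 16 * K) = θ := by field_simp
    linarith
  have hgg : ∀ x y z : ℂ, ‖z‖ ≤ r / 5 → ‖x - y - z‖ = 1 →
      S.E (fun A => g x A * g y A) ≤ 16 * η / θ ^ 2 := by
    intro x y z hz hxy
    obtain ⟨c', hc', hc''⟩ := exists_gv hh0 (hh1 ▸ hz)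
    have h1 : ∀ A, g x A * g y A ≤ (θ ^ 2 / 8 * K)⁻¹ *
        ∑ w ∈ box n, F (x + gv hh w) A * F (y + gv hh (c' + w)) A := fun A => by
      have h2 : 0 ≤ (θ ^ 2 / 8 * K)⁻¹ *
          ∑ w ∈ box n, F (x + gv hh w) A * F (y + gv hh (c' + w)) A :=
        mul_nonneg (by positivity) (sum_nonneg fun w _ => mul_nonneg (f0 _) (f0 _))
      simp only [g]
      split_ifs with h3 h4
      · rw [le_inv_mul_iff₀ (by positivity), mul_one, mul_one]
        exact pair_le hθ0 (a := fun w => F (x + gv hh w) A) (b := fun w => F (y + gv hh w) A)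
          h3.1 h4.1 (fun w => f0 _) (fun w => f0 _) h3.2 h4.2 hc'
      all_goals simpa using h2
    have h2 := S.mean.mono ((hgb x).mul (hgb y))
      ((Bdd.const _).mul (Bdd.sum _ fun w _ => (hFb _).mul (hFb _))) h1
    rw [map_mul', map_sum'] at h2
    have h3 : G (x - y - gv hh c') ≤ η := by
      have h4 := abs_norm_sub_norm_le (x - y - gv hh c') (x - y - z)
      rw [hxy, show x - y - gv hh c' - (x - y - z) = z - gv hh c' by ring] at h4
      have h5 := (abs_lt.1 (hr3 (‖x - y - gv hh c'‖ : ℝ) (by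
        rw [← Complex.ofReal_one, Complex.dist_of_im_eq (by simp), Complex.ofReal_re,
          Complex.ofReal_re, Real.dist_eq]
        linarith))).2
      rw [hrad _ (‖x - y - gv hh c'‖ : ℝ) (by simp)]
      linarith
    have h4 : ∀ w ∈ box n, S.E (fun A => F (x + gv hh w) A * F (y + gv hh (c' + w)) A) ≤ 2 * η := by
      intro w _
      have h5 := (abs_le.1 (hff (x + gv hh w) (y + gv hh (c' + w)))).2
      rw [gv_add, show x + gv hh w - (y + (gv hh c' + gv hh w)) = x - y - gv hh c' by ring,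
        ← gv_add] at h5
      simp only [F]
      linarith
    have h5 := sum_le_card_nsmul _ _ _ h4
    rw [nsmul_eq_mul] at h5
    refine h2.trans ((mul_le_mul_of_nonneg_left h5 (by positivity)).trans_eq ?_)
    rw [← hKdef]
    field_simp
    ring
  let bad : ι → ι → Prop := fun i j => ∃ z : ℂ, ‖z‖ ≤ r / 5 ∧ ‖c i - c j - z‖ = 1
  let Z : Av {1} → Finset ι := fun A =>
    univ.filter fun i => g (c i) A = 1 ∧ ∀ j, g (c j) A = 1 → ¬ bad i j
  by_contra hcon
  have h1 : ∀ A, ((Z A).card : ℝ) ≤ (δ - ε) * N := fun A => by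
    by_contra h2
    refine hcon ⟨Z A, (not_le.1 h2).le, fun i hi j hj z hz hij => ?_⟩
    exact (mem_filter.1 hi).2.2 j (mem_filter.1 hj).2.1 ⟨z, hz, hij⟩
  have h2 : ∀ A, ∑ i, g (c i) A ≤ (δ - ε) * N +
      ∑ i, ∑ j, (if bad i j then 1 else 0) * (g (c i) A * g (c j) A) := fun A => by
    have h3 : ∀ i, g (c i) A ≤ (if i ∈ Z A then 1 else 0) +
        ∑ j, (if bad i j then 1 else 0) * (g (c i) A * g (c j) A) := fun i => by
      have h4 : ∀ j, 0 ≤ (if bad i j then (1 : ℝ) else 0) * (g (c i) A * g (c j) A) := fun j =>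
        mul_nonneg (by split_ifs <;> simp) (mul_nonneg (hg0 _ _) (hg0 _ _))
      have h5 := sum_nonneg fun j (_ : j ∈ univ) => h4 j
      by_cases hi : i ∈ Z A
      · rw [if_pos hi]; linarith [hg1 (c i) A]
      · rw [if_neg hi, zero_add]
        by_cases h6 : g (c i) A = 1
        · have h7 : ¬ ∀ j, g (c j) A = 1 → ¬ bad i j := fun h7 =>
            hi (mem_filter.2 ⟨mem_univ _, h6, h7⟩)
          push Not at h7
          obtain ⟨j, hj, hj'⟩ := h7
          have h8 := single_le_sum (fun j _ => h4 j) (mem_univ j)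
          simp only [if_pos hj', hj, h6, mul_one] at h8
          simp only [h6]
          simpa only [one_mul] using h8
        · have h7 : g (c i) A = 0 := by
            simp only [g] at h6 ⊢
            split_ifs with h8
            · exact absurd (if_pos h8) h6
            · rfl
          linarith
    have h4 := sum_le_sum fun i (_ : i ∈ univ) => h3 i
    have h5 : ∑ i, (if i ∈ Z A then (1 : ℝ) else 0) = (Z A).card := by
      rw [sum_boole]
      congr 2
      ext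
      simp only [mem_filter, mem_univ, true_and]
    rw [sum_add_distrib, h5] at h4
    linarith [h1 A]
  have h3 := S.mean.mono (Bdd.sum _ fun i _ => hgb (c i)) ((Bdd.const _).add
    (Bdd.sum _ fun i _ => Bdd.sum _ fun j _ => (Bdd.const _).mul ((hgb _).mul (hgb _)))) h2
  rw [map_add', S.mean.const] at h3
  simp only [map_sum', map_mul'] at h3
  have h4 := card_nsmul_le_sum univ _ _ fun i _ => hgE (c i)
  have h5 : ∑ i, ∑ j, (if bad i j then 1 else 0) * S.E (fun A => g (c i) A * g (c j) A) ≤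
      ∑ _i : ι, ∑ _j : ι, 16 * η / θ ^ 2 := sum_le_sum fun i _ => sum_le_sum fun j _ => by
    split_ifs with h6
    · obtain ⟨z, hz, hz'⟩ := h6
      rw [one_mul]
      exact hgg _ _ z hz hz'
    · rw [zero_mul]; positivity
  simp only [sum_const, card_univ, nsmul_eq_mul, ← hNdef] at h4 h5
  have h6 : N * (16 * η / θ ^ 2) ≤ θ := by
    rw [← mul_div_assoc, div_le_iff₀ (by positivity)]
    nlinarith [pow_pos hθ0 3]
  have h7 : ε = 4 * θ := by rw [hθ]; ring
  rw [h7] at h3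
  nlinarith

end Pool.Agent.Lib.MP_843c79_co
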