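import Pool.Agent.Lib.MP_843c79_co.LimRep

/-!
The product inequality for a rapidly growing new distance and the lower bound.
-/

namespace Pool.Agent.Lib.MP_843c79_co

set_option maxHeartbeats 400000

open Filter Topology Finset
open scoped Real

theorem J_lip (a b : ℝ) : |J a - J b| ≤ 2 * π * |a - b| := by
  have h1 : ∀ c : ℝ, IntervalIntegrable (fun θ => Real.cos (2 * π * c * Real.cos θ))
      MeasureTheory.volume 0 π := fun c => Continuous.intervalIntegrable (by fun_prop) _ _
  rw [J, J, ← sub_div, ← intervalIntegral.integral_sub (h1 a) (h1 b), abs_div,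
    abs_of_pos Real.pi_pos, div_le_iff₀ Real.pi_pos]
  have := intervalIntegral.norm_integral_le_of_norm_le_const (a := 0) (b := π)
    (C := 2 * π * |a - b|)
    (f := fun θ => Real.cos (2 * π * a * Real.cos θ) - Real.cos (2 * π * b * Real.cos θ))
    fun θ _ => by
      refine (Real.abs_cos_sub_cos_le _ _).trans ?_
      rw [← sub_mul, ← mul_sub, abs_mul, abs_mul, abs_of_pos (by positivity : 0 < 2 * π)]
      exact mul_le_of_le_one_right (by positivity) (Real.abs_cos_le_one _)
  simpa [abs_of_pos Real.pi_pos] using this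

theorem J_close {C η : ℝ} (hC : 0 ≤ C) (hη : 0 < η) : ∃ t0 : ℝ, ∀ t, t0 ≤ t → ∀ r, |r - t| ≤ C →
    ∀ s, 0 ≤ s → J (s * r) ≤ J (s * t) + η := by
  obtain ⟨M, hM⟩ := Metric.tendsto_atTop.1 J_tendsto (η / 2) (by positivity)
  simp only [Real.dist_eq, sub_zero] at hM
  have hp := Real.pi_pos
  set s0 := η / (2 * π * (C + 1)) with hs0
  have hs : 0 < s0 := by positivity
  refine ⟨C + max M 0 / s0, fun t ht r hr s h0 => ?_⟩
  rcases le_total s s0 with h | h
  · have h1 := (le_abs_self _).trans (J_lip (s * r) (s * t))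
    rw [← mul_sub, abs_mul, abs_of_nonneg h0] at h1
    have h2 : s * |r - t| ≤ s0 * (C + 1) :=
      mul_le_mul h (by linarith) (abs_nonneg _) hs.le
    have h3 : 2 * π * (s0 * (C + 1)) = η := by rw [hs0]; field_simp
    nlinarith
  · have h1 : ∀ x, max M 0 / s0 ≤ x → M ≤ s * x := fun x hx => by
      have h2 : 0 ≤ x := le_trans (by positivity) hx
      rw [div_le_iff₀ hs] at hx
      nlinarith [le_max_left M 0]
    have h2 := abs_lt.1 (hM _ (h1 r (by linarith [(abs_le.1 hr).1])))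
    have h3 := abs_lt.1 (hM _ (h1 t (by linarith)))
    linarith

theorem RB.nonneg {D : Set ℝ} {a : ℝ} (h : RB D a) : 0 ≤ a := by
  obtain ⟨ι, _, _, p, hp⟩ := h
  have h1 := (Finset.sum_nonneg fun i _ => ind_nonneg (p i) _).trans (hp ⟨∅, by simp⟩)
  have h2 : (0 : ℝ) < Fintype.card ι := by exact_mod_cast Fintype.card_pos
  exact nonneg_of_mul_nonneg_right h1 h2 |> fun h => by nlinarith

/-- a field which is nearly orthogonal along the edges of a configuration has small sum -/
theorem field_le {κ : Type} [Fintype κ] {q : κ → ℂ} {a b θ : ℝ} (ha : 0 ≤ a) (hθ : 0 < θ)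
    (hq : ∀ A : Av {1}, ∑ k, ind (q k) A ≤ Fintype.card κ * b) {ψ : κ → ℝ} (h0 : ∀ k, 0 ≤ ψ k)
    (h1 : ∀ k, ψ k ≤ a) : ∑ k, ψ k ≤ Fintype.card κ * (θ + a * b) +
      a / θ ^ 2 * ∑ k, ∑ l, (if ‖q k - q l‖ = 1 then 1 else 0) * (ψ k * ψ l) := by
  classical
  let A : Av {1} := ⟨{z | ∃ k, q k = z ∧ θ < ψ k ∧ ∀ l, θ < ψ l → ‖q k - q l‖ ≠ 1}, by
    rintro _ ⟨k, rfl, -, hk⟩ _ ⟨l, rfl, hl, -⟩
    exact hk l hl⟩
  have h2 : ∀ k, ψ k ≤ θ + a * ind (q k) A +
      a / θ ^ 2 * ∑ l, (if ‖q k - q l‖ = 1 then 1 else 0) * (ψ k * ψ l) := fun k => by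
    have h3 : ∀ l, 0 ≤ (if ‖q k - q l‖ = 1 then (1 : ℝ) else 0) * (ψ k * ψ l) := fun l =>
      mul_nonneg (by split_ifs <;> simp) (mul_nonneg (h0 k) (h0 l))
    have h4 : 0 ≤ a / θ ^ 2 * ∑ l, (if ‖q k - q l‖ = 1 then (1 : ℝ) else 0) * (ψ k * ψ l) :=
      mul_nonneg (by positivity) (Finset.sum_nonneg fun l _ => h3 l)
    have h5 := mul_nonneg ha (ind_nonneg (q k) A)
    by_cases hk : θ < ψ k
    · by_cases hl : ∀ l, θ < ψ l → ‖q k - q l‖ ≠ 1
      · have h6 : ind (q k) A = 1 := if_pos ⟨k, rfl, hk, hl⟩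
        rw [h6]
        linarith [h1 k]
      · push Not at hl
        obtain ⟨l, hl, hl'⟩ := hl
        have h6 := Finset.single_le_sum (fun l _ => h3 l) (Finset.mem_univ l)
        simp only [hl', if_true, one_mul] at h6
        have h7 : θ ^ 2 ≤ ψ k * ψ l := by nlinarith
        have h8 := mul_le_mul_of_nonneg_left (h7.trans h6) (by positivity : 0 ≤ a / θ ^ 2)
        rw [div_mul_cancel₀ _ (by positivity)] at h8
        linarith [h1 k]
    · linarith [not_lt.1 hk]
  refine (Finset.sum_le_sum fun k _ => h2 k).trans ?_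
  simp only [Finset.sum_add_distrib, ← Finset.mul_sum, Finset.sum_const, Finset.card_univ,
    nsmul_eq_mul]
  nlinarith [mul_le_mul_of_nonneg_left (hq A) ha]

/-- the product inequality -/
theorem RB.prod {D : Set ℝ} {a b ε : ℝ} (ha : RB D a) (hb : RB {1} b) (hε : 0 < ε) :
    ∃ t0 : ℝ, ∀ t, t0 < t → RB (insert t D) (a * b + ε) := by
  classical
  have ha0 := ha.nonneg
  have hb0 := hb.nonneg
  obtain ⟨ι, _, _, p, hp⟩ := ha
  obtain ⟨κ, _, _, q, hq⟩ := hb
  have hι : (0 : ℝ) < Fintype.card ι := by exact_mod_cast Fintype.card_pos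
  have hκ : (0 : ℝ) < Fintype.card κ := by exact_mod_cast Fintype.card_pos
  obtain ⟨C, hC⟩ := (Set.finite_range fun z : ι × ι => ‖p z.1 - p z.2‖).bddAbove
  have hC' : ∀ i j, ‖p i - p j‖ ≤ C := fun i j => hC ⟨(i, j), rfl⟩
  have hC0 : 0 ≤ C := (norm_nonneg _).trans (hC' (Classical.arbitrary ι) (Classical.arbitrary ι))
  set θ := ε / 4 with hθ
  have hθ0 : 0 < θ := by positivity
  set η := θ ^ 3 / ((a + 1) * Fintype.card κ) with hη
  have hη0 : 0 < η := by positivity
  obtain ⟨t0, ht0⟩ := J_close hC0 hη0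
  refine ⟨max t0 C, fun t ht => ?_⟩
  have ht1 : t0 ≤ t := (le_max_left _ _).trans ht.le
  have ht2 : C < t := (le_max_right _ _).trans_lt ht
  have ht3 : 0 < t := hC0.trans_lt ht2
  by_contra hcon
  obtain ⟨S, hτ, hr, hδ⟩ := exists_state (D := insert t D) (δ := a * b + ε) (by positivity)
    fun c hc => not_lt.1 fun h => hcon (hc.mono h.le)
  obtain ⟨G, -, hrad, hG0, hGr, hGx, hLP, -⟩ := approx S (u := ind 0) (ind_nonneg 0) (ind_le 0)
    fun θ A => by rw [hr, ind_turn]
  simp only [hτ, ind_shift, zero_add] at hGr hGx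
  have hGt : G t = 0 := by
    rw [hGr t ht3, ← S.mean.const 0]
    congr 1
    funext A
    exact ind_mul (by simp [abs_of_pos ht3]) A
  have hsmall : ∀ y z : ℂ, |‖y - z‖ - t| ≤ C → S.E (fun A => ind y A * ind z A) ≤ η := by
    intro y z h
    have h1 : 0 < ‖y - z‖ := by linarith [(abs_le.1 h).1]
    have h2 := S.inv_τ (fun A => ind (y - z) A * ind 0 A) ((ind_bdd _).mul (ind_bdd _)) z
    simp only [hτ, ind_shift, sub_add_cancel, zero_add] at h2
    rw [h2, ← hGx _ (norm_pos_iff.1 h1), hrad (y - z) (‖y - z‖ : ℝ) (by simp)]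
    set r := ‖y - z‖
    by_cases hrt : r = t
    · rw [hrt, hGt]; exact hη0.le
    · have h3 := hLP {r, t} (fun d => if d = r then -1 else 1) η fun s hs => by
        rw [Finset.sum_pair hrt, if_pos rfl, if_neg (Ne.symm hrt)]
        linarith [ht0 t ht1 r h s hs]
      rw [Finset.sum_pair hrt, if_pos rfl, if_neg (Ne.symm hrt), hGt] at h3
      nlinarith
  let ψ : κ → Av (insert t D) → ℝ := fun k A => (Fintype.card ι : ℝ)⁻¹ * ∑ i, ind (p i + t * q k) A
  have hψ0 : ∀ k A, 0 ≤ ψ k A := fun k A =>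
    mul_nonneg (by positivity) (Finset.sum_nonneg fun i _ => ind_nonneg _ _)
  have hψ1 : ∀ k A, ψ k A ≤ a := fun k A => by
    have h1 := hp ⟨(shift (t * q k) A).1, fun x hx y hy h =>
      (shift (t * q k) A).2 x hx y hy (Set.mem_insert_of_mem _ h)⟩
    rw [inv_mul_le_iff₀ hι]
    exact h1
  have hψb : ∀ k, Bdd (ψ k) := fun k => ⟨a, fun A => abs_le.2 ⟨by linarith [hψ0 k A], hψ1 k A⟩⟩
  have hE : ∀ y, S.E (fun A => ind y A) = S.E (ind 0) := fun y => by
    have := S.inv_τ (ind 0) (ind_bdd 0) y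
    simpa only [hτ, ind_shift, zero_add] using this
  have hψE : ∀ k, S.E (fun A => ψ k A) = S.E (ind 0) := fun k => by
    simp only [ψ, map_mul', map_sum', hE, Finset.sum_const, Finset.card_univ, nsmul_eq_mul]
    field_simp
  have hψψ : ∀ k l, S.E (fun A => (if ‖q k - q l‖ = 1 then 1 else 0) * (ψ k A * ψ l A)) ≤ η := by
    intro k l
    rw [map_mul']
    split_ifs with h
    · have h1 : (fun A => ψ k A * ψ l A) = fun A => ((Fintype.card ι : ℝ)⁻¹) ^ 2 *
          ∑ i, ∑ j, ind (p i + t * q k) A * ind (p j + t * q l) A := by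
        funext A
        rw [← Finset.sum_mul_sum]
        simp only [ψ]
        ring
      rw [h1, one_mul, map_mul']
      simp only [map_sum']
      have h2 : ∑ i, ∑ j, S.E (fun A => ind (p i + t * q k) A * ind (p j + t * q l) A) ≤
          ∑ _i : ι, ∑ _j : ι, η := Finset.sum_le_sum fun i _ => Finset.sum_le_sum fun j _ =>
        hsmall _ _ (by
          have h3 : ‖(t : ℂ) * (q k - q l)‖ = t := by simp [h, abs_of_pos ht3]
          have h4 := abs_norm_sub_norm_le (p i + t * q k - (p j + t * q l)) (t * (q k - q l))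
          rw [h3, show p i + t * q k - (p j + t * q l) - t * (q k - q l) = p i - p j by ring] at h4
          exact h4.trans (hC' i j))
      simp only [Finset.sum_const, Finset.card_univ, nsmul_eq_mul] at h2
      refine (mul_le_mul_of_nonneg_left h2 (by positivity)).trans_eq ?_
      field_simp
    · simpa using hη0.le
  have h5 := S.mean.mono (Bdd.sum _ fun k _ => hψb k) ((Bdd.const _).add ((Bdd.const _).mul
    (Bdd.sum _ fun k _ => Bdd.sum _ fun l _ => (Bdd.const _).mul ((hψb k).mul (hψb l)))))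
    fun A => field_le ha0 hθ0 hq (fun k => hψ0 k A) fun k => hψ1 k A
  rw [map_add', map_mul', S.mean.const, map_mul'] at h5
  simp only [map_sum', hψE, Finset.sum_const, Finset.card_univ, nsmul_eq_mul] at h5
  have h6 : ∑ k, ∑ l, S.E (fun A => (if ‖q k - q l‖ = 1 then 1 else 0) * (ψ k A * ψ l A)) ≤
      ∑ _k : κ, ∑ _l : κ, η := Finset.sum_le_sum fun k _ => Finset.sum_le_sum fun l _ => hψψ k l
  simp only [Finset.sum_const, Finset.card_univ, nsmul_eq_mul] at h6
  have h7 := mul_le_mul_of_nonneg_left h6 (by positivity : 0 ≤ a / θ ^ 2)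
  have h8 : a / θ ^ 2 * (Fintype.card κ * (Fintype.card κ * η)) =
      Fintype.card κ * (θ * (a / (a + 1))) := by
    rw [hη]; field_simp
  have h9 : a / (a + 1) ≤ 1 := by rw [div_le_one (by positivity)]; linarith
  have h10 : θ * (a / (a + 1)) ≤ θ := mul_le_of_le_one_right hθ0.le h9
  have h11 : (Fintype.card κ : ℝ) * S.E (ind 0) ≤ Fintype.card κ * (θ + a * b + θ) := by
    nlinarith
  have h12 := le_of_mul_le_mul_left h11 hκ
  linarith

theorem exists_RB_pow {b : ℝ} (hb : RB {1} b) (k : ℕ) : ∀ ε : ℝ, 0 < ε → ∃ H : Finset ℝ,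
    H.card = k ∧ (∀ d ∈ H, 0 < d) ∧ RB H (b ^ k + ε) := by
  classical
  have hb0 := hb.nonneg
  induction k with
  | zero =>
    exact fun ε hε => ⟨∅, rfl, by simp, Unit, inferInstance, inferInstance, fun _ => 0, fun A => by
      simp; linarith [ind_le 0 A]⟩
  | succ k ih =>
    intro ε hε
    obtain ⟨H, h1, h2, h3⟩ := ih (ε / (2 * (b + 1))) (by positivity)
    obtain ⟨t0, ht0⟩ := h3.prod hb (half_pos hε)
    obtain ⟨B, hB⟩ := H.bddAbove
    set t := max (max B 0) t0 + 1 with ht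
    have hD1 : B < t := by linarith [le_max_left B 0, le_max_left (max B 0) t0]
    have hD2 : 0 < t := by linarith [le_max_right B 0, le_max_left (max B 0) t0]
    have hD3 : t0 < t := by linarith [le_max_right (max B 0) t0]
    have hDS : t ∉ H := fun h => absurd (hB h) (not_le.2 hD1)
    refine ⟨insert t H, by rw [Finset.card_insert_of_notMem hDS, h1], fun d hd => ?_, ?_⟩
    · rcases Finset.mem_insert.1 hd with rfl | hd
      exacts [hD2, h2 d hd]
    · rw [Finset.coe_insert]
      refine (ht0 t hD3).mono ?_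
      have h4 : ε / (2 * (b + 1)) * b ≤ ε / 2 := by
        rw [div_mul_eq_mul_div, div_le_div_iff₀ (by positivity) (by positivity)]
        nlinarith
      rw [pow_succ]
      nlinarith

/-- a configuration with small ratio forces many colours -/
theorem RB.colours {D : Set ℝ} {a : ℝ} (h : RB D a) {γ : Type} [Fintype γ] (col : ℂ → γ)
    (hcol : ∀ x y, ‖x - y‖ ∈ D → col x ≠ col y) : 1 ≤ Fintype.card γ * a := by
  classical
  obtain ⟨ι, _, _, p, hp⟩ := h
  have hι : (0 : ℝ) < Fintype.card ι := by exact_mod_cast Fintype.card_pos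
  let A : γ → Av D := fun c => ⟨{z | col z = c}, fun x hx y hy h => hcol x y h (hx.trans hy.symm)⟩
  have h1 := Finset.sum_le_sum fun c (_ : c ∈ Finset.univ) => hp (A c)
  rw [Finset.sum_comm] at h1
  have h2 : ∀ i, ∑ c, ind (p i) (A c) = 1 := fun i => by
    simp [ind, A]
  simp only [h2, Finset.sum_const, Finset.card_univ, nsmul_eq_mul] at h1
  nlinarith

end Pool.Agent.Lib.MP_843c79_co
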