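import Pool.Agent.Lib.MP_843c79_co.LimState

/-!
The Hilbert space of an invariant state; the continuous part of an indicator is approximated by
functions with values in the unit interval.
-/

namespace Pool.Agent.Lib.MP_843c79_co

set_option maxHeartbeats 400000

open Filter Topology Finset UniformSpace
open scoped RealInnerProductSpace

/-- the projection on the continuous vectors -/
theorem exists_proj {H : Type} [NormedAddCommGroup H] [InnerProductSpace ℝ H] [CompleteSpace H]
    {ρ : MRep H} {ξ : H} (hrad : ∀ θ, ρ.R θ ξ = ξ) (hn : ‖ξ‖ ≤ 1) :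
    ∃ v : H, ρ.Cont v ∧ (∀ θ, ρ.R θ v = v) ∧ ‖v‖ ≤ ‖ξ‖ ∧ (∀ r : ℝ, 0 < r → ρ.G v r = ρ.G ξ r) ∧
      ∀ w, ρ.Cont w → ⟪ξ - v, w⟫ = 0 := by
  let K : Submodule ℝ H :=
    { carrier := {v | ρ.Cont v}
      add_mem' := fun {a b} ha hb => by
        simpa [MRep.Cont] using Tendsto.add ha hb
      zero_mem' := by simp [MRep.Cont]
      smul_mem' := fun c a ha => by
        simpa [MRep.Cont] using Tendsto.const_smul ha c }
  have hK : IsClosed (K : Set H) := by
    refine isClosed_of_closure_subset fun v hv => ?_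
    change Tendsto _ _ _
    rw [Metric.tendsto_nhds]
    intro e he
    obtain ⟨w, hw, hd⟩ := Metric.mem_closure_iff.1 hv (e / 3) (by positivity)
    filter_upwards [Metric.tendsto_nhds.1 hw (e / 3) (by positivity)] with x hx
    have h1 : dist (ρ.T x v) (ρ.T x w) = dist v w := by
      rw [dist_eq_norm, ← map_sub, ρ.norm_T, dist_eq_norm]
    have h2 := dist_triangle4 (ρ.T x v) (ρ.T x w) w v
    rw [dist_comm w v] at h2
    linarith
  have : CompleteSpace K := hK.completeSpace_coe
  have hT : ∀ x, ∀ v ∈ K, ρ.T x v ∈ K := by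
    intro x v hv
    change Tendsto _ _ _
    simp only [ρ.T_comm _ x]
    exact ((ρ.T x).continuous.tendsto _).comp hv
  have hR : ∀ θ, ∀ v ∈ K, ρ.R θ v ∈ K := by
    intro θ v hv
    change Tendsto _ _ _
    have e : ∀ x, ρ.T x (ρ.R θ v) = ρ.R θ (ρ.T (eu (-θ) * x) v) := fun x => by
      rw [ρ.R_T, ← mul_assoc, ← eu_add, add_neg_cancel, eu_zero, one_mul]
    simp only [e]
    refine ((ρ.R θ).continuous.tendsto _).comp (Tendsto.comp hv ?_)
    simpa using (continuous_const_mul (eu (-θ))).tendsto (0 : ℂ)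
  set v := K.starProjection ξ with hv
  have hvK : v ∈ K := K.starProjection_apply_mem ξ
  have horth : ∀ w ∈ K, ⟪ξ - v, w⟫ = 0 := fun w hw => K.starProjection_inner_eq_zero ξ w hw
  have hvR : ∀ θ, ρ.R θ v = v := by
    intro θ
    refine (K.eq_starProjection_of_mem_of_inner_eq_zero (hR θ v hvK) fun w hw => ?_).symm
    have := horth _ (hR (-θ) w hw)
    rwa [← ρ.inner_R θ, ← ρ.R_add, add_neg_cancel, ρ.R_zero, map_sub, hrad] at this
  have hs : Sing ρ (ξ - v) := ⟨fun θ => by rw [map_sub, hrad, hvR], by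
    have := Kᗮ.norm_starProjection_apply_le ξ
    rw [Submodule.starProjection_orthogonal_val] at this
    exact this.trans hn, horth⟩
  refine ⟨v, hvK, hvR, K.norm_starProjection_apply_le ξ, fun r hr => ?_, horth⟩
  have h1 := nugget hs hr
  have e : ξ = v + (ξ - v) := by abel
  have h2 : ⟪ρ.T r v, ξ - v⟫ = 0 := by rw [real_inner_comm]; exact horth _ (hT _ _ hvK)
  have h3 : ⟪ρ.T r (ξ - v), v⟫ = 0 := by
    have := horth _ (hT (-r) _ hvK)
    rwa [ρ.inner_T_right, neg_neg] at this
  simp only [MRep.G] at h1 ⊢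
  conv_rhs => rw [e, map_add, inner_add_left, inner_add_right, inner_add_right, h1, h2, h3]
  ring

section rep

variable {Ω : Type}

/-- bounded functions with the inner product given by the state -/
def PB (S : St Ω) : Type := (fun _ => bddSub Ω) S

variable (S : St Ω)

noncomputable instance : AddCommGroup (PB S) := inferInstanceAs (AddCommGroup (bddSub Ω))

noncomputable instance : Module ℝ (PB S) := inferInstanceAs (Module ℝ (bddSub Ω))

/-- the underlying function -/
def PB.fn {S : St Ω} (f : PB S) : Ω → ℝ := Subtype.val f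

theorem PB.bdd {S : St Ω} (f : PB S) : Bdd f.fn := Subtype.property f

/-- a bounded function as a vector -/
def PB.mk {f : Ω → ℝ} (hf : Bdd f) : PB S := Subtype.mk f hf

noncomputable instance pbCore : PreInnerProductSpace.Core ℝ (PB S) where
  inner f h := S.E fun ω => f.fn ω * h.fn ω
  conj_inner_symm f h := by simp only [conj_trivial, mul_comm]
  add_left f f' h := by
    change S.E (fun ω => (f.fn ω + f'.fn ω) * h.fn ω) = _
    simp only [add_mul, map_add']
  smul_left f h c := by
    change S.E (fun ω => (c * f.fn ω) * h.fn ω) = _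
    simp only [mul_assoc, map_mul', conj_trivial]
  re_inner_nonneg f := S.mean.ge (f.bdd.mul f.bdd) fun ω => mul_self_nonneg _

noncomputable instance : SeminormedAddCommGroup (PB S) :=
  InnerProductSpace.Core.toSeminormedAddCommGroup (𝕜 := ℝ)

noncomputable instance : InnerProductSpace ℝ (PB S) := .ofCore _

theorem inner_pb (f h : PB S) : ⟪f, h⟫ = S.E fun ω => f.fn ω * h.fn ω := rfl

/-- composition with an invariant map -/
noncomputable def pbOp (φ : Ω → Ω) (hφ : ∀ f, Bdd f → S.E (fun ω => f (φ ω)) = S.E f) :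
    PB S →L[ℝ] PB S :=
  (LinearMap.isometryOfInner (𝕜 := ℝ) (E := PB S) (E' := PB S)
    { toFun := fun f => PB.mk S (f.bdd.comp φ)
      map_add' := fun _ _ => rfl
      map_smul' := fun _ _ => rfl }
    (fun f h => hφ (fun ω => f.fn ω * h.fn ω) (f.bdd.mul h.bdd))).toContinuousLinearMap

theorem pbOp_apply (φ : Ω → Ω) (hφ) (f : PB S) : pbOp S φ hφ f = PB.mk S (f.bdd.comp φ) := rfl

theorem pb_inner (φ : Ω → Ω) (hφ) (v w : Completion (PB S)) :
    ⟪(pbOp S φ hφ).completion v, (pbOp S φ hφ).completion w⟫ = ⟪v, w⟫ := by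
  induction v, w using Completion.induction_on₂ with
  | hp => exact isClosed_eq (by fun_prop) (by fun_prop)
  | ih a b =>
    rw [ContinuousLinearMap.completion_apply_coe, ContinuousLinearMap.completion_apply_coe,
      Completion.inner_coe, Completion.inner_coe]
    exact hφ (fun ω => a.fn ω * b.fn ω) (a.bdd.mul b.bdd)

theorem pb_comp (φ ψ χ κ : Ω → Ω) (hφ hψ hχ hκ) (h : ∀ x, ψ (φ x) = κ (χ x))
    (v : Completion (PB S)) :
    (pbOp S φ hφ).completion ((pbOp S ψ hψ).completion v) =
      (pbOp S χ hχ).completion ((pbOp S κ hκ).completion v) := by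
  induction v using Completion.induction_on with
  | hp => exact isClosed_eq (by fun_prop) (by fun_prop)
  | ih a =>
    simp only [ContinuousLinearMap.completion_apply_coe]
    congr 1
    exact Subtype.ext (funext fun x => congrArg a.fn (h x))

theorem pb_id (φ : Ω → Ω) (hφ) (h : ∀ x, φ x = x) (v : Completion (PB S)) :
    (pbOp S φ hφ).completion v = v := by
  induction v using Completion.induction_on with
  | hp => exact isClosed_eq (by fun_prop) (by fun_prop)
  | ih a =>
    simp only [ContinuousLinearMap.completion_apply_coe]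
    congr 1
    exact Subtype.ext (funext fun x => congrArg a.fn (h x))

theorem pb_comp' (φ ψ χ : Ω → Ω) (hφ hψ hχ) (h : ∀ x, χ x = ψ (φ x)) (v : Completion (PB S)) :
    (pbOp S χ hχ).completion v = (pbOp S φ hφ).completion ((pbOp S ψ hψ).completion v) := by
  have := pb_comp S φ ψ χ id hφ hψ hχ (fun _ _ => rfl) (fun x => (h x).symm) v
  rw [pb_id S id _ (fun _ => rfl)] at this
  exact this.symm

/-- the representation of the motions on the completion -/
noncomputable def St.rep : MRep (Completion (PB S)) where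
  T x := (pbOp S (S.τ x) fun f hf => S.inv_τ f hf x).completion
  R θ := (pbOp S (S.r θ) fun f hf => S.inv_r f hf θ).completion
  T_zero v := pb_id S _ _ S.τ_zero v
  T_add x y v := pb_comp' S _ _ _ _ _ _ (S.τ_add x y) v
  inner_T _ v w := pb_inner S _ _ v w
  R_zero v := pb_id S _ _ S.r_zero v
  R_add x y v := pb_comp' S _ _ _ _ _ _ (S.r_add x y) v
  inner_R _ v w := pb_inner S _ _ v w
  R_T θ x v := pb_comp S _ _ _ _ _ _ _ _ (S.τ_r θ x) v

theorem rep_T (x : ℂ) (f : PB S) :
    S.rep.T x (f : Completion (PB S)) = (PB.mk S (f.bdd.comp (S.τ x)) : PB S) :=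
  ContinuousLinearMap.completion_apply_coe _ _

theorem rep_R (θ : ℝ) (f : PB S) :
    S.rep.R θ (f : Completion (PB S)) = (PB.mk S (f.bdd.comp (S.r θ)) : PB S) :=
  ContinuousLinearMap.completion_apply_coe _ _

/-- truncation to the unit interval -/
def cut (t : ℝ) : ℝ := max 0 (min 1 t)

theorem cut_nonneg (t : ℝ) : 0 ≤ cut t := le_max_left _ _

theorem cut_le (t : ℝ) : cut t ≤ 1 := max_le zero_le_one (min_le_left _ _)

theorem cut_eq {t : ℝ} (h0 : 0 ≤ t) (h1 : t ≤ 1) : cut t = t := by
  rw [cut, min_eq_right h1, max_eq_right h0]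

theorem cut_sub (s t : ℝ) : (cut s - cut t) * (cut s - cut t) ≤ (s - t) * (s - t) := by
  have h1 : |cut s - cut t| ≤ |s - t| := by
    refine (abs_max_sub_max_le_max _ _ _ _).trans (max_le (by simp) ?_)
    exact (abs_min_sub_min_le_max _ _ _ _).trans (max_le (by simp) le_rfl)
  simpa only [sq_abs, sq] using sq_le_sq.2 h1

/-- truncation of a bounded function -/
def pbCut (f : PB S) : PB S :=
  PB.mk S (f := fun ω => cut (f.fn ω)) ⟨1, fun ω => abs_le.2 ⟨by linarith [cut_nonneg (f.fn ω)],
    cut_le _⟩⟩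

theorem pbCut_lip : LipschitzWith 1 (pbCut S) := by
  refine LipschitzWith.of_dist_le_mul fun f g => ?_
  rw [NNReal.coe_one, one_mul, dist_eq_norm, dist_eq_norm, norm_eq_sqrt_real_inner,
    norm_eq_sqrt_real_inner, inner_pb, inner_pb]
  refine Real.sqrt_le_sqrt (S.mean.mono ((PB.bdd _).mul (PB.bdd _)) ((PB.bdd _).mul (PB.bdd _))
    fun ω => cut_sub _ _)

theorem cut_dist (a b : Completion (PB S)) :
    dist (Completion.map (pbCut S) a) (Completion.map (pbCut S) b) ≤ dist a b := by
  have hc : Continuous (Completion.map (pbCut S)) := Completion.continuous_map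
  induction a, b using Completion.induction_on₂ with
  | hp => exact isClosed_le (by fun_prop) (by fun_prop)
  | ih a b =>
    rw [Completion.map_coe (pbCut_lip S).uniformContinuous,
      Completion.map_coe (pbCut_lip S).uniformContinuous, Completion.dist_eq, Completion.dist_eq]
    simpa using (pbCut_lip S).dist_le_mul a b

theorem cut_T (x : ℂ) (a : Completion (PB S)) :
    S.rep.T x (Completion.map (pbCut S) a) = Completion.map (pbCut S) (S.rep.T x a) := by
  have hc : Continuous (Completion.map (pbCut S)) := Completion.continuous_map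
  induction a using Completion.induction_on with
  | hp => exact isClosed_eq (by fun_prop) (by fun_prop)
  | ih a =>
    rw [Completion.map_coe (pbCut_lip S).uniformContinuous, rep_T, rep_T,
      Completion.map_coe (pbCut_lip S).uniformContinuous]
    rfl

/-- the continuous correlation function of a rotation invariant function with values in the unit
interval, and approximating functions -/
theorem approx {u : Ω → ℝ} (h0 : ∀ ω, 0 ≤ u ω) (h1 : ∀ ω, u ω ≤ 1)
    (hr : ∀ θ ω, u (S.r θ ω) = u ω) : ∃ G : ℂ → ℝ, Continuous G ∧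
    (∀ x y : ℂ, ‖x‖ = ‖y‖ → G x = G y) ∧ G 0 ≤ 1 ∧
    (∀ r : ℝ, 0 < r → G r = S.E fun ω => u (S.τ r ω) * u ω) ∧
    (∀ x : ℂ, x ≠ 0 → G x = S.E fun ω => u (S.τ x ω) * u ω) ∧
    (∀ (F : Finset ℝ) (c : ℝ → ℝ) (l : ℝ), (∀ s, 0 ≤ s → 0 ≤ l + ∑ d ∈ F, c d * J (s * d)) →
      0 ≤ l * G 0 + ∑ d ∈ F, c d * G d) ∧
    ∀ η : ℝ, 0 < η → ∃ f : Ω → ℝ, (∀ ω, 0 ≤ f ω) ∧ (∀ ω, f ω ≤ 1) ∧ S.E u - η ≤ S.E f ∧
      ∀ x y, |S.E (fun ω => f (S.τ x ω) * f (S.τ y ω)) - G (x - y)| ≤ η := by
  have hu : Bdd u := ⟨1, fun ω => abs_le.2 ⟨by linarith [h0 ω], h1 ω⟩⟩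
  have hnorm : ∀ f : PB S, (∀ ω, 0 ≤ f.fn ω) → (∀ ω, f.fn ω ≤ 1) →
      ‖(f : Completion (PB S))‖ ≤ 1 := fun f f0 f1 => by
    rw [Completion.norm_coe, norm_eq_sqrt_real_inner, inner_pb]
    refine Real.sqrt_le_one.2 ?_
    exact S.mean.le _ (f.bdd.mul f.bdd) _ fun ω => mul_le_one₀ (f1 ω) (f0 ω) (f1 ω)
  let U : PB S := PB.mk S hu
  have hξ : ‖(U : Completion (PB S))‖ ≤ 1 := hnorm U h0 h1
  have hrad : ∀ θ, S.rep.R θ (U : Completion (PB S)) = U := fun θ => by
    rw [rep_R]
    congr 1
    exact Subtype.ext (funext fun ω => hr θ ω)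
  obtain ⟨v, hv, hvr, hvn, hG, horth⟩ := exists_proj hrad hξ
  have hv1 : ‖v‖ ≤ 1 := hvn.trans hξ
  have hGU : ∀ x : ℂ, S.rep.G (U : Completion (PB S)) x = S.E fun ω => u (S.τ x ω) * u ω :=
    fun x => by rw [MRep.G, rep_T, Completion.inner_coe]; rfl
  have hc : Continuous (Completion.map (pbCut S)) := Completion.continuous_map
  have hcv : S.rep.Cont (Completion.map (pbCut S) v) := by
    change Tendsto _ _ _
    simp only [cut_T]
    exact (hc.tendsto _).comp hv
  have hcU : Completion.map (pbCut S) (U : Completion (PB S)) = U := by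
    rw [Completion.map_coe (pbCut_lip S).uniformContinuous]
    congr 1
    exact Subtype.ext (funext fun ω => cut_eq (h0 ω) (h1 ω))
  have hfix : Completion.map (pbCut S) v = v := by
    have h2 := cut_dist S U v
    rw [hcU, dist_eq_norm, dist_eq_norm] at h2
    set w := Completion.map (pbCut S) v
    have h3 : ⟪(U : Completion (PB S)) - v, v - w⟫ = 0 := by
      rw [inner_sub_right, horth v hv, horth w hcv, sub_zero]
    have h4 := norm_add_sq_real ((U : Completion (PB S)) - v) (v - w)
    rw [h3, sub_add_sub_cancel] at h4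
    have h5 : ‖v - w‖ ^ 2 ≤ 0 := by nlinarith [norm_nonneg ((U : Completion (PB S)) - w)]
    have h6 : ‖v - w‖ = 0 := by nlinarith [norm_nonneg (v - w)]
    exact (sub_eq_zero.1 (norm_eq_zero.1 h6)).symm
  refine ⟨S.rep.G v, hv.continuous.inner continuous_const, fun x y h => G_congr hvr h,
    (abs_le.1 (abs_G_le hv1 0)).2, fun r hr => by rw [hG r hr, hGU], fun x hx => ?_,
    fun F c l h => lp_ineq hv hvr hv1 F c l h, fun η hη => ?_⟩
  · rw [← hGU, G_congr hvr (y := (‖x‖ : ℝ)) (by simp), G_congr hrad (y := (‖x‖ : ℝ)) (by simp)]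
    exact hG _ (norm_pos_iff.2 hx)
  obtain ⟨f0, hf0⟩ := (Completion.denseRange_coe (α := PB S)).exists_dist_lt v (half_pos hη)
  have h2 := cut_dist S v f0
  rw [hfix, Completion.map_coe (pbCut_lip S).uniformContinuous] at h2
  set f := pbCut S f0 with hf
  have h3 : ‖v - f‖ ≤ η / 2 := by rw [← dist_eq_norm]; exact h2.trans hf0.le
  have f0' : ∀ ω, 0 ≤ f.fn ω := fun ω => cut_nonneg _
  have f1' : ∀ ω, f.fn ω ≤ 1 := fun ω => cut_le _
  have hfn := hnorm f f0' f1'
  refine ⟨f.fn, f0', f1', ?_, fun x y => ?_⟩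
  · let O : PB S := PB.mk S (Bdd.const 1)
    have hO : ‖(O : Completion (PB S))‖ ≤ 1 := hnorm O (fun _ => zero_le_one) fun _ => le_rfl
    have hOc : S.rep.Cont (O : Completion (PB S)) := by
      change Tendsto _ _ _
      simp only [rep_T]
      exact tendsto_const_nhds
    have h4 := horth _ hOc
    have h5 : ⟪(U : Completion (PB S)), (O : Completion (PB S))⟫ = S.E u := by
      rw [Completion.inner_coe, inner_pb]
      congr 1
      funext ω
      exact mul_one _
    have h6 : ⟪(f : Completion (PB S)), (O : Completion (PB S))⟫ = S.E f.fn := by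
      rw [Completion.inner_coe, inner_pb]
      congr 1
      funext ω
      exact mul_one _
    have h7 := (le_abs_self _).trans (abs_inner_le (y := (O : Completion (PB S))) h3)
    rw [inner_sub_left] at h4 h7
    nlinarith
  · have h4 : S.E (fun ω => f.fn (S.τ x ω) * f.fn (S.τ y ω)) =
        ⟪S.rep.T (x - y) (f : Completion (PB S)), (f : Completion (PB S))⟫ := by
      rw [← S.rep.inner_TT, rep_T, rep_T, Completion.inner_coe]
      rfl
    have h5 : ⟪S.rep.T (x - y) (f : Completion (PB S)), (f : Completion (PB S))⟫ -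
        S.rep.G v (x - y) = -(⟪S.rep.T (x - y) (v - f), (f : Completion (PB S))⟫ +
          ⟪S.rep.T (x - y) v, v - f⟫) := by
      rw [map_sub, inner_sub_left, inner_sub_right, MRep.G]
      ring
    have h6 := abs_inner_le (v := S.rep.T (x - y) (v - f)) (y := (f : Completion (PB S)))
      (C := η / 2) (by rwa [S.rep.norm_T])
    have h7 := abs_inner_le (v := S.rep.T (x - y) v) (y := v - f) (C := 1)
      (by rwa [S.rep.norm_T])
    rw [h4, h5, abs_neg]
    refine (abs_add_le _ _).trans ?_
    nlinarith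

end rep

end Pool.Agent.Lib.MP_843c79_co
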