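import Pool.Agent.Lib.MP_843c79_co.Bessel

/-!
Invariant states on the family of plane sets avoiding given distances.
-/

namespace Pool.Agent.Lib.MP_843c79_co

set_option maxHeartbeats 400000

open Filter Topology Finset

section act

variable {G Ω : Type} [AddCommGroup G] (τ : G → Ω → Ω)

/-- upper bounds for averages of translates under an action -/
def acSet (f : Ω → ℝ) : Set ℝ :=
  {b | ∃ (ι : Type) (_ : Fintype ι) (_ : Nonempty ι) (g : ι → G),
    ∀ x, ∑ i, f (τ (g i) x) ≤ Fintype.card ι * b}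

variable {τ}

theorem mem_acSet_of_le {f : Ω → ℝ} {b : ℝ} (h : ∀ x, f x ≤ b) : b ∈ acSet τ f :=
  ⟨Unit, inferInstance, inferInstance, fun _ => 0, fun x => by simpa using h _⟩

theorem acSet_nonempty {f : Ω → ℝ} (hf : Bdd f) : (acSet τ f).Nonempty := by
  obtain ⟨C, hC⟩ := hf
  exact ⟨C, mem_acSet_of_le fun x => (abs_le.1 (hC x)).2⟩

theorem le_of_mem_acSet [Nonempty Ω] {f : Ω → ℝ} {c b : ℝ} (h : ∀ x, c ≤ f x)
    (hb : b ∈ acSet τ f) : c ≤ b := by
  obtain ⟨ι, _, _, g, hg⟩ := hb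
  obtain ⟨x⟩ := ‹Nonempty Ω›
  have h1 : (Fintype.card ι : ℝ) * c ≤ ∑ i, f (τ (g i) x) := by
    have := Finset.card_nsmul_le_sum univ (fun i => f (τ (g i) x)) c fun i _ => h _
    simpa using this
  have h2 : (0 : ℝ) < Fintype.card ι := by exact_mod_cast Fintype.card_pos
  exact le_of_mul_le_mul_left (h1.trans (hg x)) h2

theorem acSet_bdd [Nonempty Ω] {f : Ω → ℝ} (hf : Bdd f) : BddBelow (acSet τ f) := by
  obtain ⟨C, hC⟩ := hf
  exact ⟨-C, fun b hb => le_of_mem_acSet (fun x => (abs_le.1 (hC x)).1) hb⟩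

theorem add_mem_acSet (hadd : ∀ x y ω, τ (x + y) ω = τ y (τ x ω)) {f h : Ω → ℝ} {a b : ℝ}
    (ha : a ∈ acSet τ f) (hb : b ∈ acSet τ h) : a + b ∈ acSet τ (f + h) := by
  obtain ⟨ι, _, _, g, hg⟩ := ha
  obtain ⟨κ, _, _, k, hk⟩ := hb
  refine ⟨ι × κ, inferInstance, inferInstance, fun p => g p.1 + k p.2, fun x => ?_⟩
  simp only [Pi.add_apply, sum_add_distrib, Fintype.card_prod, Nat.cast_mul]
  have h1 : ∑ p : ι × κ, f (τ (g p.1 + k p.2) x) ≤ Fintype.card κ * (Fintype.card ι * a) := by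
    rw [Fintype.sum_prod_type_right]
    have := Finset.sum_le_card_nsmul univ (fun j => ∑ i, f (τ (g i + k j) x)) (Fintype.card ι * a)
      fun j _ => by
        have := hg (τ (k j) x)
        simp only [← hadd] at this
        simpa [add_comm] using this
    simpa using this
  have h2 : ∑ p : ι × κ, h (τ (g p.1 + k p.2) x) ≤ Fintype.card ι * (Fintype.card κ * b) := by
    rw [Fintype.sum_prod_type]
    have := Finset.sum_le_card_nsmul univ (fun i => ∑ j, h (τ (g i + k j) x)) (Fintype.card κ * b)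
      fun i _ => by
        have := hk (τ (g i) x)
        simpa only [← hadd] using this
    simpa using this
  nlinarith

theorem smul_mem_acSet {f : Ω → ℝ} {a c : ℝ} (hc : 0 < c) (ha : a ∈ acSet τ f) :
    c * a ∈ acSet τ (c • f) := by
  obtain ⟨ι, _, _, g, hg⟩ := ha
  refine ⟨ι, inferInstance, inferInstance, g, fun x => ?_⟩
  simp only [Pi.smul_apply, smul_eq_mul, ← mul_sum]
  have := mul_le_mul_of_nonneg_left (hg x) hc.le
  linarith

/-- an invariant mean giving a large value to a given bounded function -/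
theorem exists_mean_act [Nonempty Ω] (hzero : ∀ ω, τ 0 ω = ω)
    (hτ : ∀ x y ω, τ (x + y) ω = τ y (τ x ω)) {u : Ω → ℝ} (hu : Bdd u) {δ : ℝ} (hδ : 0 < δ)
    (h : ∀ b ∈ acSet τ u, δ ≤ b) : ∃ M : (Ω → ℝ) →ₗ[ℝ] ℝ, IsMean M ∧
    (∀ f, Bdd f → ∀ a, M (fun x => f (τ a x)) = M f) ∧ δ ≤ M u := by
  let N : bddSub Ω → ℝ := fun f => sInf (acSet τ f.1)
  have hle : ∀ (c : ℝ), 0 < c → ∀ f : bddSub Ω, N (c • f) ≤ c * N f := by
    intro c hc f
    rw [← div_le_iff₀' hc]
    refine le_csInf (acSet_nonempty f.2) fun a ha => ?_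
    rw [div_le_iff₀' hc]
    exact csInf_le (acSet_bdd (c • f).2) (smul_mem_acSet hc ha)
  have hom : ∀ (c : ℝ), 0 < c → ∀ f : bddSub Ω, N (c • f) = c * N f := by
    intro c hc f
    refine le_antisymm (hle c hc f) ?_
    have := hle c⁻¹ (inv_pos.2 hc) (c • f)
    rw [smul_smul, inv_mul_cancel₀ hc.ne', one_smul] at this
    rwa [← le_div_iff₀' hc, div_eq_inv_mul]
  have hadd : ∀ f h : bddSub Ω, N (f + h) ≤ N f + N h := by
    intro f h
    have h1 : ∀ b ∈ acSet τ h.1, N (f + h) - b ≤ N f := fun b hb =>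
      le_csInf (acSet_nonempty f.2) fun a ha => by
        have := csInf_le (acSet_bdd (f + h).2) (add_mem_acSet hτ ha hb)
        simp only [N]
        linarith
    have h2 : N (f + h) - N f ≤ N h := le_csInf (acSet_nonempty h.2) fun b hb => by
      linarith [h1 b hb]
    linarith
  have hN0 : 0 ≤ N 0 := le_csInf (acSet_nonempty (Bdd.const 0)) fun b hb =>
      le_of_mem_acSet (c := 0) (fun _ => le_rfl) hb
  let U : bddSub Ω := ⟨u, hu⟩
  have hU : δ ≤ N U := le_csInf (acSet_nonempty hu) h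
  have hU0 : U ≠ 0 := fun h0 => by
    have h1 : u = 0 := congrArg Subtype.val h0
    have h2 := h 0 (mem_acSet_of_le fun x => by rw [h1]; exact le_rfl)
    linarith
  obtain ⟨m, hm0, hm⟩ := exists_extension_of_le_sublinear (E := bddSub Ω)
    (LinearPMap.mkSpanSingleton U (N U) hU0) N hom hadd (by
    rintro ⟨x, hx⟩
    obtain ⟨c, rfl⟩ := Submodule.mem_span_singleton.1 hx
    rw [LinearPMap.mkSpanSingleton'_apply]
    change c * N U ≤ N (c • U)
    rcases lt_trichotomy c 0 with hc | hc | hc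
    · have h1 := hom (-c) (by linarith) (-U)
      rw [neg_smul_neg] at h1
      have h2 := hadd U (-U)
      rw [add_neg_cancel] at h2
      rw [h1]
      nlinarith
    · subst hc
      simpa using hN0
    · exact (hom c hc U).ge)
  have hmU : m U = N U := by
    have := hm0 ⟨U, Submodule.mem_span_singleton_self U⟩
    rw [LinearPMap.mkSpanSingleton_apply] at this
    exact this
  obtain ⟨p, hp⟩ := (bddSub Ω).subtype.exists_leftInverse_of_injective (bddSub Ω).ker_subtype
  have hp' : ∀ (f : Ω → ℝ) (hf : Bdd f), p f = ⟨f, hf⟩ := fun f hf =>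
    LinearMap.congr_fun hp ⟨f, hf⟩
  have key : ∀ f, Bdd f → ∀ b ∈ acSet τ f, m (p f) ≤ b := fun f hf b hb => by
    rw [hp' f hf]
    exact (hm _).trans (csInf_le (acSet_bdd hf) hb)
  have hinv : ∀ f, Bdd f → ∀ a, m (p fun x => f (τ a x)) ≤ m (p f) := by
    intro f hf a
    obtain ⟨C, hC⟩ := id hf
    have h1 : ∀ n : ℕ, m (p fun x => f (τ a x) - f x) ≤ 2 * C / (n + 1) := by
      intro n
      refine key _ ((hf.comp _).sub hf) _ ⟨Fin (n + 1), inferInstance, inferInstance,
        fun i => (i : ℕ) • a, fun x => ?_⟩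
      rw [Fin.sum_univ_eq_sum_range (fun i => f (τ a (τ (i • a) x)) - f (τ (i • a) x))]
      have := Finset.sum_range_sub (fun i => f (τ (i • a) x)) (n + 1)
      simp only [succ_nsmul, hτ] at this
      rw [this]
      have h2 := abs_le.1 (hC (τ a (τ (n • a) x)))
      have h3 := abs_le.1 (hC (τ (0 • a) x))
      simp only [Fintype.card_fin, Nat.cast_add, Nat.cast_one]
      rw [mul_div_cancel₀ _ (by positivity)]
      linarith
    have h2 : m (p fun x => f (τ a x) - f x) ≤ 0 :=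
      ge_of_tendsto' (by
        simpa using (tendsto_one_div_add_atTop_nhds_zero_nat (𝕜 := ℝ)).const_mul (2 * C))
        (fun n => by simpa [div_eq_mul_inv] using h1 n)
    have h3 := map_sub' (m.comp p) (fun x => f (τ a x)) f
    simp only [LinearMap.comp_apply] at h3
    linarith
  refine ⟨m.comp p, ⟨fun f hf b hb => key f hf b (mem_acSet_of_le hb), le_antisymm
    (key _ (Bdd.const 1) 1 (mem_acSet_of_le fun _ => le_rfl)) ?_⟩, fun f hf a =>
    le_antisymm (hinv f hf a) ?_, ?_⟩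
  · have h1 := key _ (Bdd.const (-1)) (-1) (mem_acSet_of_le fun _ => le_rfl)
    have h2 := map_mul' (m.comp p) (-1) (fun _ => 1)
    simp only [LinearMap.comp_apply, mul_one] at h2 ⊢
    linarith
  · have := hinv (fun x => f (τ a x)) (hf.comp _) (-a)
    simp only [← hτ, neg_add_cancel, hzero] at this
    exact this
  · rw [LinearMap.comp_apply, hp' u hu]
    exact hU.trans hmU.ge

end act

/-- a mean on a set with an action of the motions of the discrete plane, invariant under it -/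
structure St (Ω : Type) where
  E : (Ω → ℝ) →ₗ[ℝ] ℝ
  mean : IsMean E
  τ : ℂ → Ω → Ω
  r : ℝ → Ω → Ω
  τ_zero : ∀ ω, τ 0 ω = ω
  τ_add : ∀ x y ω, τ (x + y) ω = τ y (τ x ω)
  r_zero : ∀ ω, r 0 ω = ω
  r_add : ∀ x y ω, r (x + y) ω = r y (r x ω)
  τ_r : ∀ θ x ω, τ x (r θ ω) = r θ (τ (eu θ * x) ω)
  inv_τ : ∀ f, Bdd f → ∀ x, E (fun ω => f (τ x ω)) = E f
  inv_r : ∀ f, Bdd f → ∀ θ, E (fun ω => f (r θ ω)) = E f

/-- plane sets avoiding all distances in `D` -/
def Av (D : Set ℝ) : Type := {A : Set ℂ // ∀ x ∈ A, ∀ y ∈ A, ‖x - y‖ ∉ D}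

open Classical in
/-- the indicator of the event that the set contains `x` -/
noncomputable def ind {D : Set ℝ} (x : ℂ) (A : Av D) : ℝ := if x ∈ A.1 then 1 else 0

theorem ind_cases {D : Set ℝ} (x : ℂ) (A : Av D) : ind x A = 0 ∨ ind x A = 1 := by
  unfold ind; split_ifs <;> simp

theorem ind_nonneg {D : Set ℝ} (x : ℂ) (A : Av D) : 0 ≤ ind x A := by
  rcases ind_cases x A with h | h <;> simp [h]

theorem ind_le {D : Set ℝ} (x : ℂ) (A : Av D) : ind x A ≤ 1 := by
  rcases ind_cases x A with h | h <;> simp [h]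

theorem ind_bdd {D : Set ℝ} (x : ℂ) : Bdd (ind (D := D) x) :=
  ⟨1, fun A => abs_le.2 ⟨by linarith [ind_nonneg x A], ind_le x A⟩⟩

theorem ind_mul {D : Set ℝ} {x y : ℂ} (h : ‖x - y‖ ∈ D) (A : Av D) : ind x A * ind y A = 0 := by
  unfold ind
  split_ifs with h1 h2
  · exact absurd h (A.2 x h1 y h2)
  all_goals simp

/-- some finite list of points has at most the fraction `a` in every `D`-avoiding set -/
def RB (D : Set ℝ) (a : ℝ) : Prop :=
  ∃ (ι : Type) (_ : Fintype ι) (_ : Nonempty ι) (p : ι → ℂ),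
    ∀ A : Av D, ∑ i, ind (p i) A ≤ Fintype.card ι * a

theorem RB.mono {D : Set ℝ} {a b : ℝ} (h : RB D a) (hab : a ≤ b) : RB D b := by
  obtain ⟨ι, _, _, p, hp⟩ := h
  exact ⟨ι, inferInstance, inferInstance, p, fun A =>
    (hp A).trans (mul_le_mul_of_nonneg_left hab (Nat.cast_nonneg _))⟩

/-- translation of an avoiding set -/
def shift {D : Set ℝ} (x : ℂ) (A : Av D) : Av D :=
  ⟨{z | z + x ∈ A.1}, fun a ha b hb => by
    have := A.2 _ ha _ hb
    rwa [add_sub_add_right_eq_sub] at this⟩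

/-- rotation of an avoiding set -/
def turn {D : Set ℝ} (θ : ℝ) (A : Av D) : Av D :=
  ⟨{z | eu θ * z ∈ A.1}, fun a ha b hb => by
    have := A.2 _ ha _ hb
    rwa [← mul_sub, norm_mul, norm_eu, one_mul] at this⟩

theorem ind_shift {D : Set ℝ} (x y : ℂ) (A : Av D) : ind y (shift x A) = ind (y + x) A := rfl

theorem ind_turn {D : Set ℝ} (θ : ℝ) (A : Av D) : ind 0 (turn θ A) = ind 0 A := by
  have : ind 0 (turn θ A) = ind (eu θ * 0) A := rfl
  rw [this, mul_zero]

/-- an invariant state of large density -/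
theorem exists_state {D : Set ℝ} {δ : ℝ} (hδ : 0 < δ) (h : ∀ a, RB D a → δ ≤ a) :
    ∃ S : St (Av D), S.τ = shift ∧ S.r = turn ∧ δ ≤ S.E (ind 0) := by
  have : Nonempty (Av D) := ⟨⟨∅, by simp⟩⟩
  have hz : ∀ A : Av D, shift 0 A = A := fun A => Subtype.ext (by simp [shift])
  have ha : ∀ x y (A : Av D), shift (x + y) A = shift y (shift x A) := fun x y A =>
    Subtype.ext (by simp [shift, add_assoc, add_comm x y])
  have hrz : ∀ A : Av D, turn 0 A = A := fun A => Subtype.ext (by simp [turn, eu_zero])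
  have hra : ∀ x y (A : Av D), turn (x + y) A = turn y (turn x A) := fun x y A =>
    Subtype.ext (by simp [turn, eu_add, mul_assoc])
  have hτr : ∀ θ x (A : Av D), shift x (turn θ A) = turn θ (shift (eu θ * x) A) := fun θ x A =>
    Subtype.ext (by simp [turn, shift, mul_add])
  obtain ⟨M, hM, hinv, hMu⟩ := exists_mean_act (τ := shift (D := D)) hz ha (ind_bdd 0) hδ (by
    rintro b ⟨ι, _, _, g, hg⟩
    exact h b ⟨ι, inferInstance, inferInstance, g, fun A => by
      simpa only [ind_shift, zero_add] using hg A⟩)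
  obtain ⟨M', hM', hinv'⟩ := exists_invariant_mean ℝ
  let E : (Av D → ℝ) →ₗ[ℝ] ℝ :=
    { toFun := fun f => M' fun θ => M fun A => f (turn θ A)
      map_add' := fun f g => by simp only [Pi.add_apply, map_add']
      map_smul' := fun c f => by simp only [Pi.smul_apply, smul_eq_mul, map_mul', RingHom.id_apply] }
  have hE : ∀ f, E f = M' fun θ => M fun A => f (turn θ A) := fun f => rfl
  have hb : ∀ f, Bdd f → Bdd fun θ => M fun A => f (turn θ A) := fun f ⟨C, hC⟩ =>
    ⟨C, fun θ => hM.abs_le fun A => hC _⟩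
  refine ⟨⟨E, ⟨fun f hf b hb' => ?_, ?_⟩, shift, turn, hz, ha, hrz, hra, hτr, fun f hf x => ?_,
    fun f hf φ => ?_⟩, rfl, rfl, ?_⟩
  · exact hM'.le _ (hb f hf) _ fun θ => hM.le _ (hf.comp _) _ fun A => hb' _
  · simp only [hE, hM.one, hM'.one]
  · simp only [hE, hτr]
    congr 1
    funext θ
    exact hinv (fun A => f (turn θ A)) (hf.comp _) _
  · have := hinv' (fun θ => M fun A => f (turn θ A)) (hb f hf) φ
    simp only [hra] at this
    exact this
  · change δ ≤ E (ind 0)
    simp only [hE, ind_turn, hM'.const]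
    exact hMu

end Pool.Agent.Lib.MP_843c79_co
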