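import Pool.Agent.Lib.MP_843c79_co.LimCell

/-!
Periodic types, greedy covering and the upper bound.
-/

namespace Pool.Agent.Lib.MP_843c79_co

set_option maxHeartbeats 400000

open Filter Topology Finset

theorem floor_sub_lt (u v : ℝ) : |((⌊u⌋ : ℝ) - ⌊v⌋) - (u - v)| < 1 := by
  have h3 := Int.floor_le u
  have h4 := Int.lt_floor_add_one u
  have h5 := Int.floor_le v
  have h6 := Int.lt_floor_add_one v
  exact abs_lt.2 ⟨by linarith, by linarith⟩

theorem cell_eq {σ a b : ℝ} (hσ : 0 < σ) {m p : ℕ} (hp : 1 / σ + 1 ≤ p) (hab : |a - b| ≤ 1)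
    {i j : ℕ} (hi : i < m) (hj : j < m) {t : ZMod (m + p)}
    (h1 : ((⌊a / σ⌋ : ℤ) : ZMod (m + p)) + t = i) (h2 : ((⌊b / σ⌋ : ℤ) : ZMod (m + p)) + t = j) :
    |σ * i - σ * j - (a - b)| ≤ σ := by
  have h3 : ((⌊a / σ⌋ - ⌊b / σ⌋ - (i - j) : ℤ) : ZMod (m + p)) = 0 := by
    push_cast
    rw [← h1, ← h2]
    ring
  rw [ZMod.intCast_zmod_eq_zero_iff_dvd] at h3
  have h4 := abs_lt.1 (floor_sub_lt (a / σ) (b / σ))
  have h5 : |a / σ - b / σ| ≤ 1 / σ := by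
    rw [← sub_div, abs_div, abs_of_pos hσ]
    exact div_le_div_of_nonneg_right hab hσ.le
  have h6 := abs_le.1 h5
  have hi' : (i : ℝ) < m := by exact_mod_cast hi
  have hj' : (j : ℝ) < m := by exact_mod_cast hj
  have hi0 : (0 : ℝ) ≤ i := Nat.cast_nonneg _
  have hj0 : (0 : ℝ) ≤ j := Nat.cast_nonneg _
  have h7 : |⌊a / σ⌋ - ⌊b / σ⌋ - (i - j : ℤ)| < ((m + p : ℕ) : ℤ) := by
    have : |(⌊a / σ⌋ : ℝ) - ⌊b / σ⌋ - (i - j)| < (m : ℝ) + p := abs_lt.2 ⟨by linarith, by linarith⟩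
    exact_mod_cast this
  have h8 := Int.eq_zero_of_abs_lt_dvd h3 h7
  have h9 : (⌊a / σ⌋ : ℝ) - ⌊b / σ⌋ = i - j := by exact_mod_cast sub_eq_zero.1 h8
  rw [h9] at h4
  have h10 : σ * i - σ * j - (a - b) = σ * ((i - j) - (a / σ - b / σ)) := by field_simp
  rw [h10, abs_mul, abs_of_pos hσ]
  exact mul_le_of_le_one_right hσ.le (abs_le.2 ⟨h4.1.le, h4.2.le⟩)

/-- a finite group of types with a large subset all of whose translates avoid the unit distance -/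
theorem exists_types {δ ε : ℝ} (hδ : 0 < δ) (h : ∀ a, RB {1} a → δ ≤ a) (hε : 0 < ε) :
    ∃ (Γ : Type) (_ : AddCommGroup Γ) (_ : Fintype Γ) (τ : ℂ → Γ) (Z : Finset Γ),
      (δ - ε) * Fintype.card Γ ≤ Z.card ∧
      ∀ t x y, τ x + t ∈ Z → τ y + t ∈ Z → ‖x - y‖ ≠ 1 := by
  classical
  have hδ1 : δ ≤ 1 := h 1 ⟨Unit, inferInstance, inferInstance, fun _ => 0, fun A => by
    simpa using ind_le 0 A⟩
  obtain ⟨s, hs, hZ⟩ := robust hδ h (half_pos hε)
  have hσ : 0 < s / 2 := half_pos hs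
  obtain ⟨p, hp⟩ := exists_nat_ge (1 / (s / 2) + 1)
  obtain ⟨m, hm⟩ := exists_nat_gt (max (p : ℝ) (6 * p / ε))
  have hp0 : (0 : ℝ) ≤ p := Nat.cast_nonneg _
  have hm1 : (p : ℝ) < m := (le_max_left _ _).trans_lt hm
  have hm2 : 6 * p < m * ε := by
    have := (le_max_right _ _).trans_lt hm
    rwa [div_lt_iff₀ hε] at this
  have hm0 : 0 < m := by exact_mod_cast hp0.trans_lt hm1
  have : NeZero (m + p) := ⟨by omega⟩
  obtain ⟨Z, hZ1, hZ2⟩ := hZ (Fin m × Fin m) fun g => ⟨s / 2 * (g.1 : ℕ), s / 2 * (g.2 : ℕ)⟩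
  let e : Fin m × Fin m → ZMod (m + p) × ZMod (m + p) := fun g => ((g.1 : ℕ), (g.2 : ℕ))
  have he1 : ∀ i j : Fin m, ((i : ℕ) : ZMod (m + p)) = (j : ℕ) → i = j := fun i j hij => by
    have := congrArg ZMod.val hij
    rw [ZMod.val_cast_of_lt (by omega), ZMod.val_cast_of_lt (by omega)] at this
    exact Fin.ext this
  have he : Function.Injective e := fun g g' hg =>
    Prod.ext (he1 _ _ (congrArg Prod.fst hg)) (he1 _ _ (congrArg Prod.snd hg))
  refine ⟨ZMod (m + p) × ZMod (m + p), inferInstance, inferInstance,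
    fun x => ((⌊x.re / (s / 2)⌋ : ℤ), (⌊x.im / (s / 2)⌋ : ℤ)), Z.image e, ?_,
    fun t x y hx hy hxy => ?_⟩
  · rw [card_image_of_injective _ he]
    simp only [Fintype.card_prod, Fintype.card_fin, ZMod.card, Nat.cast_mul, Nat.cast_add] at hZ1 ⊢
    rcases le_total (δ - ε) 0 with h1 | h1
    · exact (mul_nonpos_of_nonpos_of_nonneg h1 (by positivity)).trans (Nat.cast_nonneg _)
    · refine le_trans ?_ hZ1
      have h2 : ((m : ℝ) + p) * (m + p) ≤ m * m + 3 * (m * p) := by nlinarith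
      have h3 : (δ - ε) * (3 * (m * p)) ≤ 3 * (m * p) :=
        mul_le_of_le_one_left (by positivity) (by linarith)
      have h4 : (6 * p : ℝ) * m ≤ m * ε * m := mul_le_mul_of_nonneg_right hm2.le (by positivity)
      nlinarith [mul_le_mul_of_nonneg_left h2 h1]
  · obtain ⟨g, hg, hg'⟩ := mem_image.1 hx
    obtain ⟨g', hh, hh'⟩ := mem_image.1 hy
    have h1 := cell_eq hσ hp (a := x.re) (b := y.re)
      ((Complex.abs_re_le_norm (x - y)).trans hxy.le) g.1.2 g'.1.2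
      (congrArg Prod.fst hg').symm (congrArg Prod.fst hh').symm
    have h2 := cell_eq hσ hp (a := x.im) (b := y.im)
      ((Complex.abs_im_le_norm (x - y)).trans hxy.le) g.2.2 g'.2.2
      (congrArg Prod.snd hg').symm (congrArg Prod.snd hh').symm
    refine hZ2 g hg g' hh ((⟨s / 2 * (g.1 : ℕ), s / 2 * (g.2 : ℕ)⟩ : ℂ) -
      ⟨s / 2 * (g'.1 : ℕ), s / 2 * (g'.2 : ℕ)⟩ - (x - y)) ?_ (by rwa [sub_sub_cancel])
    refine (Complex.norm_le_abs_re_add_abs_im _).trans ?_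
    simp only [Complex.sub_re, Complex.sub_im]
    linarith

/-- greedy covering by translates -/
theorem greedy {Γ : Type} [AddCommGroup Γ] [Fintype Γ] [DecidableEq Γ] {S : Finset Γ} {σ : ℝ}
    (hσ : σ * Fintype.card Γ ≤ S.card) (n : ℕ) : ∃ T : Finset Γ, T.card ≤ n ∧
    ((univ.filter fun γ => ∀ t ∈ T, γ + t ∉ S).card : ℝ) ≤ (1 - σ) ^ n * Fintype.card Γ := by
  have hΓ : (0 : ℝ) < Fintype.card Γ := by exact_mod_cast Fintype.card_pos
  have hσ1 : σ ≤ 1 := by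
    have : (S.card : ℝ) ≤ Fintype.card Γ := by exact_mod_cast S.card_le_univ
    nlinarith
  induction n with
  | zero => exact ⟨∅, le_rfl, by simp⟩
  | succ n ih =>
    obtain ⟨T, h1, h2⟩ := ih
    set U := univ.filter fun γ => ∀ t ∈ T, γ + t ∉ S with hU
    have h3 : ∀ γ : Γ, ∑ t : Γ, (if γ + t ∉ S then (1 : ℝ) else 0) ≤ (1 - σ) * Fintype.card Γ := by
      intro γ
      have h0 : ∑ t : Γ, (if γ + t ∉ S then (1 : ℝ) else 0) = ∑ t : Γ, if t ∉ S then 1 else 0 :=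
        Equiv.sum_comp (Equiv.addLeft γ) fun t => if t ∉ S then (1 : ℝ) else 0
      rw [h0, sum_boole]
      have h4 : (univ.filter fun t => t ∉ S) = Sᶜ := by ext; simp
      rw [h4, card_compl, Nat.cast_sub S.card_le_univ]
      linarith
    have h4 : ∑ t : Γ, ∑ γ ∈ U, (if γ + t ∉ S then (1 : ℝ) else 0) ≤
        ∑ _t : Γ, (1 - σ) * U.card := by
      rw [sum_comm]
      refine (sum_le_sum fun γ _ => h3 γ).trans_eq ?_
      simp only [sum_const, card_univ, nsmul_eq_mul]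
      ring
    obtain ⟨t, -, ht⟩ := exists_le_of_sum_le univ_nonempty h4
    rw [sum_boole] at ht
    refine ⟨insert t T, (card_insert_le _ _).trans (by omega), ?_⟩
    have h5 : (univ.filter fun γ => ∀ t' ∈ insert t T, γ + t' ∉ S) = U.filter fun γ => γ + t ∉ S := by
      ext γ
      simp [hU, and_comm]
    rw [h5, pow_succ]
    nlinarith [mul_le_mul_of_nonneg_left h2 (sub_nonneg.2 hσ1)]

/-- colourings for `k` arbitrary distances -/
theorem cover {δ ρ : ℝ} (hρ : 0 < ρ) (hρδ : ρ < δ) (h : ∀ a, RB {1} a → δ ≤ a) :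
    ∃ L : ℝ, 0 ≤ L ∧ ∀ (H : Finset ℝ) (n : ℕ), (∀ d ∈ H, 0 < d) → H.card * L < ρ ^ H.card * n →
      ∃ (γ : Type) (_ : Fintype γ) (col : ℂ → γ), Fintype.card γ ≤ n ∧
        ∀ x y, ‖x - y‖ ∈ H → col x ≠ col y := by
  classical
  obtain ⟨Γ, _, _, τ, Z, hZ, hτ⟩ := exists_types (hρ.trans hρδ) h (sub_pos.2 hρδ)
  rw [sub_sub_cancel] at hZ
  have hΓ : (1 : ℝ) ≤ Fintype.card Γ := by exact_mod_cast Fintype.card_pos
  refine ⟨Real.log (Fintype.card Γ), Real.log_nonneg hΓ, fun H n hH hn => ?_⟩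
  have hρ1 : ρ ≤ 1 := by
    have : (Z.card : ℝ) ≤ Fintype.card Γ := by exact_mod_cast Z.card_le_univ
    nlinarith
  obtain ⟨T, hT1, hT2⟩ := greedy (Γ := H → Γ) (S := Fintype.piFinset fun _ => Z) (σ := ρ ^ H.card)
    (by
      simp only [Fintype.card_pi, Fintype.card_piFinset, prod_const, card_univ, Fintype.card_coe,
        Nat.cast_pow, ← mul_pow]
      exact pow_le_pow_left₀ (by positivity) hZ _) n
  have h1 : (1 - ρ ^ H.card) ^ n * Fintype.card (H → Γ) < 1 := by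
    have h2 : (1 - ρ ^ H.card) ^ n ≤ Real.exp (-(ρ ^ H.card)) ^ n :=
      pow_le_pow_left₀ (sub_nonneg.2 (pow_le_one₀ hρ.le hρ1)) (Real.one_sub_le_exp_neg _) _
    have h3 : (Fintype.card (H → Γ) : ℝ) = Real.exp (H.card * Real.log (Fintype.card Γ)) := by
      rw [Real.exp_nat_mul, Real.exp_log (by linarith)]
      simp
    rw [← Real.exp_nat_mul] at h2
    rw [h3]
    refine (mul_le_mul_of_nonneg_right h2 (Real.exp_pos _).le).trans_lt ?_
    rw [← Real.exp_add, ← Real.exp_zero, Real.exp_lt_exp]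
    linarith
  have h2 : ∀ γ : H → Γ, ∃ t ∈ T, γ + t ∈ Fintype.piFinset fun _ : H => Z := fun γ => by
    have h3 := hT2.trans_lt h1
    rw [Nat.cast_lt_one, card_eq_zero, filter_eq_empty_iff] at h3
    have h4 := h3 (mem_univ γ)
    push Not at h4
    exact h4
  choose c hc hc' using h2
  let ty : ℂ → H → Γ := fun x d => τ (x / (d.1 : ℝ))
  refine ⟨T, inferInstance, fun x => ⟨c (ty x), hc _⟩, by simpa using hT1, fun x y hxy he => ?_⟩
  have h3 : c (ty x) = c (ty y) := congrArg Subtype.val he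
  have h4 := Fintype.mem_piFinset.1 (hc' (ty x)) ⟨_, hxy⟩
  have h5 := Fintype.mem_piFinset.1 (hc' (ty y)) ⟨_, hxy⟩
  rw [h3] at h4
  refine hτ _ _ _ h4 h5 ?_
  have h6 := hH _ hxy
  rw [← sub_div, norm_div, Complex.norm_real, Real.norm_of_nonneg h6.le, div_self h6.ne']

/-- a finite colouring for the unit distance -/
theorem exists_col : ∃ col : ℂ → ZMod 4 × ZMod 4, ∀ x y, ‖x - y‖ = 1 → col x ≠ col y := by
  refine ⟨fun x => ((⌊x.re / (2 / 5)⌋ : ℤ), (⌊x.im / (2 / 5)⌋ : ℤ)), fun x y hxy h => ?_⟩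
  have key : ∀ a b : ℝ, |a - b| ≤ 1 → ((⌊a / (2 / 5)⌋ : ℤ) : ZMod 4) = (⌊b / (2 / 5)⌋ : ℤ) →
      |a - b| < 2 / 5 := fun a b hab h => by
    rw [ZMod.intCast_eq_intCast_iff_dvd_sub] at h
    have h1 := abs_lt.1 (floor_sub_lt (a / (2 / 5)) (b / (2 / 5)))
    have h2 := abs_le.1 hab
    have h7 : |⌊b / (2 / 5)⌋ - ⌊a / (2 / 5)⌋| < ((4 : ℕ) : ℤ) := by
      have : |((⌊b / (2 / 5)⌋ : ℤ) : ℝ) - (⌊a / (2 / 5)⌋ : ℤ)| < 4 :=
        abs_lt.2 ⟨by linarith, by linarith⟩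
      exact_mod_cast this
    have h8 := Int.eq_zero_of_abs_lt_dvd h h7
    have h9 : ((⌊b / (2 / 5)⌋ : ℤ) : ℝ) = (⌊a / (2 / 5)⌋ : ℤ) := by
      exact_mod_cast sub_eq_zero.1 h8
    exact abs_lt.2 ⟨by linarith, by linarith⟩
  have h3 := key x.re y.re ((Complex.abs_re_le_norm (x - y)).trans hxy.le) (congrArg Prod.fst h)
  have h4 := key x.im y.im ((Complex.abs_im_le_norm (x - y)).trans hxy.le) (congrArg Prod.snd h)
  have h5 := Complex.norm_le_abs_re_add_abs_im (x - y)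
  rw [Complex.sub_re, Complex.sub_im] at h5
  linarith

end Pool.Agent.Lib.MP_843c79_co
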