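import Mathlib

/-!
Invariant means on abelian groups, and a locally translation invariant mean on `[0,1)`.
-/

namespace Pool.Agent.Lib.MP_843c79_co

open Finset

/-- bounded real functions -/
def Bdd {α : Type} (f : α → ℝ) : Prop := ∃ C, ∀ x, |f x| ≤ C

/-- a mean: a normalised positive functional on bounded functions -/
structure IsMean {α : Type} (M : (α → ℝ) →ₗ[ℝ] ℝ) : Prop where
  le : ∀ f, Bdd f → ∀ b, (∀ x, f x ≤ b) → M f ≤ b
  one : M (fun _ => 1) = 1

section

variable {α : Type} {M : (α → ℝ) →ₗ[ℝ] ℝ}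

theorem Bdd.const (c : ℝ) : Bdd (fun _ : α => c) := ⟨|c|, fun _ => le_rfl⟩

theorem Bdd.add {f g : α → ℝ} (hf : Bdd f) (hg : Bdd g) : Bdd (fun x => f x + g x) := by
  obtain ⟨C, hC⟩ := hf
  obtain ⟨D, hD⟩ := hg
  exact ⟨C + D, fun x => (abs_add_le _ _).trans (add_le_add (hC x) (hD x))⟩

theorem Bdd.mul {f g : α → ℝ} (hf : Bdd f) (hg : Bdd g) : Bdd (fun x => f x * g x) := by
  obtain ⟨C, hC⟩ := hf
  obtain ⟨D, hD⟩ := hg
  refine ⟨C * D, fun x => ?_⟩
  rw [abs_mul]
  exact mul_le_mul (hC x) (hD x) (abs_nonneg _) ((abs_nonneg _).trans (hC x))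

theorem Bdd.neg {f : α → ℝ} (hf : Bdd f) : Bdd (fun x => - f x) := by
  obtain ⟨C, hC⟩ := hf
  exact ⟨C, fun x => by simpa using hC x⟩

theorem Bdd.sub {f g : α → ℝ} (hf : Bdd f) (hg : Bdd g) : Bdd (fun x => f x - g x) := by
  simpa [sub_eq_add_neg] using hf.add hg.neg

theorem Bdd.comp {β : Type} {f : α → ℝ} (hf : Bdd f) (k : β → α) : Bdd (fun x => f (k x)) := by
  obtain ⟨C, hC⟩ := hf
  exact ⟨C, fun x => hC _⟩

theorem Bdd.sum {ι : Type} (s : Finset ι) {f : ι → α → ℝ} (hf : ∀ i ∈ s, Bdd (f i)) :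
    Bdd (fun x => ∑ i ∈ s, f i x) := by
  classical
  induction s using Finset.induction_on with
  | empty => simpa using Bdd.const (0 : ℝ)
  | insert a s ha ih =>
    simp only [sum_insert ha]
    exact (hf a (mem_insert_self _ _)).add (ih fun i hi => hf i (mem_insert_of_mem hi))

theorem map_add' (M : (α → ℝ) →ₗ[ℝ] ℝ) (f g : α → ℝ) :
    M (fun x => f x + g x) = M f + M g := M.map_add f g

theorem map_sub' (M : (α → ℝ) →ₗ[ℝ] ℝ) (f g : α → ℝ) :
    M (fun x => f x - g x) = M f - M g := M.map_sub f g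

theorem map_mul' (M : (α → ℝ) →ₗ[ℝ] ℝ) (c : ℝ) (f : α → ℝ) :
    M (fun x => c * f x) = c * M f := M.map_smul c f

theorem map_sum' (M : (α → ℝ) →ₗ[ℝ] ℝ) {ι : Type} (s : Finset ι) (f : ι → α → ℝ) :
    M (fun x => ∑ i ∈ s, f i x) = ∑ i ∈ s, M (f i) := by
  rw [← map_sum]
  congr 1
  funext x
  simp

theorem IsMean.const (hM : IsMean M) (c : ℝ) : M (fun _ => c) = c := by
  have := map_mul' M c (fun _ => 1)
  simpa [hM.one] using this

theorem IsMean.mono (hM : IsMean M) {f g : α → ℝ} (hf : Bdd f) (hg : Bdd g) (h : ∀ x, f x ≤ g x) :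
    M f ≤ M g := by
  have := hM.le _ (hf.sub hg) 0 fun x => sub_nonpos.2 (h x)
  rw [map_sub'] at this
  linarith

theorem IsMean.ge (hM : IsMean M) {f : α → ℝ} (hf : Bdd f) {b : ℝ} (h : ∀ x, b ≤ f x) :
    b ≤ M f := by
  have := hM.mono (Bdd.const b) hf h
  rwa [hM.const] at this

theorem IsMean.abs_le (hM : IsMean M) {f : α → ℝ} {C : ℝ} (h : ∀ x, |f x| ≤ C) : |M f| ≤ C :=
  _root_.abs_le.2 ⟨hM.ge ⟨C, h⟩ fun x => (_root_.abs_le.1 (h x)).1,
    hM.le _ ⟨C, h⟩ _ fun x => (_root_.abs_le.1 (h x)).2⟩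

end

section exist

variable {G : Type} [AddCommGroup G]

/-- upper bounds for averages of translates -/
def avSet (f : G → ℝ) : Set ℝ :=
  {b | ∃ (ι : Type) (_ : Fintype ι) (_ : Nonempty ι) (g : ι → G),
    ∀ x, ∑ i, f (x + g i) ≤ Fintype.card ι * b}

theorem mem_avSet_of_le {f : G → ℝ} {b : ℝ} (h : ∀ x, f x ≤ b) : b ∈ avSet f :=
  ⟨Unit, inferInstance, inferInstance, fun _ => 0, fun x => by simpa using h x⟩

theorem avSet_nonempty {f : G → ℝ} (hf : Bdd f) : (avSet f).Nonempty := by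
  obtain ⟨C, hC⟩ := hf
  exact ⟨C, mem_avSet_of_le fun x => (abs_le.1 (hC x)).2⟩

theorem le_of_mem_avSet {f : G → ℝ} {c b : ℝ} (h : ∀ x, c ≤ f x) (hb : b ∈ avSet f) : c ≤ b := by
  obtain ⟨ι, _, _, g, hg⟩ := hb
  have h1 : (Fintype.card ι : ℝ) * c ≤ ∑ i, f (0 + g i) := by
    have := Finset.card_nsmul_le_sum univ (fun i => f (0 + g i)) c fun i _ => h _
    simpa using this
  have h2 : (0 : ℝ) < Fintype.card ι := by exact_mod_cast Fintype.card_pos
  exact le_of_mul_le_mul_left (h1.trans (hg 0)) h2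

theorem avSet_bdd {f : G → ℝ} (hf : Bdd f) : BddBelow (avSet f) := by
  obtain ⟨C, hC⟩ := hf
  exact ⟨-C, fun b hb => le_of_mem_avSet (fun x => (abs_le.1 (hC x)).1) hb⟩

theorem add_mem_avSet {f h : G → ℝ} {a b : ℝ} (ha : a ∈ avSet f) (hb : b ∈ avSet h) :
    a + b ∈ avSet (f + h) := by
  obtain ⟨ι, _, _, g, hg⟩ := ha
  obtain ⟨κ, _, _, k, hk⟩ := hb
  refine ⟨ι × κ, inferInstance, inferInstance, fun p => g p.1 + k p.2, fun x => ?_⟩
  simp only [Pi.add_apply, sum_add_distrib, Fintype.card_prod, Nat.cast_mul]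
  have h1 : ∑ p : ι × κ, f (x + (g p.1 + k p.2)) ≤ Fintype.card κ * (Fintype.card ι * a) := by
    rw [Fintype.sum_prod_type_right]
    have := Finset.sum_le_card_nsmul univ (fun j => ∑ i, f (x + (g i + k j))) (Fintype.card ι * a)
      fun j _ => by
        have := hg (x + k j)
        simpa [add_assoc, add_comm, add_left_comm] using this
    simpa using this
  have h2 : ∑ p : ι × κ, h (x + (g p.1 + k p.2)) ≤ Fintype.card ι * (Fintype.card κ * b) := by
    rw [Fintype.sum_prod_type]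
    have := Finset.sum_le_card_nsmul univ (fun i => ∑ j, h (x + (g i + k j))) (Fintype.card κ * b)
      fun i _ => by
        have := hk (x + g i)
        simpa [add_assoc] using this
    simpa using this
  nlinarith

theorem smul_mem_avSet {f : G → ℝ} {a c : ℝ} (hc : 0 < c) (ha : a ∈ avSet f) :
    c * a ∈ avSet (c • f) := by
  obtain ⟨ι, _, _, g, hg⟩ := ha
  refine ⟨ι, inferInstance, inferInstance, g, fun x => ?_⟩
  simp only [Pi.smul_apply, smul_eq_mul, ← mul_sum]
  have := mul_le_mul_of_nonneg_left (hg x) hc.le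
  linarith

/-- the submodule of bounded functions -/
def bddSub (G : Type) : Submodule ℝ (G → ℝ) where
  carrier := {f | Bdd f}
  add_mem' := fun hf hg => hf.add hg
  zero_mem' := Bdd.const 0
  smul_mem' := fun c _ hf => (Bdd.const c).mul hf

theorem exists_invariant_mean (G : Type) [AddCommGroup G] : ∃ M : (G → ℝ) →ₗ[ℝ] ℝ, IsMean M ∧
    ∀ f, Bdd f → ∀ a, M (fun x => f (x + a)) = M f := by
  let N : bddSub G → ℝ := fun f => sInf (avSet f.1)
  have hle : ∀ (c : ℝ), 0 < c → ∀ f : bddSub G, N (c • f) ≤ c * N f := by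
    intro c hc f
    rw [← div_le_iff₀' hc]
    refine le_csInf (avSet_nonempty f.2) fun a ha => ?_
    rw [div_le_iff₀' hc]
    exact csInf_le (avSet_bdd (c • f).2) (smul_mem_avSet hc ha)
  have hom : ∀ (c : ℝ), 0 < c → ∀ f : bddSub G, N (c • f) = c * N f := by
    intro c hc f
    refine le_antisymm (hle c hc f) ?_
    have := hle c⁻¹ (inv_pos.2 hc) (c • f)
    rw [smul_smul, inv_mul_cancel₀ hc.ne', one_smul] at this
    rwa [← le_div_iff₀' hc, div_eq_inv_mul]
  have hadd : ∀ f h : bddSub G, N (f + h) ≤ N f + N h := by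
    intro f h
    have h1 : ∀ b ∈ avSet h.1, N (f + h) - b ≤ N f := fun b hb =>
      le_csInf (avSet_nonempty f.2) fun a ha => by
        have := csInf_le (avSet_bdd (f + h).2) (add_mem_avSet ha hb)
        simp only [N]
        linarith
    have h2 : N (f + h) - N f ≤ N h := le_csInf (avSet_nonempty h.2) fun b hb => by
      linarith [h1 b hb]
    linarith
  obtain ⟨m, -, hm⟩ := exists_extension_of_le_sublinear (E := bddSub G) ⟨⊥, 0⟩ N hom hadd (by
    rintro ⟨x, hx⟩
    rw [Submodule.mem_bot] at hx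
    subst hx
    exact le_csInf (avSet_nonempty (Bdd.const 0)) fun b hb =>
      le_of_mem_avSet (c := 0) (fun _ => le_rfl) hb)
  obtain ⟨p, hp⟩ := (bddSub G).subtype.exists_leftInverse_of_injective (bddSub G).ker_subtype
  have hp' : ∀ (f : G → ℝ) (hf : Bdd f), p f = ⟨f, hf⟩ := fun f hf =>
    LinearMap.congr_fun hp ⟨f, hf⟩
  have key : ∀ f, Bdd f → ∀ b ∈ avSet f, m (p f) ≤ b := fun f hf b hb => by
    rw [hp' f hf]
    exact (hm _).trans (csInf_le (avSet_bdd hf) hb)
  have hinv : ∀ f, Bdd f → ∀ a, m (p fun x => f (x + a)) ≤ m (p f) := by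
    intro f hf a
    obtain ⟨C, hC⟩ := id hf
    have h1 : ∀ n : ℕ, m (p fun x => f (x + a) - f x) ≤ 2 * C / (n + 1) := by
      intro n
      refine key _ ((hf.comp _).sub hf) _ ⟨Fin (n + 1), inferInstance, inferInstance,
        fun i => (i : ℕ) • a, fun x => ?_⟩
      rw [Fin.sum_univ_eq_sum_range (fun i => f (x + i • a + a) - f (x + i • a))]
      have := Finset.sum_range_sub (fun i => f (x + i • a)) (n + 1)
      simp only [succ_nsmul, ← add_assoc] at this
      rw [this]
      have h2 := abs_le.1 (hC (x + n • a + a))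
      have h3 := abs_le.1 (hC (x + 0 • a))
      simp only [Fintype.card_fin, Nat.cast_add, Nat.cast_one]
      rw [mul_div_cancel₀ _ (by positivity)]
      linarith
    have h2 : m (p fun x => f (x + a) - f x) ≤ 0 :=
      ge_of_tendsto' (by
        simpa using (tendsto_one_div_add_atTop_nhds_zero_nat (𝕜 := ℝ)).const_mul (2 * C))
        (fun n => by simpa [div_eq_mul_inv] using h1 n)
    have h3 := map_sub' (m.comp p) (fun x => f (x + a)) f
    simp only [LinearMap.comp_apply] at h3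
    linarith
  refine ⟨m.comp p, ⟨fun f hf b hb => key f hf b (mem_avSet_of_le hb), le_antisymm
    (key _ (Bdd.const 1) 1 (mem_avSet_of_le fun _ => le_rfl)) ?_⟩, fun f hf a =>
    le_antisymm (hinv f hf a) ?_⟩
  · have h1 := key _ (Bdd.const (-1)) (-1) (mem_avSet_of_le fun _ => le_rfl)
    have h2 := map_mul' (m.comp p) (-1) (fun _ => 1)
    simp only [LinearMap.comp_apply, mul_one] at h2 ⊢
    linarith
  · have := hinv (fun x => f (x + a)) (hf.comp _) (-a)
    simpa using this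

end exist

/-- a mean concentrated on `[0,1)` which is almost invariant under small translations -/
structure IsLocal (L : (ℝ → ℝ) →ₗ[ℝ] ℝ) : Prop extends IsMean L where
  congr : ∀ f g, (∀ x, 0 ≤ x → x < 1 → f x = g x) → L f = L g
  shift : ∀ f C, (∀ x, |f x| ≤ C) → ∀ b, |L (fun x => f (x + b)) - L f| ≤ 2 * C * |b|

theorem exists_local : ∃ L, IsLocal L := by
  obtain ⟨M, hM, hinv⟩ := exists_invariant_mean ℝ
  let L : (ℝ → ℝ) →ₗ[ℝ] ℝ := M.comp (LinearMap.funLeft ℝ ℝ Int.fract)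
  have hL : ∀ f, L f = M fun x => f (Int.fract x) := fun f => rfl
  have hfr : Bdd (fun x : ℝ => Int.fract x) :=
    ⟨1, fun x => by rw [abs_of_nonneg (Int.fract_nonneg x)]; exact (Int.fract_lt_one x).le⟩
  have pos : ∀ f C, (∀ x, |f x| ≤ C) → ∀ b, 0 ≤ b →
      |L (fun x => f (x + b)) - L f| ≤ 2 * C * b := by
    intro f C hC b hb
    have hf : Bdd f := ⟨C, hC⟩
    have hC0 : 0 ≤ C := (abs_nonneg _).trans (hC 0)
    have h1 : L f = M fun x => f (Int.fract (x + b)) := (hinv _ (hf.comp _) b).symm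
    have hd : M (fun x => Int.fract x + b - Int.fract (x + b)) = b := by
      rw [map_sub', map_add', hM.const, hinv _ hfr]
      ring
    have hdb : Bdd (fun x => Int.fract x + b - Int.fract (x + b)) :=
      (hfr.add (Bdd.const b)).sub (hfr.comp _)
    have h2 : ∀ x, |f (Int.fract x + b) - f (Int.fract (x + b))| ≤
        2 * C * (Int.fract x + b - Int.fract (x + b)) := by
      intro x
      have e : Int.fract x + b - Int.fract (x + b) = ((⌊x + b⌋ - ⌊x⌋ : ℤ) : ℝ) := by
        simp only [Int.fract]; push_cast; ring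
      have h3 : ⌊x⌋ ≤ ⌊x + b⌋ := Int.floor_mono (by linarith)
      rcases h3.eq_or_lt with h | h
      · have : Int.fract x + b = Int.fract (x + b) := by
          rw [← sub_eq_zero, e, h]; simp
        simp [this]
      · have h4 : (1 : ℝ) ≤ ((⌊x + b⌋ - ⌊x⌋ : ℤ) : ℝ) := by exact_mod_cast (by omega)
        rw [e]
        have := abs_sub (f (Int.fract x + b)) (f (Int.fract (x + b)))
        nlinarith [hC (Int.fract x + b), hC (Int.fract (x + b))]
    rw [h1, hL, ← map_sub']
    have hb1 : Bdd fun x => f (Int.fract x + b) - f (Int.fract (x + b)) :=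
      (hf.comp _).sub (hf.comp _)
    have h5 := hM.mono hb1 ((Bdd.const (2 * C)).mul hdb) fun x => (abs_le.1 (h2 x)).2
    have h6 := hM.mono ((Bdd.const (-(2 * C))).mul hdb) hb1 fun x => by
      have := (abs_le.1 (h2 x)).1
      linarith
    rw [map_mul', hd] at h5 h6
    exact abs_le.2 ⟨by linarith, h5⟩
  refine ⟨L, ⟨fun f hf b hb => hM.le _ (hf.comp _) b fun x => hb _, hM.one⟩, fun f g h => ?_,
    fun f C hC b => ?_⟩
  · rw [hL, hL]
    congr 1
    funext x
    exact h _ (Int.fract_nonneg x) (Int.fract_lt_one x)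
  · rcases le_total 0 b with hb | hb
    · rw [abs_of_nonneg hb]; exact pos f C hC b hb
    · have := pos (fun x => f (x + b)) C (fun x => hC _) (-b) (by linarith)
      rw [abs_of_nonpos hb, abs_sub_comm]
      simpa using this

end Pool.Agent.Lib.MP_843c79_co
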