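import Pool.Agent.Lib.MP_843c79_co.Vdc

/-!
A rotation invariant vector orthogonal to all continuous vectors gives a pure nugget effect.
-/

namespace Pool.Agent.Lib.MP_843c79_co

set_option maxHeartbeats 400000

open Finset Filter Topology
open scoped RealInnerProductSpace

variable {H : Type} [NormedAddCommGroup H] [InnerProductSpace ℝ H] {ρ : MRep H} {ζ : H}

theorem norm_sq_eu (φ s t : ℝ) : ‖eu φ * s + t‖ ^ 2 = s ^ 2 + t ^ 2 + 2 * s * t * Real.cos φ := by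
  rw [Complex.sq_norm, Complex.normSq_apply]
  simp only [Complex.add_re, Complex.add_im, Complex.mul_re, Complex.mul_im, Complex.ofReal_re,
    Complex.ofReal_im, eu_re, eu_im]
  nlinarith [Real.sin_sq_add_cos_sq φ]

section

variable [CompleteSpace H] {L : (ℝ → ℝ) →ₗ[ℝ] ℝ}

open Polynomial in
theorem cross (hL : IsLocal L) (hζ : Sing ρ ζ) {s t : ℝ} (hs : 0 < s) (ht : 0 < t) {m : ℤ}
    (hm : m ≠ 0) : L (fun ε => ρ.G ζ (eu (m * (2 * Real.arccos ε)) * s + t)) = 0 := by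
  have hst : 0 < 2 * √(s * t) := by positivity
  have h1 := vdc hL hζ _ (C (2 * √(s * t)) * Chebyshev.T ℝ m) rfl (by
    rw [natDegree_C_mul hst.ne', Chebyshev.natDegree_T]
    omega) ((s - t : ℝ) * Complex.I)
  rw [← h1]
  refine hL.congr _ _ fun ε h0 h1 => G_congr hζ.rad ?_
  rw [← sq_eq_sq₀ (norm_nonneg _) (norm_nonneg _), norm_sq_eu, Complex.sq_norm,
    Complex.normSq_add_mul_I, eval_mul, eval_C]
  have e : (Chebyshev.T ℝ m).eval ε = Real.cos (m * Real.arccos ε) := by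
    rw [← Chebyshev.T_real_cos, Real.cos_arccos (by linarith) h1.le]
  rw [e, mul_pow, mul_pow, Real.sq_sqrt (by positivity),
    show (m : ℝ) * (2 * Real.arccos ε) = 2 * (m * Real.arccos ε) by ring, Real.cos_two_mul]
  ring

theorem cross_span (hL : IsLocal L) (hζ : Sing ρ ζ) {m : ℤ} (hm : m ≠ 0) {B B' : H}
    (hB : B ∈ Submodule.span ℝ {v | ∃ r : ℝ, 0 < r ∧ v = ρ.T (-r) ζ})
    (hB' : B' ∈ Submodule.span ℝ {v | ∃ r : ℝ, 0 < r ∧ v = ρ.T r ζ}) :
    L (fun ε => ⟪ρ.R (m * (2 * Real.arccos ε)) B, B'⟫) = 0 := by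
  induction hB using Submodule.span_induction with
  | mem x hx =>
    obtain ⟨s, hs, rfl⟩ := hx
    induction hB' using Submodule.span_induction with
    | mem y hy =>
      obtain ⟨t, ht, rfl⟩ := hy
      rw [← cross hL hζ hs ht hm]
      congr 1
      funext ε
      rw [ρ.R_T, hζ.rad, ρ.inner_TT]
      refine G_congr hζ.rad ?_
      rw [← norm_neg]
      congr 1
      ring
    | zero => simpa using hL.const 0
    | add y z _ _ h1 h2 => simp only [inner_add_right, map_add', h1, h2, add_zero]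
    | smul c y _ h1 => simp only [inner_smul_right, map_mul', h1, mul_zero]
  | zero => simpa using hL.const 0
  | add y z _ _ h1 h2 => simp only [map_add, inner_add_left, map_add', h1, h2, add_zero]
  | smul c y _ h1 =>
    simp only [map_smul, inner_smul_left, conj_trivial, map_mul', h1, mul_zero]

theorem sq_inner_le (hζ : Sing ρ ζ) {B : H} (hn : ‖B‖ ≤ 1)
    (hB : B ∈ Submodule.span ℝ {v | ∃ r : ℝ, 0 < r ∧ v = ρ.T (-r) ζ}) :
    ⟪B, ζ⟫ ^ 2 ≤ ‖B - ρ.R Real.pi B‖ := by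
  obtain ⟨L, hL⟩ := exists_local
  have hB' : ρ.R Real.pi B ∈ Submodule.span ℝ {v | ∃ r : ℝ, 0 < r ∧ v = ρ.T r ζ} := by
    clear hn
    induction hB using Submodule.span_induction with
    | mem x hx =>
      obtain ⟨s, hs, rfl⟩ := hx
      refine Submodule.subset_span ⟨s, hs, ?_⟩
      rw [ρ.R_T, hζ.rad, eu_pi]; simp
    | zero => simp
    | add y z _ _ h1 h2 => rw [map_add]; exact add_mem h1 h2
    | smul c y _ h1 => rw [map_smul]; exact Submodule.smul_mem _ _ h1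
  refine sq_le_of_forall fun n => ?_
  let a : Fin n → Fin n → ℝ → ℝ := fun j k ε =>
    ⟪ρ.R ((((j : ℤ) - k : ℤ) : ℝ) * (2 * Real.arccos ε)) B, B⟫
  have ha : ∀ j k ε, |a j k ε| ≤ 1 := fun j k ε =>
    (abs_inner_le (C := 1) (by rwa [ρ.norm_R])).trans (by linarith)
  have h1 : ∀ ε, (n * ⟪B, ζ⟫) ^ 2 ≤ ∑ j, ∑ k, a j k ε := by
    intro ε
    have := sq_sum_inner_le (fun j : Fin n => ρ.R (j * (2 * Real.arccos ε)) B) hζ.norm
    have e : ∀ θ, ⟪ρ.R θ B, ζ⟫ = ⟪B, ζ⟫ := fun θ => by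
      conv_lhs => rw [← hζ.rad θ, ρ.inner_R]
    simp only [e, ρ.inner_RR, sum_const, card_univ, Fintype.card_fin, nsmul_eq_mul,
      ← sub_mul] at this
    simpa [a] using this
  refine (hL.ge (Bdd.sum _ fun j _ => Bdd.sum _ fun k _ => ⟨1, ha j k⟩) h1).trans ?_
  simp only [map_sum']
  refine sum_sum_le (a := fun j k => L (a j k)) (norm_nonneg _)
    (fun j => (abs_le.1 (hL.abs_le (ha j j))).2) fun j k hjk => ?_
  have h2 := cross_span hL hζ (m := (j : ℤ) - k) (by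
    intro h
    exact hjk (Fin.ext (by omega))) hB hB'
  have h3 : |L (fun ε => ⟪ρ.R ((((j : ℤ) - k : ℤ) : ℝ) * (2 * Real.arccos ε)) B,
      B - ρ.R Real.pi B⟫)| ≤ 1 * ‖B - ρ.R Real.pi B‖ :=
    hL.abs_le fun ε => abs_inner_le (by rwa [ρ.norm_R])
  simp only [inner_sub_right, map_sub', h2, sub_zero, one_mul] at h3
  exact (abs_le.1 h3).2

end

theorem accumulate (hrad : ∀ θ, ρ.R θ ζ = ζ) (hn : ‖ζ‖ ≤ 1) {r κ : ℝ} (hr : 0 < r) (hκ : 0 ≤ κ)
    (h : κ < ρ.G ζ r ^ 2) {δ : ℝ} (hδ : 0 < δ) : ∃ t : ℝ, 0 < t ∧ t < δ ∧ κ < ρ.G ζ t := by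
  by_contra hne
  push Not at hne
  refine absurd (sq_le_of_forall fun n => ?_) (not_le.2 h)
  let s : ℝ := min 1 (δ / r) / (n + 1)
  have hs : 0 < s := by positivity
  have h1 := sq_sum_inner_le (fun j : Fin n => ρ.T (eu (j * s) * r) ζ) hn
  have e : ∀ θ, ⟪ρ.T (eu θ * r) ζ, ζ⟫ = ρ.G ζ r := fun θ => G_rad hrad θ r
  simp only [e, ρ.inner_TT, sum_const, card_univ, Fintype.card_fin, nsmul_eq_mul] at h1
  refine h1.trans (sum_sum_le (a := fun j k : Fin n => ρ.G ζ (eu (j * s) * r - eu (k * s) * r)) hκ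
    (fun j => (abs_le.1 (abs_G_le hn _)).2) fun j k hjk => ?_)
  set φ : ℝ := j * s - k * s with hφ
  have e2 : eu (j * s) * r - eu (k * s) * r = eu (k * s) * ((eu φ - 1) * r) := by
    rw [show (j : ℝ) * s = k * s + φ by ring, eu_add]; ring
  have hφ1 : |φ| < min 1 (δ / r) := by
    have hj : ((j : ℕ) : ℝ) < n + 1 := by exact_mod_cast (by omega)
    have hk : ((k : ℕ) : ℝ) < n + 1 := by exact_mod_cast (by omega)
    have : |(j : ℝ) - k| < n + 1 := by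
      rw [abs_lt]
      constructor <;> linarith [(Nat.cast_nonneg j : (0 : ℝ) ≤ (j : ℕ)),
        (Nat.cast_nonneg k : (0 : ℝ) ≤ (k : ℕ))]
    rw [hφ, ← sub_mul, abs_mul, abs_of_pos hs]
    calc _ < (n + 1) * s := mul_lt_mul_of_pos_right this hs
      _ = _ := mul_div_cancel₀ _ (by positivity)
  have hφ0 : φ ≠ 0 := by
    rw [hφ, ← sub_mul]
    refine mul_ne_zero (sub_ne_zero.2 fun h => hjk (Fin.ext (by exact_mod_cast h))) hs.ne'
  have h2 : eu φ - 1 ≠ 0 := by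
    intro h0
    have h3 : Real.sin φ = 0 := by
      rw [← eu_im, sub_eq_zero.1 h0]; simp
    have h4 := abs_lt.1 (hφ1.trans_le (min_le_left _ _))
    exact hφ0 ((Real.sin_eq_zero_iff_of_lt_of_lt (by linarith [Real.pi_gt_three])
      (by linarith [Real.pi_gt_three])).1 h3)
  rw [e2, G_rad hrad, G_congr hrad (y := (‖eu φ - 1‖ * r : ℝ)) (by simp [abs_of_pos hr])]
  refine hne _ (mul_pos (norm_pos_iff.2 h2) hr) ?_
  have h5 : ‖eu φ - 1‖ ≤ |φ| := by
    rw [eu, mul_comm]; exact Real.norm_exp_I_mul_ofReal_sub_one_le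
  rw [← lt_div_iff₀ hr]
  exact h5.trans_lt (hφ1.trans_le (min_le_right _ _))

variable (ρ) in
/-- convex combinations of translations -/
noncomputable def op {ι : Type} [Fintype ι] (w : ι → ℝ) (x : ι → ℂ) (v : H) : H :=
  ∑ i, w i • ρ.T (x i) v

section op

variable {ι κ : Type} [Fintype ι] [Fintype κ]

theorem norm_op_le {w : ι → ℝ} (h0 : ∀ i, 0 ≤ w i) (h1 : ∑ i, w i = 1) (x : ι → ℂ) (v : H) :
    ‖op ρ w x v‖ ≤ ‖v‖ := by
  refine (norm_sum_le _ _).trans_eq ?_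
  simp only [norm_smul, ρ.norm_T, Real.norm_eq_abs, abs_of_nonneg (h0 _), ← sum_mul, h1, one_mul]

theorem op_sub (w : ι → ℝ) (x : ι → ℂ) (v v' : H) :
    op ρ w x (v - v') = op ρ w x v - op ρ w x v' := by
  simp only [op, map_sub, smul_sub, sum_sub_distrib]

theorem op_op (w : ι → ℝ) (x : ι → ℂ) (w' : κ → ℝ) (x' : κ → ℂ) (v : H) :
    op ρ w x (op ρ w' x' v) = ∑ i, ∑ j, (w i * w' j) • ρ.T (x i + x' j) v := by
  simp only [op, map_sum, map_smul, smul_sum, smul_smul, ρ.T_add]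

theorem op_comm (w : ι → ℝ) (x : ι → ℂ) (w' : κ → ℝ) (x' : κ → ℂ) (v : H) :
    op ρ w x (op ρ w' x' v) = op ρ w' x' (op ρ w x v) := by
  rw [op_op, op_op, sum_comm]
  simp only [mul_comm, add_comm]

theorem R_pi_op (w : ι → ℝ) (x : ι → ℂ) (v : H) :
    ρ.R Real.pi (op ρ w x v) = op ρ w (fun i => - x i) (ρ.R Real.pi v) := by
  simp only [op, map_sum, map_smul, ρ.R_T, eu_pi, neg_one_mul]

theorem inner_op (w : ι → ℝ) (x : ι → ℂ) (v y : H) :
    ⟪op ρ w (fun i => - x i) v, y⟫ = ⟪v, op ρ w x y⟫ := by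
  simp only [op, sum_inner, inner_sum, inner_smul_left, inner_smul_right, conj_trivial,
    ρ.inner_T_right]

end op

variable (ρ ζ) in
/-- convex combinations supported in an interval -/
def Comb (c a b : ℝ) (Z : H) : Prop :=
  ∃ (ι : Type) (_ : Fintype ι) (w : ι → ℝ) (t : ι → ℝ), (∀ i, 0 ≤ w i) ∧ ∑ i, w i = 1 ∧
    (∀ i, a < t i ∧ t i < b ∧ c ≤ ρ.G ζ (t i)) ∧ Z = op ρ w (fun i => t i) ζ

theorem Comb.mid {c a m b : ℝ} {Z Z' : H} (h : Comb ρ ζ c m b Z) (h' : Comb ρ ζ c a m Z')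
    (h1 : a ≤ m) (h2 : m ≤ b) : Comb ρ ζ c a b ((1 / 2 : ℝ) • (Z + Z')) := by
  obtain ⟨ι, _, w, t, hw0, hw1, ht, rfl⟩ := h
  obtain ⟨ι', _, w', t', hw0', hw1', ht', rfl⟩ := h'
  refine ⟨ι ⊕ ι', inferInstance, Sum.elim (fun i => 1 / 2 * w i) (fun i => 1 / 2 * w' i),
    Sum.elim t t', ?_, ?_, ?_, ?_⟩
  · rintro (i | i)
    · exact mul_nonneg (by norm_num) (hw0 i)
    · exact mul_nonneg (by norm_num) (hw0' i)
  · simp only [Fintype.sum_sum_type, Sum.elim_inl, Sum.elim_inr, ← mul_sum, hw1, hw1']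
    norm_num
  · rintro (i | i)
    · exact ⟨h1.trans_lt (ht i).1, (ht i).2⟩
    · exact ⟨(ht' i).1, (ht' i).2.1.trans_le h2, (ht' i).2.2⟩
  · simp only [op, Fintype.sum_sum_type, Sum.elim_inl, Sum.elim_inr, smul_add, smul_sum, smul_smul]

theorem exists_close (hn : ‖ζ‖ ≤ 1) {c : ℝ}
    (hacc : ∀ δ : ℝ, 0 < δ → ∃ t : ℝ, 0 < t ∧ t < δ ∧ c ≤ ρ.G ζ t) {η : ℝ} (hη : 0 < η) :
    ∃ (a m b : ℝ) (Z Z' : H), Comb ρ ζ c m b Z ∧ Comb ρ ζ c a m Z' ∧ ‖Z - Z'‖ < η := by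
  by_contra hne
  push Not at hne
  have key : ∀ n : ℕ, ∀ b : ℝ, 0 < b → ∃ a : ℝ, 0 < a ∧ a ≤ b ∧ ∃ Z, Comb ρ ζ c a b Z ∧
      ‖Z‖ ^ 2 ≤ 1 - n * (η ^ 2 / 4) := by
    intro n
    induction n with
    | zero =>
      intro b hb
      obtain ⟨t, h1, h2, h3⟩ := hacc b hb
      refine ⟨t / 2, by positivity, by linarith, ρ.T t ζ, ⟨Unit, inferInstance, fun _ => 1,
        fun _ => t, fun _ => zero_le_one, by simp, fun _ => ⟨by linarith, h2, h3⟩, by simp [op]⟩, ?_⟩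
      rw [ρ.norm_T]
      simpa using pow_le_one₀ (n := 2) (norm_nonneg _) hn
    | succ n ih =>
      intro b hb
      obtain ⟨m, hm, hmb, Z, hZ, h1⟩ := ih b hb
      obtain ⟨a, ha, ham, Z', hZ', h2⟩ := ih m hm
      refine ⟨a, ha, ham.trans hmb, _, hZ.mid hZ' ham hmb, ?_⟩
      have h3 := pow_le_pow_left₀ hη.le (hne a m b Z Z' hZ hZ') 2
      have h4 := parallelogram_law_with_norm ℝ Z Z'
      rw [norm_smul, mul_pow]
      push_cast
      norm_num
      nlinarith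
  obtain ⟨n, hn⟩ := exists_nat_gt (1 / (η ^ 2 / 4))
  obtain ⟨a, -, -, Z, -, h⟩ := key n 1 one_pos
  rw [div_lt_iff₀ (by positivity)] at hn
  nlinarith [sq_nonneg ‖Z‖]

theorem nugget [CompleteSpace H] (hζ : Sing ρ ζ) {r : ℝ} (hr : 0 < r) : ρ.G ζ r = 0 := by
  by_contra hne
  set c : ℝ := ρ.G ζ r ^ 2 / 2 with hc
  have hc0 : 0 < c := by positivity
  have hacc : ∀ δ : ℝ, 0 < δ → ∃ t : ℝ, 0 < t ∧ t < δ ∧ c ≤ ρ.G ζ t := fun δ hδ => by
    obtain ⟨t, h1, h2, h3⟩ := accumulate hζ.rad hζ.norm hr hc0.le (by rw [hc]; linarith) hδ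
    exact ⟨t, h1, h2, h3.le⟩
  obtain ⟨a, m, b, Z, Z', ⟨ι, _, w, t, hw0, hw1, ht, hZ⟩, ⟨ι', _, w', t', hw0', hw1', ht', hZ'⟩, hη⟩ :=
    exists_close hζ.norm hacc (η := min (c ^ 2 / 2) (c ^ 4 / 8)) (by positivity)
  have hZn : ‖Z‖ ≤ 1 := hZ ▸ (norm_op_le hw0 hw1 _ _).trans hζ.norm
  have hZn' : ‖Z'‖ ≤ 1 := hZ' ▸ (norm_op_le hw0' hw1' _ _).trans hζ.norm
  set B := op ρ w (fun i => -(t i : ℂ)) Z' with hB
  have h1 := sq_inner_le hζ (B := B) ((norm_op_le hw0 hw1 _ _).trans hZn') (by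
    rw [hB, hZ', op_op]
    refine sum_mem fun i _ => sum_mem fun j _ => Submodule.smul_mem _ _
      (Submodule.subset_span ⟨t i - t' j, by linarith [(ht i).1, (ht' j).2.1], ?_⟩)
    congr 2
    push_cast; ring)
  have h2 : ‖B - ρ.R Real.pi B‖ ≤ 2 * ‖Z - Z'‖ := by
    have e : B - ρ.R Real.pi B = op ρ w (fun i => -(t i : ℂ)) (Z' - Z) +
        op ρ w (fun i => (t i : ℂ)) (ρ.R Real.pi (Z - Z')) := by
      rw [hB, R_pi_op, op_sub, map_sub, op_sub]
      simp only [neg_neg]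
      have : op ρ w (fun i => -(t i : ℂ)) Z = op ρ w (fun i => (t i : ℂ)) (ρ.R Real.pi Z) := by
        rw [hZ, R_pi_op, hζ.rad, op_comm]
      rw [this]
      abel
    rw [e]
    refine (norm_add_le _ _).trans ?_
    have h3 := norm_op_le (ρ := ρ) hw0 hw1 (fun i => -(t i : ℂ)) (Z' - Z)
    have h4 := norm_op_le (ρ := ρ) hw0 hw1 (fun i => (t i : ℂ)) (ρ.R Real.pi (Z - Z'))
    rw [ρ.norm_R] at h4
    rw [norm_sub_rev] at h3
    linarith
  have h3 : c ≤ ⟪Z, ζ⟫ := by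
    rw [hZ, op, sum_inner]
    simp only [inner_smul_left, conj_trivial]
    calc c = ∑ i, w i * c := by rw [← sum_mul, hw1, one_mul]
      _ ≤ _ := sum_le_sum fun i _ => mul_le_mul_of_nonneg_left (ht i).2.2 (hw0 i)
  have h4 : c ≤ ‖Z‖ := h3.trans ((real_inner_le_norm _ _).trans
    (mul_le_of_le_one_right (norm_nonneg _) hζ.norm))
  have h5 : ⟪B, ζ⟫ = ‖Z‖ ^ 2 - ⟪Z - Z', Z⟫ := by
    rw [hB, inner_op, ← hZ, inner_sub_left, real_inner_self_eq_norm_sq]; ring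
  have h6 : ⟪Z - Z', Z⟫ ≤ ‖Z - Z'‖ := (real_inner_le_norm _ _).trans
    (mul_le_of_le_one_right (norm_nonneg _) hZn)
  have h7 := hη.trans_le (min_le_left _ _)
  have h8 := hη.trans_le (min_le_right _ _)
  have h9 : c ^ 2 / 2 ≤ ⟪B, ζ⟫ := by nlinarith [pow_le_pow_left₀ hc0.le h4 2]
  have h10 := pow_le_pow_left₀ (by positivity) h9 2
  nlinarith

/-- decomposition of a rotation invariant vector -/
theorem exists_cont [CompleteSpace H] {ξ : H} (hrad : ∀ θ, ρ.R θ ξ = ξ) (hn : ‖ξ‖ ≤ 1) :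
    ∃ v : H, ρ.Cont v ∧ (∀ θ, ρ.R θ v = v) ∧ ‖v‖ ≤ ‖ξ‖ ∧ ∀ r : ℝ, 0 < r → ρ.G v r = ρ.G ξ r := by
  let K : Submodule ℝ H :=
    { carrier := {v | ρ.Cont v}
      add_mem' := fun {a b} ha hb => by
        simpa [MRep.Cont] using Tendsto.add ha hb
      zero_mem' := by simp [MRep.Cont]
      smul_mem' := fun c a ha => by
        simpa [MRep.Cont] using Tendsto.const_smul ha c }
  have hK : IsClosed (K : Set H) := by
    refine isClosed_of_closure_subset fun v hv => ?_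
    change Tendsto _ _ _
    rw [Metric.tendsto_nhds]
    intro e he
    obtain ⟨w, hw, hd⟩ := Metric.mem_closure_iff.1 hv (e / 3) (by positivity)
    filter_upwards [Metric.tendsto_nhds.1 hw (e / 3) (by positivity)] with x hx
    have h1 : dist (ρ.T x v) (ρ.T x w) = dist v w := by
      rw [dist_eq_norm, ← map_sub, ρ.norm_T, dist_eq_norm]
    have h2 := dist_triangle4 (ρ.T x v) (ρ.T x w) w v
    rw [dist_comm w v] at h2
    linarith
  have : CompleteSpace K := hK.completeSpace_coe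
  have hT : ∀ x, ∀ v ∈ K, ρ.T x v ∈ K := by
    intro x v hv
    change Tendsto _ _ _
    simp only [ρ.T_comm _ x]
    exact ((ρ.T x).continuous.tendsto _).comp hv
  have hR : ∀ θ, ∀ v ∈ K, ρ.R θ v ∈ K := by
    intro θ v hv
    change Tendsto _ _ _
    have e : ∀ x, ρ.T x (ρ.R θ v) = ρ.R θ (ρ.T (eu (-θ) * x) v) := fun x => by
      rw [ρ.R_T, ← mul_assoc, ← eu_add, add_neg_cancel, eu_zero, one_mul]
    simp only [e]
    refine ((ρ.R θ).continuous.tendsto _).comp (Tendsto.comp hv ?_)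
    simpa using (continuous_const_mul (eu (-θ))).tendsto (0 : ℂ)
  set v := K.starProjection ξ with hv
  have hvK : v ∈ K := K.starProjection_apply_mem ξ
  have horth : ∀ w ∈ K, ⟪ξ - v, w⟫ = 0 := fun w hw => K.starProjection_inner_eq_zero ξ w hw
  have hvR : ∀ θ, ρ.R θ v = v := by
    intro θ
    refine (K.eq_starProjection_of_mem_of_inner_eq_zero (hR θ v hvK) fun w hw => ?_).symm
    have := horth _ (hR (-θ) w hw)
    rwa [← ρ.inner_R θ, ← ρ.R_add, add_neg_cancel, ρ.R_zero, map_sub, hrad] at this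
  have hs : Sing ρ (ξ - v) := ⟨fun θ => by rw [map_sub, hrad, hvR], by
    have := Kᗮ.norm_starProjection_apply_le ξ
    rw [Submodule.starProjection_orthogonal_val] at this
    exact this.trans hn, horth⟩
  refine ⟨v, hvK, hvR, K.norm_starProjection_apply_le ξ, fun r hr => ?_⟩
  have h1 := nugget hs hr
  have e : ξ = v + (ξ - v) := by abel
  have h2 : ⟪ρ.T r v, ξ - v⟫ = 0 := by rw [real_inner_comm]; exact horth _ (hT _ _ hvK)
  have h3 : ⟪ρ.T r (ξ - v), v⟫ = 0 := by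
    have := horth _ (hT (-r) _ hvK)
    rwa [ρ.inner_T_right, neg_neg] at this
  simp only [MRep.G] at h1 ⊢
  conv_rhs => rw [e, map_add, inner_add_left, inner_add_right, inner_add_right, h1, h2, h3]
  ring

end Pool.Agent.Lib.MP_843c79_co
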