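import Pool.Agent.Lib.MP_843c79_co.GNS

/-!
Averages of singular matrix coefficients along polynomial sequences vanish.
-/

namespace Pool.Agent.Lib.MP_843c79_co

set_option maxHeartbeats 400000

open Finset Filter Topology
open scoped RealInnerProductSpace

variable {H : Type} [NormedAddCommGroup H] [InnerProductSpace ℝ H] (ρ : MRep H)

theorem MRep.norm_T (x : ℂ) (v : H) : ‖ρ.T x v‖ = ‖v‖ := by
  rw [norm_eq_sqrt_real_inner, ρ.inner_T, ← norm_eq_sqrt_real_inner]

theorem MRep.norm_R (x : ℝ) (v : H) : ‖ρ.R x v‖ = ‖v‖ := by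
  rw [norm_eq_sqrt_real_inner, ρ.inner_R, ← norm_eq_sqrt_real_inner]

theorem MRep.inner_TT (x y : ℂ) (v w : H) : ⟪ρ.T x v, ρ.T y w⟫ = ⟪ρ.T (x - y) v, w⟫ := by
  rw [← ρ.inner_T y (ρ.T (x - y) v) w, ← ρ.T_add, add_sub_cancel]

theorem MRep.inner_T_right (y : ℂ) (v w : H) : ⟪v, ρ.T y w⟫ = ⟪ρ.T (-y) v, w⟫ := by
  rw [← zero_sub, ← ρ.inner_TT, ρ.T_zero]

theorem MRep.inner_RR (x y : ℝ) (v w : H) : ⟪ρ.R x v, ρ.R y w⟫ = ⟪ρ.R (x - y) v, w⟫ := by
  rw [← ρ.inner_R y (ρ.R (x - y) v) w, ← ρ.R_add, add_sub_cancel]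

theorem MRep.T_comm (x y : ℂ) (v : H) : ρ.T x (ρ.T y v) = ρ.T y (ρ.T x v) := by
  rw [← ρ.T_add, add_comm, ρ.T_add]

/-- continuous vectors -/
def MRep.Cont (v : H) : Prop := Tendsto (fun x => ρ.T x v) (𝓝 0) (𝓝 v)

theorem MRep.cont_of_lip {v : H} {p q : ℂ} (h : p.re * q.im - p.im * q.re ≠ 0)
    (hp : ∀ b : ℝ, ‖ρ.T (b * p) v - v‖ ≤ 2 * |b|) (hq : ∀ b : ℝ, ‖ρ.T (b * q) v - v‖ ≤ 2 * |b|) :
    ρ.Cont v := by
  set D := p.re * q.im - p.im * q.re with hD
  let α : ℂ → ℝ := fun x => (x.re * q.im - x.im * q.re) / D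
  let β : ℂ → ℝ := fun x => (p.re * x.im - p.im * x.re) / D
  have e : ∀ x : ℂ, x = α x * p + β x * q := by
    intro x
    apply Complex.ext
    · simp only [α, β, Complex.add_re, Complex.re_ofReal_mul]
      field_simp
      rw [hD]; ring
    · simp only [α, β, Complex.add_im, Complex.im_ofReal_mul]
      field_simp
      rw [hD]; ring
  rw [MRep.Cont, tendsto_iff_norm_sub_tendsto_zero]
  refine squeeze_zero (g := fun x => 2 * |α x| + 2 * |β x|) (fun _ => norm_nonneg _) (fun x => ?_) ?_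
  · have : ρ.T x v - v = ρ.T (α x * p) (ρ.T (β x * q) v - v) + (ρ.T (α x * p) v - v) := by
      rw [map_sub, ← ρ.T_add, ← e]; abel
    rw [this]
    refine (norm_add_le _ _).trans ?_
    rw [ρ.norm_T]
    linarith [hp (α x), hq (β x)]
  · have : Continuous fun x => 2 * |α x| + 2 * |β x| := by
      simp only [α, β]; fun_prop
    simpa [α, β] using this.tendsto 0

theorem norm_le_of_inner {η : H} {K : ℝ} (hK : 0 ≤ K) (h : ∀ y, |⟪η, y⟫| ≤ K * ‖y‖) : ‖η‖ ≤ K := by
  have := h η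
  rw [real_inner_self_eq_norm_sq, abs_of_nonneg (sq_nonneg _)] at this
  rcases (norm_nonneg η).eq_or_lt with h0 | h0
  · rw [← h0]; exact hK
  · nlinarith

theorem abs_inner_le {v y : H} {C : ℝ} (hv : ‖v‖ ≤ C) : |⟪v, y⟫| ≤ C * ‖y‖ :=
  (abs_real_inner_le_norm _ _).trans (mul_le_mul_of_nonneg_right hv (norm_nonneg _))

theorem exists_wmean [CompleteSpace H] {L : (ℝ → ℝ) →ₗ[ℝ] ℝ} (hL : IsMean L) (v : ℝ → H) {C : ℝ}
    (hv : ∀ ε, ‖v ε‖ ≤ C) : ∃ η : H, ∀ y, ⟪η, y⟫ = L fun ε => ⟪v ε, y⟫ := by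
  let l : H →ₗ[ℝ] ℝ :=
    { toFun := fun y => L fun ε => ⟪v ε, y⟫
      map_add' := fun y z => by simp only [inner_add_right, map_add']
      map_smul' := fun c y => by simp only [inner_smul_right, map_mul']; rfl }
  refine ⟨(InnerProductSpace.toDual ℝ H).symm (l.mkContinuous C fun y =>
    hL.abs_le fun ε => abs_inner_le (hv ε)), fun y => ?_⟩
  rw [InnerProductSpace.toDual_symm_apply]
  rfl

theorem sq_sum_inner_le {ι : Type} [Fintype ι] (y : ι → H) {ξ : H} (hξ : ‖ξ‖ ≤ 1) :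
    (∑ j, ⟪y j, ξ⟫) ^ 2 ≤ ∑ j, ∑ k, ⟪y j, y k⟫ := by
  have h1 : ∑ j, ∑ k, ⟪y j, y k⟫ = ‖∑ j, y j‖ ^ 2 := by
    rw [← real_inner_self_eq_norm_sq, sum_inner]
    simp only [inner_sum]
  rw [h1, ← sum_inner, ← sq_abs]
  refine pow_le_pow_left₀ (abs_nonneg _) ((abs_real_inner_le_norm _ _).trans ?_) 2
  exact mul_le_of_le_one_right (norm_nonneg _) hξ

theorem sum_sum_le {n : ℕ} {a : Fin n → Fin n → ℝ} {κ : ℝ} (hκ : 0 ≤ κ) (h1 : ∀ j, a j j ≤ 1)
    (h2 : ∀ j k, j ≠ k → a j k ≤ κ) : ∑ j, ∑ k, a j k ≤ n + n ^ 2 * κ := by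
  have : ∀ j k, a j k ≤ (if j = k then 1 else 0) + κ := by
    intro j k
    split_ifs with h
    · subst h; linarith [h1 j]
    · simpa using h2 j k h
  refine (sum_le_sum fun j _ => sum_le_sum fun k _ => this j k).trans_eq ?_
  simp [sum_add_distrib]
  ring

theorem sq_le_of_forall {γ κ : ℝ} (h : ∀ n : ℕ, (n * γ) ^ 2 ≤ n + n ^ 2 * κ) : γ ^ 2 ≤ κ := by
  have h1 : ∀ n : ℕ, γ ^ 2 ≤ 1 / ((n : ℝ) + 1) + κ := by
    intro n
    have h2 := h (n + 1)
    push_cast at h2
    have h3 : (0 : ℝ) < (n : ℝ) + 1 := by positivity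
    have : γ ^ 2 - κ ≤ 1 / ((n : ℝ) + 1) := by
      rw [le_div_iff₀ h3]
      nlinarith
    linarith
  have := ge_of_tendsto' ((tendsto_one_div_add_atTop_nhds_zero_nat (𝕜 := ℝ)).add_const κ) h1
  simpa using this

theorem IsMean.sq_le {α : Type} {M : (α → ℝ) →ₗ[ℝ] ℝ} (hM : IsMean M) {f : α → ℝ} (hf : Bdd f) :
    M f ^ 2 ≤ M fun x => f x ^ 2 := by
  have h1 : Bdd fun x => f x ^ 2 := by simpa [sq] using hf.mul hf
  have := hM.mono ((((Bdd.const (2 * M f)).mul hf)).sub (Bdd.const (M f ^ 2))) h1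
    fun x => by nlinarith [sq_nonneg (f x - M f)]
  rw [map_sub', map_mul', hM.const] at this
  linarith

/-- a rotation invariant vector orthogonal to all continuous vectors -/
structure Sing (ζ : H) : Prop where
  rad : ∀ θ, ρ.R θ ζ = ζ
  norm : ‖ζ‖ ≤ 1
  orth : ∀ w, ρ.Cont w → ⟪ζ, w⟫ = 0

/-- the matrix coefficient -/
def MRep.G (ζ : H) (x : ℂ) : ℝ := ⟪ρ.T x ζ, ζ⟫

variable {ρ} {ζ : H}

theorem G_rad (h : ∀ θ, ρ.R θ ζ = ζ) (θ : ℝ) (x : ℂ) : ρ.G ζ (eu θ * x) = ρ.G ζ x := by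
  have := ρ.inner_R θ (ρ.T x ζ) ζ
  rwa [ρ.R_T, h] at this

theorem G_congr (h : ∀ θ, ρ.R θ ζ = ζ) {x y : ℂ} (hxy : ‖x‖ = ‖y‖) : ρ.G ζ x = ρ.G ζ y := by
  rw [← eu_arg x, ← eu_arg y, G_rad h, G_rad h, hxy]

theorem abs_G_le (h : ‖ζ‖ ≤ 1) (x : ℂ) : |ρ.G ζ x| ≤ 1 := by
  have := abs_inner_le (v := ρ.T x ζ) (y := ζ) (C := 1) (by rwa [ρ.norm_T])
  exact this.trans (by linarith)

variable [CompleteSpace H] {L : (ℝ → ℝ) →ₗ[ℝ] ℝ}

omit [CompleteSpace H] in
theorem lip_wmean (hL : IsLocal L) {v η : H} (hv : ‖v‖ ≤ 1) {p c : ℂ}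
    (hη : ∀ y, ⟪η, y⟫ = L fun ε => ⟪ρ.T (ε * p + c) v, y⟫) (b : ℝ) :
    ‖ρ.T (b * p) η - η‖ ≤ 2 * |b| := by
  refine norm_le_of_inner (by positivity) fun y => ?_
  have e : ⟪ρ.T (b * p) η, y⟫ = L fun ε => ⟪ρ.T (((ε + b : ℝ) : ℂ) * p + c) v, y⟫ := by
    rw [real_inner_comm, ρ.inner_T_right, real_inner_comm, hη]
    congr 1
    funext ε
    rw [ρ.inner_TT]
    congr 2
    push_cast; ring
  rw [inner_sub_left, e, hη]
  have := hL.shift (fun ε => ⟪ρ.T (ε * p + c) v, y⟫) (1 * ‖y‖)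
    (fun ε => abs_inner_le (by rwa [ρ.norm_T])) b
  refine this.trans_eq (by ring)

theorem vdc_base (hL : IsLocal L) (hζ : Sing ρ ζ) {a : ℝ} (ha : a ≠ 0) (c : ℂ) :
    L (fun ε => ρ.G ζ (ε * a + c)) = 0 := by
  have hex : ∀ θ : ℝ, ∃ η : H, ∀ y, ⟪η, y⟫ =
      L fun ε => ⟪ρ.T (ε * (eu θ * a) + eu θ * c) ζ, y⟫ := fun θ =>
    exists_wmean hL.toIsMean _ (C := 1) fun ε => by rw [ρ.norm_T]; exact hζ.norm
  choose η hη using hex
  have hn : ∀ θ, ‖η θ‖ ≤ 1 := fun θ => norm_le_of_inner zero_le_one fun y => by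
    rw [hη]
    exact hL.abs_le fun ε => abs_inner_le (by rw [ρ.norm_T]; exact hζ.norm)
  have h1 : ∀ θ, ⟪η θ, ζ⟫ = L (fun ε => ρ.G ζ (ε * a + c)) := by
    intro θ
    rw [hη]
    congr 1
    funext ε
    rw [← G_rad hζ.rad θ]
    simp only [MRep.G]
    congr 2
    ring
  have h2 : ∀ θ θ', Real.sin (θ' - θ) ≠ 0 → ⟪η θ, η θ'⟫ = 0 := by
    intro θ θ' hs
    obtain ⟨w, hw⟩ := exists_wmean hL.toIsMean
      (fun ε : ℝ => ρ.T (ε * (-(eu θ * a)) + -(eu θ * c)) (η θ')) (C := 1)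
      fun ε => by rw [ρ.norm_T]; exact hn _
    have h3 : ⟪η θ, η θ'⟫ = ⟪w, ζ⟫ := by
      rw [hη, hw]
      congr 1
      funext ε
      rw [real_inner_comm, ρ.inner_T_right]
      congr 2
      ring
    rw [h3, real_inner_comm]
    refine hζ.orth _ (ρ.cont_of_lip (p := -(eu θ * a)) (q := eu θ' * a) ?_
      (lip_wmean hL (hn _) hw) fun b => ?_)
    · simp only [Complex.neg_re, Complex.neg_im, Complex.mul_re, Complex.mul_im, Complex.ofReal_re,
        Complex.ofReal_im, eu_re, eu_im]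
      rw [Real.sin_sub] at hs
      intro h
      apply mul_ne_zero (mul_ne_zero ha ha) hs
      linear_combination -h
    · refine norm_le_of_inner (by positivity) fun y => ?_
      have e : ⟪ρ.T (b * (eu θ' * a)) w - w, y⟫ = L fun ε =>
          ⟪ρ.T (ε * (-(eu θ * a)) + -(eu θ * c)) (ρ.T (b * (eu θ' * a)) (η θ') - η θ'), y⟫ := by
        rw [inner_sub_left, real_inner_comm, ρ.inner_T_right, real_inner_comm, hw, hw, ← map_sub']
        congr 1
        funext ε
        rw [map_sub, inner_sub_left, ρ.inner_T_right, neg_neg, ρ.T_comm]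
      rw [e]
      exact hL.abs_le fun ε => abs_inner_le (by
        rw [ρ.norm_T]; exact lip_wmean hL hζ.norm (hη θ') b)
  have h4 := sq_le_of_forall (γ := L (fun ε => ρ.G ζ (ε * a + c))) (κ := 0) fun n => by
    have h5 := sq_sum_inner_le (fun j : Fin n => η (1 / ((j : ℝ) + 1))) hζ.norm
    simp only [h1, sum_const, card_univ, Fintype.card_fin, nsmul_eq_mul] at h5
    refine h5.trans (sum_sum_le le_rfl (fun j => ?_) fun j k hjk => (h2 _ _ ?_).le)
    · rw [real_inner_self_eq_norm_sq]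
      exact pow_le_one₀ (norm_nonneg _) (hn _)
    · have hj : (0 : ℝ) < 1 / ((j : ℝ) + 1) := by positivity
      have hk : (0 : ℝ) < 1 / ((k : ℝ) + 1) := by positivity
      have hj' : 1 / ((j : ℝ) + 1) ≤ 1 := by
        rw [div_le_one (by positivity)]; linarith [(Nat.cast_nonneg j : (0 : ℝ) ≤ (j : ℕ))]
      have hk' : 1 / ((k : ℝ) + 1) ≤ 1 := by
        rw [div_le_one (by positivity)]; linarith [(Nat.cast_nonneg k : (0 : ℝ) ≤ (k : ℕ))]
      rw [Ne, Real.sin_eq_zero_iff_of_lt_of_lt (by linarith [Real.pi_gt_three])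
        (by linarith [Real.pi_gt_three]), sub_eq_zero, div_eq_div_iff (by positivity) (by positivity)]
      intro h
      apply hjk
      have : (j : ℝ) = k := by linarith
      exact Fin.ext (by exact_mod_cast this)
  exact pow_eq_zero_iff two_ne_zero |>.1 (le_antisymm h4 (sq_nonneg _))

open Polynomial in
theorem natDegree_diff {p : ℝ[X]} (hp : 2 ≤ p.natDegree) {b b' : ℝ} (hb : b ≠ b') :
    1 ≤ (taylor b p - taylor b' p).natDegree ∧
      (taylor b p - taylor b' p).natDegree < p.natDegree := by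
  obtain ⟨d, hd⟩ : ∃ d, p.natDegree = d + 2 := ⟨p.natDegree - 2, by omega⟩
  have hp0 : p ≠ 0 := by rintro rfl; simp at hd
  have h1 : (taylor b p - taylor b' p).coeff (d + 1) ≠ 0 := by
    rw [coeff_sub, taylor_coeff, taylor_coeff,
      eq_X_add_C_of_natDegree_le_one ((natDegree_hasseDeriv_le p (d + 1)).trans (by omega))]
    simp only [eval_add, eval_mul, eval_C, eval_X, add_sub_add_right_eq_sub, ← mul_sub]
    refine mul_ne_zero ?_ (sub_ne_zero.2 hb)
    rw [hasseDeriv_coeff]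
    refine mul_ne_zero (by exact_mod_cast (Nat.choose_pos (by omega)).ne') ?_
    rw [show 1 + (d + 1) = p.natDegree by omega]
    exact leadingCoeff_ne_zero.2 hp0
  refine ⟨(by omega : 1 ≤ d + 1).trans (le_natDegree_of_ne_zero h1), natDegree_lt_natDegree
    (fun h => h1 (by rw [h, coeff_zero])) ?_⟩
  have := degree_sub_lt_left (p := taylor b p) (q := taylor b' p) (by simp) (by simpa using hp0) (by simp)
  simpa using this

open Polynomial in
theorem vdc (hL : IsLocal L) (hζ : Sing ρ ζ) (d : ℕ) : ∀ p : ℝ[X], p.natDegree = d → 1 ≤ d →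
    ∀ c : ℂ, L (fun ε => ρ.G ζ ((p.eval ε : ℝ) + c)) = 0 := by
  induction d using Nat.strong_induction_on with
  | h d ih =>
    intro p hp hd c
    rcases hd.eq_or_lt with h1 | h1
    · have e := eq_X_add_C_of_natDegree_le_one (p := p) (by omega)
      have ha : p.coeff 1 ≠ 0 := by
        intro h
        rw [h] at e
        rw [e] at hp
        simp at hp
        omega
      rw [← vdc_base hL hζ ha (p.coeff 0 + c)]
      congr 1
      funext ε
      congr 1
      conv_lhs => rw [e]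
      simp only [eval_add, eval_mul, eval_C, eval_X]
      push_cast; ring
    · set f : ℝ → ℝ := fun ε => ρ.G ζ ((p.eval ε : ℝ) + c) with hf
      have hfb : ∀ ε, |f ε| ≤ 1 := fun ε => abs_G_le hζ.norm _
      have h4 := sq_le_of_forall (γ := L f) (κ := 0) fun n => by
        have h5 : ∀ β : ℝ, 0 < β → |n * L f| ≤ √n + 2 * n * (n * β) := by
          intro β hβ
          let S : ℝ → ℝ := fun ε => ∑ j : Fin n, f (ε + j * β)
          have hS : Bdd S := Bdd.sum _ fun j _ => ⟨1, fun ε => hfb _⟩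
          have h6 : |L S - n * L f| ≤ 2 * n * (n * β) := by
            have : L S - n * L f = ∑ j : Fin n, (L (fun ε => f (ε + j * β)) - L f) := by
              simp only [S, map_sum', sum_sub_distrib, sum_const, card_univ, Fintype.card_fin,
                nsmul_eq_mul]
            rw [this]
            refine (abs_sum_le_sum_abs _ _).trans ?_
            refine (sum_le_card_nsmul _ _ (2 * (n * β)) fun j _ =>
              (hL.shift f 1 hfb _).trans ?_).trans_eq (by simp; ring)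
            have hj : ((j : ℕ) : ℝ) ≤ n := by exact_mod_cast j.2.le
            rw [abs_of_nonneg (by positivity)]
            nlinarith
          have h7 : L S ^ 2 ≤ n := by
            refine (hL.sq_le hS).trans ?_
            let q : Fin n → Fin n → ℝ[X] := fun j k => taylor (j * β) p - taylor (k * β) p
            have h8 : ∀ ε, S ε ^ 2 ≤ ∑ j, ∑ k, ρ.G ζ (((q j k).eval ε : ℝ) + 0) := by
              intro ε
              have := sq_sum_inner_le (fun j : Fin n => ρ.T (p.eval (ε + j * β) : ℝ) ζ)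
                (ξ := ρ.T (-c) ζ) (by rw [ρ.norm_T]; exact hζ.norm)
              simp only [ρ.inner_TT, sub_neg_eq_add] at this
              simpa [q, taylor_eval, MRep.G, S, hf] using this
            refine (hL.mono (by simpa [sq] using hS.mul hS) (Bdd.sum _ fun j _ => Bdd.sum _
              fun k _ => ⟨1, fun ε => abs_G_le hζ.norm _⟩) h8).trans ?_
            simp only [map_sum']
            have := sum_sum_le (κ := 0) (a := fun j k => L fun ε => ρ.G ζ (((q j k).eval ε : ℝ) + 0))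
              le_rfl (fun j => (abs_le.1 (hL.abs_le fun ε => abs_G_le hζ.norm _)).2)
              fun j k hjk => by
                have h9 := natDegree_diff (p := p) (by omega) (b := j * β) (b' := k * β) (by
                  intro h
                  have := mul_right_cancel₀ hβ.ne' h
                  exact hjk (Fin.ext (by exact_mod_cast this)))
                exact (ih _ (hp ▸ h9.2) _ rfl h9.1 0).le
            simpa using this
          have h10 : |L S| ≤ √n := Real.abs_le_sqrt h7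
          have := abs_sub_abs_le_abs_sub (n * L f) (L S)
          rw [abs_sub_comm] at this
          linarith
        have h11 : |n * L f| ≤ √n := by
          refine le_of_forall_pos_le_add fun e he => ?_
          refine (h5 (e / (2 * n * n + 1)) (by positivity)).trans ?_
          have : 2 * (n : ℝ) * (n * (e / (2 * n * n + 1))) ≤ e := by
            rw [← mul_assoc, mul_div_assoc', div_le_iff₀ (by positivity)]
            nlinarith
          linarith
        have h12 := pow_le_pow_left₀ (abs_nonneg _) h11 2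
        rw [sq_abs, Real.sq_sqrt (Nat.cast_nonneg _)] at h12
        simpa using h12
      exact pow_eq_zero_iff two_ne_zero |>.1 (le_antisymm h4 (sq_nonneg _))

end Pool.Agent.Lib.MP_843c79_co
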